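import Mathlib

/-!
# Short relations between at most five pairs of conjugates: the basic lemmas
-/

set_option autoImplicit false

open Finset

namespace Pool.Agent.H86.CM6

/-- A finite set `L` of letters with a sign change `ng` and an action of a group `G`, with
multiplicities `μ`, and the set `R` of relations, a saturated group of odd functions without
nonzero elements of weight at most four. -/
structure Sy (G : Type) {L : Type} [Fintype L] [Group G] [MulAction G L] (ng : L → L)
    (μ : L → ℕ) (R : Set (L → ℤ)) : Prop where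
  nn : ∀ t, ng (ng t) = t
  ne : ∀ t, ng t ≠ t
  na : ∀ (g : G) (t : L), g • ng t = ng (g • t)
  μn : ∀ t, μ (ng t) = μ t
  μa : ∀ (g : G) (t : L), μ (g • t) = μ t
  μp : ∀ t, 1 ≤ μ t
  μs : ∑ t, μ t ≤ 10
  odd : ∀ x ∈ R, ∀ t, x (ng t) = - x t
  add : ∀ x ∈ R, ∀ y ∈ R, x + y ∈ R
  neg : ∀ x ∈ R, -x ∈ R
  act : ∀ (g : G), ∀ x ∈ R, (fun t => x (g⁻¹ • t)) ∈ R
  sat : ∀ (k : ℤ), k ≠ 0 → ∀ x, k • x ∈ R → x ∈ R
  min : ∀ x ∈ R, ∑ t, |x t| ≤ 4 → x = 0

namespace Sy

variable {G L : Type} [Fintype L] [Group G] [MulAction G L] {ng : L → L}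
  {μ : L → ℕ} {R : Set (L → ℤ)} (S : Sy G ng μ R)

include S

theorem sub {x y : L → ℤ} (hx : x ∈ R) (hy : y ∈ R) : x - y ∈ R := by
  rw [sub_eq_add_neg]
  exact S.add x hx _ (S.neg y hy)

theorem zero {x : L → ℤ} (hx : x ∈ R) : (0 : L → ℤ) ∈ R := by
  have := S.sub hx hx
  rwa [sub_self] at this

theorem nsm {x : L → ℤ} (hx : x ∈ R) (k : ℕ) : (k : ℤ) • x ∈ R := by
  induction k with
  | zero => simpa using S.zero hx
  | succ k ih =>
    have : ((k + 1 : ℕ) : ℤ) • x = (k : ℤ) • x + x := by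
      push_cast
      rw [add_smul, one_smul]
    rw [this]
    exact S.add _ ih x hx

theorem smul {x : L → ℤ} (hx : x ∈ R) (k : ℤ) : k • x ∈ R := by
  obtain ⟨m, rfl | rfl⟩ := k.eq_nat_or_neg
  · exact S.nsm hx m
  · rw [neg_smul]
    exact S.neg _ (S.nsm hx m)

theorem ng_inj {a b : L} (h : ng a = ng b) : a = b := by
  rw [← S.nn a, h, S.nn]

theorem ng_eq {a b : L} : ng a = b ↔ a = ng b :=
  ⟨fun h => by rw [← h, S.nn], fun h => by rw [h, S.nn]⟩

theorem two_supp [DecidableEq L] {x : L → ℤ} (hx : x ∈ R) {a b : L} (hab : |x a| = |x b|)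
    (h0 : ∀ t, t ≠ a → t ≠ ng a → t ≠ b → t ≠ ng b → x t = 0) : x = 0 := by
  obtain ⟨k, hk⟩ : ∃ k, k = x a := ⟨_, rfl⟩
  have hxb : x b = k ∨ x b = -k := by
    rw [hk]
    rcases abs_eq_abs.1 hab with h | h
    · left; exact h.symm
    · right; linarith
  have hx4 : ∀ t, x t = 0 ∨ ((x t = k ∨ x t = -k) ∧ t ∈ ({a, ng a, b, ng b} : Finset L)) := by
    intro t
    by_cases h1 : t = a
    · right; exact ⟨Or.inl (by rw [h1, hk]), by simp [h1]⟩
    by_cases h2 : t = ng a
    · right; exact ⟨Or.inr (by rw [h2, S.odd x hx, hk]), by simp [h2]⟩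
    by_cases h3 : t = b
    · right; exact ⟨by rw [h3]; exact hxb, by simp [h3]⟩
    by_cases h4 : t = ng b
    · right
      refine ⟨?_, by simp [h4]⟩
      rw [h4, S.odd x hx]
      rcases hxb with h | h
      · right; rw [h]
      · left; rw [h, neg_neg]
    exact Or.inl (h0 t h1 h2 h3 h4)
  by_cases hk0 : k = 0
  · funext t
    rcases hx4 t with h | ⟨h | h, _⟩
    · exact h
    · rw [h, hk0]; rfl
    · rw [h, hk0]; rfl
  · have hy : ∃ y : L → ℤ, k • y = x ∧ ∀ t, |y t| ≤ if t ∈ ({a, ng a, b, ng b} : Finset L) then 1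
        else 0 := by
      refine ⟨fun t => x t / k, ?_, ?_⟩
      · funext t
        rcases hx4 t with h | ⟨h | h, _⟩
        · simp [h]
        · simp [h, hk0]
        · simp [h, hk0]
      · intro t
        rcases hx4 t with h | ⟨h | h, hm⟩
        · simp only [h, Int.zero_ediv, abs_zero]
          split_ifs <;> norm_num
        · rw [if_pos hm]
          simp [h, Int.ediv_self hk0]
        · rw [if_pos hm]
          have e : (-k) / k = -1 := by
            rw [Int.neg_ediv_of_dvd (dvd_refl k), Int.ediv_self hk0]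
          simp only [h, e]
          norm_num
    obtain ⟨y, hy1, hy2⟩ := hy
    have hyR : y ∈ R := S.sat k hk0 y (by rw [hy1]; exact hx)
    have hy0 : y = 0 := by
      refine S.min y hyR ?_
      refine (Finset.sum_le_sum fun t _ => hy2 t).trans ?_
      rw [Finset.sum_ite_mem, Finset.univ_inter, Finset.sum_const, nsmul_eq_mul, mul_one]
      exact_mod_cast Finset.card_le_four
    rw [← hy1, hy0, smul_zero]

theorem one_supp [DecidableEq L] {x : L → ℤ} (hx : x ∈ R) {a : L}
    (h0 : ∀ t, t ≠ a → t ≠ ng a → x t = 0) : x = 0 :=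
  S.two_supp hx (a := a) (b := a) rfl fun t h1 h2 _ _ => h0 t h1 h2

theorem agree {n n' : L → ℤ} (hn : n ∈ R) (hn' : n' ∈ R) (hw : ∑ t, |n t| ≤ 8)
    (h : ∀ t, |n t| = |n' t|) : n' = n ∨ n' = -n := by
  classical
  obtain ⟨a, ha⟩ : ∃ a : L → ℤ, ∀ t, a t = if n' t = n t then n t else 0 := ⟨_, fun t => rfl⟩
  have h2 : ∀ t, n' t = n t ∨ n' t = -n t := fun t => by
    rcases abs_eq_abs.1 (h t) with h' | h'
    · left; exact h'.symm
    · right; linarith
  have haR : a ∈ R := by
    refine S.sat 2 two_ne_zero a ?_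
    have : (2 : ℤ) • a = n + n' := by
      funext t
      simp only [Pi.smul_apply, Pi.add_apply, smul_eq_mul, ha]
      rcases h2 t with h' | h'
      · rw [if_pos h', h']; ring
      · split_ifs with h''
        · rw [h'']; ring
        · rw [h']; ring
    rw [this]
    exact S.add n hn n' hn'
  have hbR : n - a ∈ R := S.sub hn haR
  have hsum : ∑ t, |a t| + ∑ t, |(n - a) t| = ∑ t, |n t| := by
    rw [← Finset.sum_add_distrib]
    refine Finset.sum_congr rfl fun t _ => ?_
    rw [Pi.sub_apply, ha]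
    split_ifs <;> simp
  by_cases h4 : ∑ t, |a t| ≤ 4
  · right
    have h0 := S.min a haR h4
    funext t
    have h1 := ha t
    rw [h0, Pi.zero_apply] at h1
    rcases h2 t with h' | h'
    · rw [if_pos h'] at h1
      rw [h', Pi.neg_apply, ← h1, neg_zero]
    · exact h'
  · left
    have h0 := S.min (n - a) hbR (by linarith)
    funext t
    have h1 := congrFun h0 t
    rw [Pi.sub_apply, Pi.zero_apply, ha] at h1
    split_ifs at h1 with h'
    · exact h'
    · rw [sub_zero] at h1
      rcases h2 t with h'' | h''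
      · exact h''
      · rw [h'', h1, neg_zero]

end Sy

end Pool.Agent.H86.CM6
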