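import Pool.Agent.H86.CM6.C1

/-!
# Short relations: the first reductions
-/

set_option autoImplicit false

open Finset

namespace Pool.Agent.H86.CM6

/-- The conclusion: a sign function, invariant up to the sign, on letters of total multiplicity
at least eight. -/
def Quad (G : Type) {L : Type} [Fintype L] [Group G] [MulAction G L] (ng : L → L)
    (μ : L → ℕ) : Prop :=
  ∃ s : L → ℤ, (∀ t, s t = 0 ∨ s t = 1 ∨ s t = -1) ∧ (∀ t, s (ng t) = - s t) ∧
    (∀ g : G, (∀ t, s (g • t) = s t) ∨ (∀ t, s (g • t) = - s t)) ∧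
    8 ≤ ∑ t, if s t = 0 then 0 else μ t

namespace Sy

variable {G L : Type} [Fintype L] [Group G] [MulAction G L] {ng : L → L}
  {μ : L → ℕ} {R : Set (L → ℤ)}

theorem quad_of_semi {y : L → ℤ} (hodd : ∀ t, y (ng t) = - y t)
    (hg : ∀ g : G, (∀ t, y (g • t) = y t) ∨ (∀ t, y (g • t) = - y t))
    (h8 : 8 ≤ ∑ t, if y t = 0 then 0 else μ t) : Quad G ng μ := by
  refine ⟨fun t => Int.sign (y t), fun t => ?_, fun t => ?_, fun g => ?_, ?_⟩
  · rcases lt_trichotomy (y t) 0 with h | h | h
    · right; right; exact Int.sign_eq_neg_one_of_neg h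
    · left; simp only [h, Int.sign_zero]
    · right; left; exact Int.sign_eq_one_of_pos h
  · simp only [hodd, Int.sign_neg]
  · rcases hg g with h | h
    · left; intro t; simp only [h]
    · right; intro t; simp only [h, Int.sign_neg]
  · simp only [Int.sign_eq_zero_iff_zero]
    exact h8

variable (S : Sy G ng μ R)

include S

/-- the translates of `n` -/
theorem tr_mem {n : L → ℤ} (hn : n ∈ R) (g : G) : (fun t => n (g⁻¹ • t)) ∈ R := S.act g n hn

theorem wt_tr (n : L → ℤ) (g : G) : ∑ t, |n (g⁻¹ • t)| = ∑ t, |n t| :=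
  Equiv.sum_comp (MulAction.toPerm g⁻¹) (fun t => |n t|)

/-- the deficient pair -/
structure Def (S : Sy G ng μ R) (n : L → ℤ) (z : L) : Prop where
  mem : n ∈ R
  wt : ∑ t, |n t| = 8
  sum : ∑ t, μ t = 10
  at_z : |n z| = μ z - 1
  off : ∀ t, t ≠ z → t ≠ ng z → |n t| = μ t

theorem start [DecidableEq L] {n : L → ℤ} (hn : n ∈ R) (hμ : ∀ t, |n t| ≤ μ t)
    (hw : ∑ t, |n t| = 8) :
    Quad G ng μ ∨ ∃ (z : L) (g : G), Def S n z ∧ g • z ≠ z ∧ g • z ≠ ng z := by
  by_cases hall : ∀ g : G, ∀ t, |n (g⁻¹ • t)| = |n t|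
  · left
    refine quad_of_semi (y := n) (S.odd n hn) (fun g => ?_) ?_
    · rcases S.agree hn (S.tr_mem hn g⁻¹) hw.le (fun t => (hall g⁻¹ t).symm) with h | h
      · left
        intro t
        have := congrFun h t
        simpa using this
      · right
        intro t
        have := congrFun h t
        simpa using this
    · have h1 : (8 : ℤ) ≤ ((∑ t, if n t = 0 then 0 else μ t : ℕ) : ℤ) := by
        rw [← hw]
        push_cast
        refine Finset.sum_le_sum fun t _ => ?_
        split_ifs with h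
        · rw [h]; simp
        · exact hμ t
      exact_mod_cast h1
  · right
    push Not at hall
    obtain ⟨g, t1, hne⟩ := hall
    have hμs : (∑ t, (μ t : ℤ)) ≤ 10 := by exact_mod_cast S.μs
    -- the deficiency
    obtain ⟨δ, hδ⟩ : ∃ δ : L → ℤ, ∀ t, δ t = μ t - |n t| := ⟨_, fun t => rfl⟩
    have hδ0 : ∀ t, 0 ≤ δ t := fun t => by rw [hδ]; linarith [hμ t]
    have hδn : ∀ t, δ (ng t) = δ t := fun t => by rw [hδ, hδ, S.μn, S.odd n hn, abs_neg]
    have hδs : ∑ t, δ t ≤ 2 := by
      simp only [hδ, Finset.sum_sub_distrib, hw]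
      linarith
    have hδne : δ (g⁻¹ • t1) ≠ δ t1 := by
      rw [hδ, hδ, S.μa]
      intro h
      exact hne (by linarith)
    obtain ⟨z, hz1, hz2⟩ : ∃ z, 1 ≤ δ z ∧ (z = t1 ∨ z = g⁻¹ • t1) := by
      by_cases h : δ t1 = 0
      · refine ⟨g⁻¹ • t1, ?_, Or.inr rfl⟩
        have := hδ0 (g⁻¹ • t1)
        rw [h] at hδne
        omega
      · refine ⟨t1, ?_, Or.inl rfl⟩
        have := hδ0 t1
        omega
    have hzz : z ≠ ng z := fun h => S.ne z h.symm
    have hsplit : ∑ t, δ t = δ z + δ (ng z) + ∑ t ∈ univ \ {z, ng z}, δ t := by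
      rw [← Finset.sum_sdiff (Finset.subset_univ {z, ng z}), Finset.sum_pair hzz]
      ring
    have hrest : 0 ≤ ∑ t ∈ univ \ {z, ng z}, δ t := Finset.sum_nonneg fun t _ => hδ0 t
    rw [hδn] at hsplit
    have hδz : δ z = 1 := by omega
    have hrest0 : ∑ t ∈ univ \ {z, ng z}, δ t = 0 := by omega
    have hoff : ∀ t, t ≠ z → t ≠ ng z → δ t = 0 := by
      intro t h1 h2
      refine (Finset.sum_eq_zero_iff_of_nonneg fun t _ => hδ0 t).1 hrest0 t ?_
      simp [h1, h2]
    refine ⟨z, ?_⟩
    have hD : Def S n z := by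
      refine ⟨hn, hw, ?_, ?_, ?_⟩
      · have h1 : ∑ t, δ t = 2 := by omega
        simp only [hδ, Finset.sum_sub_distrib, hw] at h1
        have h2 : ((∑ t, μ t : ℕ) : ℤ) = 10 := by
          push_cast
          linarith
        exact_mod_cast h2
      · have := hδ z
        rw [hδz] at this
        linarith
      · intro t h1 h2
        have := hδ t
        rw [hoff t h1 h2] at this
        linarith
    rcases hz2 with rfl | rfl
    · -- `z = t1`
      refine ⟨g⁻¹, hD, ?_, ?_⟩
      · intro h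
        exact hδne (by rw [h])
      · intro h
        exact hδne (by rw [h, hδn])
    · refine ⟨g, hD, ?_, ?_⟩
      · rw [smul_inv_smul]
        intro h
        exact hδne (by rw [← h])
      · rw [smul_inv_smul]
        intro h
        apply hδne
        rw [h, hδn, ← h]

namespace Def

variable {S}
omit S
variable {S : Sy G ng μ R} {n : L → ℤ} {z : L} (D : Def S n z)

include D

theorem mem_tr (g : G) : (fun t => n (g⁻¹ • t)) ∈ R := S.tr_mem D.mem g

theorem tr_at (g : G) : |n (g⁻¹ • (g • z))| = μ z - 1 := by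
  rw [inv_smul_smul, D.at_z]

theorem tr_off (g : G) {t : L} (h1 : t ≠ g • z) (h2 : t ≠ ng (g • z)) :
    |n (g⁻¹ • t)| = μ t := by
  rw [D.off _ (fun h => h1 (by rw [← h, smul_inv_smul])) (fun h => h2 (by
    rw [← S.na, ← h, smul_inv_smul])), S.μa]

/-- the translate depends only on the deficient pair, up to the sign -/
theorem tr_eq {g h : G} (hgh : g • z = h • z ∨ g • z = ng (h • z)) :
    (∀ t, n (g⁻¹ • t) = n (h⁻¹ • t)) ∨ (∀ t, n (g⁻¹ • t) = -n (h⁻¹ • t)) := by
  have hz : ∀ (g : G), |n (g⁻¹ • (g • z))| = μ z - 1 := D.tr_at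
  have key : ∀ t, |n (h⁻¹ • t)| = |n (g⁻¹ • t)| := by
    intro t
    by_cases h1 : t = g • z ∨ t = ng (g • z)
    · have h2 : t = h • z ∨ t = ng (h • z) := by
        rcases h1 with h1 | h1 <;> rcases hgh with h' | h'
        · left; rw [h1, h']
        · right; rw [h1, h']
        · right; rw [h1, h']
        · left; rw [h1, h', S.nn]
      have e : ∀ k : G, (t = k • z ∨ t = ng (k • z)) → |n (k⁻¹ • t)| = μ z - 1 := by
        intro k hk
        rcases hk with hk | hk
        · rw [hk, D.tr_at]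
        · rw [hk, S.na, S.odd n D.mem, abs_neg, D.tr_at]
      rw [e h h2, e g h1]
    · push Not at h1
      rw [D.tr_off g h1.1 h1.2, D.tr_off h]
      · intro h2
        rcases hgh with h' | h'
        · exact h1.1 (by rw [h2, h'])
        · exact h1.2 (by rw [h2, h', S.nn])
      · intro h2
        rcases hgh with h' | h'
        · exact h1.2 (by rw [h2, h'])
        · exact h1.1 (by rw [h2, h'])
  rcases S.agree (D.mem_tr h) (D.mem_tr g) (by
    rw [S.wt_tr, D.wt]) key with h' | h'
  · left; intro t; exact congrFun h' t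
  · right; intro t; exact congrFun h' t

end Def

end Sy

end Pool.Agent.H86.CM6
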