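import Pool.Agent.H86.CM6.C2

/-!
# Short relations: multiplicity two, and orbits of length two
-/

set_option autoImplicit false
set_option linter.unusedSectionVars false

open Finset

namespace Pool.Agent.H86.CM6

namespace Sy

variable {G L : Type} [Fintype L] [DecidableEq L] [Group G] [MulAction G L] {ng : L → L}
  {μ : L → ℕ} {R : Set (L → ℤ)} (S : Sy G ng μ R)

include S

theorem peel {P : Finset L} {a : L} (ha : a ∈ P) (hna : ng a ∈ P) {M : Type} [AddCommMonoid M]
    (f : L → M) : ∑ t ∈ P, f t = f a + f (ng a) + ∑ t ∈ P \ {a, ng a}, f t := by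
  rw [← Finset.sum_sdiff (s₁ := {a, ng a}) (s₂ := P) (by
    intro x hx
    rcases Finset.mem_insert.1 hx with h | h
    · rw [h]; exact ha
    · rw [Finset.mem_singleton.1 h]; exact hna),
    Finset.sum_pair (fun h => S.ne a h.symm), add_comm]

theorem peelμ {P : Finset L} {a : L} (ha : a ∈ P) (hna : ng a ∈ P) :
    ∑ t ∈ P, μ t = 2 * μ a + ∑ t ∈ P \ {a, ng a}, μ t := by
  rw [S.peel ha hna, S.μn]
  ring

/-- a sum over a set closed under the sign change is even -/
theorem even_sum {P : Finset L} (hP : ∀ t ∈ P, ng t ∈ P) : Even (∑ t ∈ P, μ t) := by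
  have h : ∑ t ∈ P, (μ t : ZMod 2) = 0 := by
    refine Finset.sum_involution (fun t _ => ng t) (fun t _ => ?_) (fun t _ _ => S.ne t)
      (fun t ht => hP t ht) (fun t _ => S.nn t)
    rw [S.μn, ← two_mul]
    have : (2 : ZMod 2) = 0 := rfl
    rw [this, zero_mul]
  rw [← ZMod.natCast_eq_zero_iff_even]
  push_cast
  exact h

end Sy

namespace Sy

variable {G L : Type} [Fintype L] [DecidableEq L] [Group G] [MulAction G L] {ng : L → L}
  {μ : L → ℕ} {R : Set (L → ℤ)} {S : Sy G ng μ R} {n : L → ℤ} {z : L}

theorem Def.μ_le {g : G} (D : Def S n z) (h1 : g • z ≠ z) (h2 : g • z ≠ ng z) :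
    ∑ t ∈ (univ \ {z, ng z}) \ {g • z, ng (g • z)}, μ t = 10 - 4 * μ z ∧ μ z ≤ 2 := by
  have e1 := S.peelμ (P := univ) (a := z) (mem_univ _) (mem_univ _)
  have e2 := S.peelμ (P := univ \ {z, ng z}) (a := g • z) (by simp [h1, h2]) (by
    simp only [mem_sdiff, mem_univ, true_and, mem_insert, mem_singleton, not_or]
    exact ⟨fun h => h2 (S.ng_eq.1 h), fun h => h1 (S.ng_inj h)⟩)
  rw [D.sum] at e1
  rw [S.μa] at e2
  constructor
  · omega
  · omega

theorem Def.zero_at (D : Def S n z) (hz : μ z = 1) : n z = 0 := by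
  have := D.at_z
  rw [hz] at this
  simpa using this

/-- multiplicity two is impossible -/
theorem Def.mu_one {g : G} (D : Def S n z) (h1 : g • z ≠ z) (h2 : g • z ≠ ng z) : μ z = 1 := by
  by_contra hμ1
  obtain ⟨hrest, hle⟩ := D.μ_le h1 h2
  have hμ2 : μ z = 2 := by
    have := S.μp z
    omega
  rw [hμ2] at hrest
  obtain ⟨w, hw⟩ : ∃ w, w = g • z := ⟨_, rfl⟩
  have hμw : μ w = 2 := by rw [hw, S.μa, hμ2]
  obtain ⟨i, hi⟩ : ((univ \ {z, ng z}) \ {g • z, ng (g • z)} : Finset L).Nonempty := by
    rw [Finset.nonempty_iff_ne_empty]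
    intro h
    rw [h] at hrest
    simp at hrest
  rw [← hw] at hrest hi h1 h2
  have hi' : ng i ∈ (univ \ {z, ng z}) \ {w, ng w} := by
    simp only [mem_sdiff, mem_univ, true_and, mem_insert, mem_singleton, not_or] at hi ⊢
    obtain ⟨⟨a1, a2⟩, a3, a4⟩ := hi
    exact ⟨⟨fun h => a2 (S.ng_eq.1 h), fun h => a1 (S.ng_inj h)⟩,
      fun h => a4 (S.ng_eq.1 h), fun h => a3 (S.ng_inj h)⟩
  have e3 := S.peelμ hi hi'
  rw [hrest] at e3
  have hμi : μ i = 1 := by
    have := S.μp i
    omega
  rw [hμi] at e3
  have hP3 : ∑ t ∈ ((univ \ {z, ng z}) \ {w, ng w}) \ {i, ng i}, μ t = 0 := by omega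
  have hall : ∀ t : L, t = z ∨ t = ng z ∨ t = w ∨ t = ng w ∨ t = i ∨ t = ng i := by
    intro t
    by_contra hcon
    push Not at hcon
    obtain ⟨b1, b2, b3, b4, b5, b6⟩ := hcon
    have h0 := (Finset.sum_eq_zero_iff.1 hP3) t (by simp [b1, b2, b3, b4, b5, b6])
    have := S.μp t
    omega
  simp only [mem_sdiff, mem_univ, true_and, mem_insert, mem_singleton, not_or] at hi
  obtain ⟨⟨i1, i2⟩, i3, i4⟩ := hi
  -- the values
  obtain ⟨r, hr⟩ : ∃ r : L → ℤ, ∀ t, r t = n (g⁻¹ • t) := ⟨_, fun t => rfl⟩
  have hrR : r ∈ R := by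
    have : r = fun t => n (g⁻¹ • t) := funext hr
    rw [this]
    exact D.mem_tr g
  have nz : |n z| = 1 := by rw [D.at_z, hμ2]; norm_num
  have nw : |n w| = 2 := by rw [D.off w h1 h2, hμw]; norm_num
  have ni : |n i| = 1 := by rw [D.off i i1 i2, hμi]; norm_num
  have rw' : |r w| = 1 := by rw [hr, hw, D.tr_at, hμ2]; norm_num
  have rz : |r z| = 2 := by
    rw [hr, D.tr_off g (fun h => h1 (by rw [hw]; exact h.symm)) (fun h => h2 (by
      rw [hw]
      exact (S.ng_eq.1 h.symm))), hμ2]
    norm_num
  have ri : |r i| = 1 := by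
    rw [hr, D.tr_off g (by rw [← hw]; exact i3) (by rw [← hw]; exact i4), hμi]
    norm_num
  obtain ⟨e, he, hei⟩ : ∃ e : ℤ, (e = 1 ∨ e = -1) ∧ n i = e * r i := by
    rcases abs_eq_abs.1 (ni.trans ri.symm) with h | h
    · exact ⟨1, Or.inl rfl, by rw [h, one_mul]⟩
    · exact ⟨-1, Or.inr rfl, by rw [h]; ring⟩
  obtain ⟨x, hx⟩ : ∃ x : L → ℤ, x = n - e • r := ⟨_, rfl⟩
  have hxR : x ∈ R := by rw [hx]; exact S.sub D.mem (S.smul hrR e)
  have hxt : ∀ t, x t = n t - e * r t := fun t => by rw [hx]; rfl
  have xi : x i = 0 := by rw [hxt, hei, sub_self]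
  have xz : x z ≠ 0 ∧ (|x z| = 1 ∨ |x z| = 3) := by
    rw [hxt]
    rcases (abs_eq (by norm_num)).1 nz with h | h <;> rcases (abs_eq (by norm_num)).1 rz with h' | h'
      <;> rcases he with h'' | h'' <;> rw [h, h', h''] <;> norm_num
  have xw : x w ≠ 0 ∧ (|x w| = 1 ∨ |x w| = 3) := by
    rw [hxt]
    rcases (abs_eq (by norm_num)).1 nw with h | h <;> rcases (abs_eq (by norm_num)).1 rw' with h' | h'
      <;> rcases he with h'' | h'' <;> rw [h, h', h''] <;> norm_num
  have hsupp : ∀ t, t ≠ z → t ≠ ng z → t ≠ w → t ≠ ng w → x t = 0 := by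
    intro t b1 b2 b3 b4
    rcases hall t with h | h | h | h | h | h
    · exact absurd h b1
    · exact absurd h b2
    · exact absurd h b3
    · exact absurd h b4
    · rw [h, xi]
    · rw [h, S.odd x hxR, xi, neg_zero]
  by_cases hab : |x z| = |x w|
  · have := S.two_supp hxR hab hsupp
    exact xz.1 (by rw [this]; rfl)
  · -- the translate of `x`
    have gz : g⁻¹ • z = w ∨ g⁻¹ • z = ng w := by
      rcases hall (g⁻¹ • z) with h | h | h | h | h | h
      · exact absurd (by rw [← h, smul_inv_smul, h] : g • z = z) (by rw [← hw]; exact h1)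
      · refine absurd (?_ : g • z = ng z) (by rw [← hw]; exact h2)
        have h5 : z = g • ng z := by rw [← h, smul_inv_smul]
        rw [S.na] at h5
        exact (S.ng_eq.1 h5.symm)
      · exact Or.inl h
      · exact Or.inr h
      · have h5 := S.μa g⁻¹ z
        rw [h, hμi, hμ2] at h5
        omega
      · have h5 := S.μa g⁻¹ z
        rw [h, S.μn, hμi, hμ2] at h5
        omega
    have gi : g⁻¹ • i = i ∨ g⁻¹ • i = ng i := by
      have h6 := S.μa g⁻¹ i
      rcases hall (g⁻¹ • i) with h | h | h | h | h | h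
      · rw [h, hμi, hμ2] at h6; omega
      · rw [h, S.μn, hμi, hμ2] at h6; omega
      · rw [h, hμi, hμw] at h6; omega
      · rw [h, S.μn, hμi, hμw] at h6; omega
      · exact Or.inl h
      · exact Or.inr h
    obtain ⟨y, hy⟩ : ∃ y : L → ℤ, ∀ t, y t = x (g⁻¹ • t) := ⟨_, fun t => rfl⟩
    have hyR : y ∈ R := by
      have : y = fun t => x (g⁻¹ • t) := funext hy
      rw [this]
      exact S.act g x hxR
    have yi : y i = 0 := by
      rw [hy]
      rcases gi with h | h
      · rw [h, xi]
      · rw [h, S.odd x hxR, xi, neg_zero]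
    have yw : y w = x z := by rw [hy, hw, inv_smul_smul]
    have yz : y z = x w ∨ y z = - x w := by
      rw [hy]
      rcases gz with h | h
      · left; rw [h]
      · right; rw [h, S.odd x hxR]
    obtain ⟨v, hv⟩ : ∃ v : L → ℤ, v = (y z) • x - (x z) • y := ⟨_, rfl⟩
    have hvR : v ∈ R := by rw [hv]; exact S.sub (S.smul hxR _) (S.smul hyR _)
    have hvt : ∀ t, v t = y z * x t - x z * y t := fun t => by rw [hv]; rfl
    have vz : v z = 0 := by rw [hvt]; ring
    have vi : v i = 0 := by rw [hvt, xi, yi]; ring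
    have v0 : v = 0 := S.one_supp hvR (a := w) fun t b3 b4 => by
      rcases hall t with h | h | h | h | h | h
      · rw [h, vz]
      · rw [h, S.odd v hvR, vz, neg_zero]
      · exact absurd h b3
      · exact absurd h b4
      · rw [h, vi]
      · rw [h, S.odd v hvR, vi, neg_zero]
    have vw := hvt w
    rw [v0, Pi.zero_apply, yw] at vw
    have h9 : x z * x z = x w * x w ∨ x z * x z = -(x w * x w) := by
      rcases yz with h | h
      · left; rw [h] at vw; linarith
      · right; rw [h] at vw; linarith
    rcases h9 with h9 | h9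
    · exact hab (abs_eq_abs.2 (mul_self_eq_mul_self_iff.1 h9))
    · have h10 := mul_self_nonneg (x w)
      have h11 : 0 < x z * x z := by
        have := mul_self_pos.2 xz.1
        exact this
      linarith

/-- orbits of length two -/
theorem Def.orbit_two {g0 : G} (D : Def S n z) (h1 : g0 • z ≠ z) (h2 : g0 • z ≠ ng z)
    (hO : ∀ g : G, g • z = z ∨ g • z = ng z ∨ g • z = g0 • z ∨ g • z = ng (g0 • z)) :
    Quad G ng μ := by
  have hμ := D.mu_one h1 h2
  obtain ⟨hrest, -⟩ := D.μ_le h1 h2
  rw [hμ] at hrest
  change _ = 6 at hrest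
  have nz := D.zero_at hμ
  obtain ⟨w, hw⟩ : ∃ w, w = g0 • z := ⟨_, rfl⟩
  rw [← hw] at hrest h1 h2
  have hμw : μ w = 1 := by rw [hw, S.μa, hμ]
  obtain ⟨r, hr⟩ : ∃ r : L → ℤ, ∀ t, r t = n (g0⁻¹ • t) := ⟨_, fun t => rfl⟩
  have hrR : r ∈ R := by
    have : r = fun t => n (g0⁻¹ • t) := funext hr
    rw [this]
    exact D.mem_tr g0
  have rw0 : r w = 0 := by rw [hr, hw, inv_smul_smul, nz]
  have rz : |r z| = 1 := by
    rw [hr, D.tr_off g0 (fun h => h1 (by rw [hw]; exact h.symm)) (fun h => h2 (by
      rw [hw]
      exact (S.ng_eq.1 h.symm))), hμ]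
    norm_num
  have nw : |n w| = 1 := by rw [D.off w h1 h2, hμw]; norm_num
  set P := ((univ \ {z, ng z}) \ {w, ng w} : Finset L) with hP
  have hPm : ∀ t, t ∈ P ↔ t ≠ z ∧ t ≠ ng z ∧ t ≠ w ∧ t ≠ ng w := by
    intro t
    simp [hP, and_assoc]
  have hPn : ∀ t ∈ P, ng t ∈ P := by
    intro t ht
    rw [hPm] at ht ⊢
    obtain ⟨a1, a2, a3, a4⟩ := ht
    exact ⟨fun h => a2 (S.ng_eq.1 h), fun h => a1 (S.ng_inj h),
      fun h => a4 (S.ng_eq.1 h), fun h => a3 (S.ng_inj h)⟩
  have nP : ∀ t ∈ P, |n t| = μ t := fun t ht => by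
    rw [hPm] at ht
    exact D.off t ht.1 ht.2.1
  have rP : ∀ t ∈ P, |r t| = μ t := fun t ht => by
    rw [hPm] at ht
    rw [hr]
    exact D.tr_off g0 (by rw [← hw]; exact ht.2.2.1) (by rw [← hw]; exact ht.2.2.2)
  -- the combination
  have key : ∀ e : ℤ, (e = 1 ∨ e = -1) → 4 ≤ ∑ t ∈ P with n t = e * r t, μ t → Quad G ng μ := by
    intro e he h4
    obtain ⟨y, hy⟩ : ∃ y : L → ℤ, y = n + e • r := ⟨_, rfl⟩
    obtain ⟨x, hx⟩ : ∃ x : L → ℤ, x = n - e • r := ⟨_, rfl⟩
    have hyR : y ∈ R := by rw [hy]; exact S.add _ D.mem _ (S.smul hrR e)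
    have hxR : x ∈ R := by rw [hx]; exact S.sub D.mem (S.smul hrR e)
    have hyt : ∀ t, y t = n t + e * r t := fun t => by rw [hy]; rfl
    have hxt : ∀ t, x t = n t - e * r t := fun t => by rw [hx]; rfl
    have wtf : ∀ f : L → ℤ, (∀ t, f (ng t) = - f t) →
        ∑ t, |f t| = 2 * |f z| + (2 * |f w| + ∑ t ∈ P, |f t|) := by
      intro f hf
      rw [S.peel (mem_univ z) (mem_univ (ng z)), hf, abs_neg,
        S.peel (a := w) (by simp [h1, h2]) (by
        simp only [mem_sdiff, mem_univ, true_and, mem_insert, mem_singleton, not_or]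
        exact ⟨fun h => h2 (S.ng_eq.1 h), fun h => h1 (S.ng_inj h)⟩), hf, abs_neg]
      ring
    have hez : |e| = 1 := by rcases he with h | h <;> rw [h] <;> norm_num
    have yz : |y z| = 1 := by rw [hyt, nz, zero_add, abs_mul, hez, rz, mul_one]
    have xz : |x z| = 1 := by rw [hxt, nz, zero_sub, abs_neg, abs_mul, hez, rz, mul_one]
    have yw : |y w| = 1 := by rw [hyt, rw0, mul_zero, add_zero, nw]
    have xw : |x w| = 1 := by rw [hxt, rw0, mul_zero, sub_zero, nw]
    -- the weights
    have hsumP : ∑ t ∈ P with n t = e * r t, μ t + ∑ t ∈ P with ¬ n t = e * r t, μ t = 6 := by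
      rw [Finset.sum_filter_add_sum_filter_not, hrest]
    have hwt : ∑ t, |x t| < ∑ t, |y t| := by
      rw [wtf x (S.odd x hxR), wtf y (S.odd y hyR), yz, xz, yw, xw]
      have e1 : ∑ t ∈ P, |y t| = 2 * ((∑ t ∈ P with n t = e * r t, μ t : ℕ) : ℤ) := by
        rw [← Finset.sum_filter_add_sum_filter_not P (fun t => n t = e * r t)]
        have : ∑ t ∈ P with ¬ n t = e * r t, |y t| = 0 := by
          refine Finset.sum_eq_zero fun t ht => ?_
          rw [Finset.mem_filter] at ht
          have h5 : |n t| = |e * r t| := by rw [nP t ht.1, abs_mul, hez, rP t ht.1, one_mul]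
          rcases abs_eq_abs.1 h5 with h6 | h6
          · exact absurd h6 ht.2
          · rw [hyt, h6]; simp
        rw [this, add_zero]
        push_cast
        rw [Finset.mul_sum]
        refine Finset.sum_congr rfl fun t ht => ?_
        rw [Finset.mem_filter] at ht
        rw [hyt, ← ht.2, ← two_mul, abs_mul, nP t ht.1]
        norm_num
      have e2 : ∑ t ∈ P, |x t| = 2 * ((∑ t ∈ P with ¬ n t = e * r t, μ t : ℕ) : ℤ) := by
        rw [← Finset.sum_filter_add_sum_filter_not P (fun t => n t = e * r t)]
        have : ∑ t ∈ P with n t = e * r t, |x t| = 0 := by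
          refine Finset.sum_eq_zero fun t ht => ?_
          rw [Finset.mem_filter] at ht
          rw [hxt, ← ht.2, sub_self, abs_zero]
        rw [this, zero_add]
        push_cast
        rw [Finset.mul_sum]
        refine Finset.sum_congr rfl fun t ht => ?_
        rw [Finset.mem_filter] at ht
        have h5 : |n t| = |e * r t| := by rw [nP t ht.1, abs_mul, hez, rP t ht.1, one_mul]
        rcases abs_eq_abs.1 h5 with h6 | h6
        · exact absurd h6 ht.2
        · have h7 : e * r t = - n t := by rw [h6, neg_neg]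
          rw [hxt, h7, sub_neg_eq_add, ← two_mul, abs_mul, nP t ht.1]
          norm_num
      rw [e1, e2]
      omega
    refine quad_of_semi (y := y) (S.odd y hyR) (fun g => ?_) ?_
    · -- the translates of `n` and `r`
      have hcl : ∀ g : G, (∀ t, n (g • t) = n t) ∨ (∀ t, n (g • t) = -n t) ∨
          (∀ t, n (g • t) = r t) ∨ (∀ t, n (g • t) = -r t) := by
        intro g
        rcases hO g⁻¹ with h | h | h | h
        · rcases D.tr_eq (g := g⁻¹) (h := 1) (Or.inl (by rw [h, one_smul])) with h5 | h5
          · left; intro t; simpa using h5 t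
          · right; left; intro t; simpa using h5 t
        · rcases D.tr_eq (g := g⁻¹) (h := 1) (Or.inr (by rw [h, one_smul])) with h5 | h5
          · left; intro t; simpa using h5 t
          · right; left; intro t; simpa using h5 t
        · rcases D.tr_eq (g := g⁻¹) (h := g0) (Or.inl h) with h5 | h5
          · right; right; left; intro t; rw [hr]; simpa using h5 t
          · right; right; right; intro t; rw [hr]; simpa using h5 t
        · rcases D.tr_eq (g := g⁻¹) (h := g0) (Or.inr h) with h5 | h5
          · right; right; left; intro t; rw [hr]; simpa using h5 t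
          · right; right; right; intro t; rw [hr]; simpa using h5 t
      have hcr : ∀ g : G, (∀ t, r (g • t) = n t) ∨ (∀ t, r (g • t) = -n t) ∨
          (∀ t, r (g • t) = r t) ∨ (∀ t, r (g • t) = -r t) := by
        intro g
        have e : ∀ t, r (g • t) = n ((g0⁻¹ * g) • t) := fun t => by rw [hr, mul_smul]
        simp only [e]
        exact hcl _
      -- distinguish `n` and `r`
      have hxy : (∀ t, y (g • t) = y t) ∨ (∀ t, y (g • t) = -y t) ∨ (∀ t, y (g • t) = x t) ∨
          (∀ t, y (g • t) = - x t) := by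
        have ee : e * e = 1 := by rcases he with h | h <;> rw [h] <;> norm_num
        -- evaluation excludes that both are multiples of the same function
        have hwit : ∀ a b : ℤ, (∀ t, n (g • t) = a * n t) → (∀ t, r (g • t) = b * n t) → False := by
          intro a b ha hb
          have h5 := hb (g⁻¹ • w)
          have h6 := ha (g⁻¹ • z)
          rw [smul_inv_smul, rw0] at h5
          have h7 := ha (g⁻¹ • w)
          rw [smul_inv_smul] at h7
          have h8 := hb (g⁻¹ • z)
          rw [smul_inv_smul] at h8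
          have hrz : r z ≠ 0 := fun h0 => by rw [h0] at rz; norm_num at rz
          have hnw : n w ≠ 0 := fun h0 => by rw [h0] at nw; norm_num at nw
          have hb0 : b ≠ 0 := fun h0 => hrz (by rw [h8, h0, zero_mul])
          have h9 : n (g⁻¹ • w) = 0 := by
            rcases mul_eq_zero.1 h5.symm with h | h
            · exact absurd h hb0
            · exact h
          exact hnw (by rw [h7, h9, mul_zero])
        have hwit' : ∀ a b : ℤ, (∀ t, n (g • t) = a * r t) → (∀ t, r (g • t) = b * r t) → False := by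
          intro a b ha hb
          have h5 := hb (g⁻¹ • w)
          rw [smul_inv_smul, rw0] at h5
          have h7 := ha (g⁻¹ • w)
          rw [smul_inv_smul] at h7
          have h8 := hb (g⁻¹ • z)
          rw [smul_inv_smul] at h8
          have hrz : r z ≠ 0 := fun h0 => by rw [h0] at rz; norm_num at rz
          have hnw : n w ≠ 0 := fun h0 => by rw [h0] at nw; norm_num at nw
          have hb0 : b ≠ 0 := fun h0 => hrz (by rw [h8, h0, zero_mul])
          have h9 : r (g⁻¹ • w) = 0 := by
            rcases mul_eq_zero.1 h5.symm with h | h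
            · exact absurd h hb0
            · exact h
          exact hnw (by rw [h7, h9, mul_zero])
        rcases hcl g with h | h | h | h <;> rcases hcr g with h' | h' | h' | h'
        · exact (hwit 1 1 (fun t => by rw [h, one_mul]) (fun t => by rw [h', one_mul])).elim
        · exact (hwit 1 (-1) (fun t => by rw [h, one_mul]) (fun t => by rw [h']; ring)).elim
        · left; intro t; rw [hyt, h, h', hyt]
        · right; right; left; intro t; rw [hyt, h, h', hxt]; ring
        · exact (hwit (-1) 1 (fun t => by rw [h]; ring) (fun t => by rw [h', one_mul])).elim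
        · exact (hwit (-1) (-1) (fun t => by rw [h]; ring) (fun t => by rw [h']; ring)).elim
        · right; right; right; intro t; rw [hyt, h, h', hxt]; ring
        · right; left; intro t; rw [hyt, h, h', hyt]; ring
        · rcases he with he | he
          · left; intro t; rw [hyt, h, h', hyt, he]; ring
          · right; left; intro t; rw [hyt, h, h', hyt, he]; ring
        · rcases he with he | he
          · right; right; right; intro t; rw [hyt, h, h', hxt, he]; ring
          · right; right; left; intro t; rw [hyt, h, h', hxt, he]; ring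
        · exact (hwit' 1 1 (fun t => by rw [h, one_mul]) (fun t => by rw [h', one_mul])).elim
        · exact (hwit' 1 (-1) (fun t => by rw [h, one_mul]) (fun t => by rw [h']; ring)).elim
        · rcases he with he | he
          · right; right; left; intro t; rw [hyt, h, h', hxt, he]; ring
          · right; right; right; intro t; rw [hyt, h, h', hxt, he]; ring
        · rcases he with he | he
          · right; left; intro t; rw [hyt, h, h', hyt, he]; ring
          · left; intro t; rw [hyt, h, h', hyt, he]; ring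
        · exact (hwit' (-1) 1 (fun t => by rw [h]; ring) (fun t => by rw [h', one_mul])).elim
        · exact (hwit' (-1) (-1) (fun t => by rw [h]; ring) (fun t => by rw [h']; ring)).elim
      have hwg : ∑ t, |y (g • t)| = ∑ t, |y t| :=
        Equiv.sum_comp (MulAction.toPerm g) (fun t => |y t|)
      rcases hxy with h | h | h | h
      · exact Or.inl h
      · exact Or.inr h
      · exfalso
        simp only [h] at hwg
        exact hwt.ne hwg
      · exfalso
        simp only [h, abs_neg] at hwg
        exact hwt.ne hwg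
    · -- the support
      have e1 : ∑ t, (if y t = 0 then 0 else μ t) = (if y z = 0 then 0 else μ z) +
          (if y (ng z) = 0 then 0 else μ (ng z)) + ((if y w = 0 then 0 else μ w) +
          (if y (ng w) = 0 then 0 else μ (ng w)) + ∑ t ∈ P, (if y t = 0 then 0 else μ t)) := by
        rw [S.peel (mem_univ z) (mem_univ (ng z)), S.peel (a := w) (by simp [h1, h2]) (by
          simp only [mem_sdiff, mem_univ, true_and, mem_insert, mem_singleton, not_or]
          exact ⟨fun h => h2 (S.ng_eq.1 h), fun h => h1 (S.ng_inj h)⟩)]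
      have yz0 : y z ≠ 0 := fun h0 => by rw [h0] at yz; norm_num at yz
      have yw0 : y w ≠ 0 := fun h0 => by rw [h0] at yw; norm_num at yw
      rw [e1, if_neg yz0, if_neg yw0, if_neg (by rw [S.odd y hyR]; exact neg_ne_zero.2 yz0),
        if_neg (by rw [S.odd y hyR]; exact neg_ne_zero.2 yw0), S.μn, S.μn, hμ, hμw]
      have e2 : ∑ t ∈ P with n t = e * r t, μ t ≤ ∑ t ∈ P, (if y t = 0 then 0 else μ t) := by
        rw [Finset.sum_filter]
        refine Finset.sum_le_sum fun t ht => ?_
        split_ifs with a1 a2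
        · exfalso
          rw [hyt, ← a1] at a2
          have h5 := nP t ht
          have h6 := S.μp t
          have h7 : n t = 0 := by linarith
          rw [h7] at h5
          simp at h5
          omega
        · exact le_rfl
        · exact le_rfl
        · exact Nat.zero_le _
      omega
  -- one of the two combinations is large
  have hev : ∀ e : ℤ, Even (∑ t ∈ P with n t = e * r t, μ t) := by
    intro e
    refine S.even_sum fun t ht => ?_
    rw [Finset.mem_filter] at ht ⊢
    refine ⟨hPn t ht.1, ?_⟩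
    rw [S.odd n D.mem, S.odd r hrR, ht.2]
    ring
  have hsum : ∑ t ∈ P with n t = 1 * r t, μ t + ∑ t ∈ P with n t = -1 * r t, μ t = 6 := by
    rw [← hrest, ← Finset.sum_filter_add_sum_filter_not P (fun t => n t = 1 * r t)]
    congr 1
    refine Finset.sum_congr ?_ fun t _ => rfl
    refine Finset.filter_congr fun t ht => ?_
    have h5 := nP t ht
    have h6 := rP t ht
    have h7 := S.μp t
    rcases abs_eq_abs.1 (h5.trans h6.symm) with h8 | h8
    · have : r t ≠ 0 := fun h0 => by
        rw [h0, abs_zero] at h6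
        omega
      constructor
      · intro h9
        exfalso
        apply this
        have : r t = -1 * r t := by rw [← h9, h8]
        linarith
      · intro h9
        exact absurd (by rw [one_mul]; exact h8) h9
    · have : r t ≠ 0 := fun h0 => by
        rw [h0, abs_zero] at h6
        omega
      constructor
      · intro _ h10
        apply this
        have : -r t = 1 * r t := by rw [← h10, h8]
        linarith
      · intro _
        rw [h8]; ring
  by_cases h4 : 4 ≤ ∑ t ∈ P with n t = 1 * r t, μ t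
  · exact key 1 (Or.inl rfl) h4
  · refine key (-1) (Or.inr rfl) ?_
    obtain ⟨a, ha⟩ := hev 1
    obtain ⟨b, hb⟩ := hev (-1)
    omega

end Sy

end Pool.Agent.H86.CM6
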