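import Pool.Agent.H86.CM6.C3

/-!
# Short relations: orbits of length three
-/

set_option autoImplicit false
set_option linter.unusedSectionVars false

open Finset

namespace Pool.Agent.H86.CM6

namespace Sy

variable {G L : Type} [Fintype L] [DecidableEq L] [Group G] [MulAction G L] {ng : L → L}
  {μ : L → ℕ} {R : Set (L → ℤ)} {S : Sy G ng μ R} {n : L → ℤ} {z : L}

/-- closed sets -/
theorem closed_sdiff (S : Sy G ng μ R) {P : Finset L} (hP : ∀ t ∈ P, ng t ∈ P) (a : L) :
    ∀ t ∈ P \ {a, ng a}, ng t ∈ P \ {a, ng a} := by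
  intro t ht
  simp only [mem_sdiff, mem_insert, mem_singleton, not_or] at ht ⊢
  exact ⟨hP t ht.1, fun h => ht.2.2 (S.ng_eq.1 h), fun h => ht.2.1 (S.ng_inj h)⟩

/-- the values of the translates -/
theorem Def.tr_of (D : Def S n z) (hμ : μ z = 1) (h : G) {t : L}
    (h1 : t = h • z ∨ t = ng (h • z)) : n (h⁻¹ • t) = 0 := by
  have nz := D.zero_at hμ
  rcases h1 with h1 | h1
  · rw [h1, inv_smul_smul, nz]
  · rw [h1, S.na, S.odd n D.mem, inv_smul_smul, nz, neg_zero]

theorem Def.sq_one (D : Def S n z) (h : G) {t : L} (h1 : t ≠ h • z)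
    (h2 : t ≠ ng (h • z)) (h3 : μ t = 1) : n (h⁻¹ • t) * n (h⁻¹ • t) = 1 := by
  have := D.tr_off h h1 h2
  rw [h3] at this
  rcases (abs_eq (by norm_num)).1 this with h4 | h4 <;> rw [h4] <;> norm_num

theorem pm {a : ℤ} (h : a * a = 1) : a = 1 ∨ a = -1 := by
  have : (a - 1) * (a + 1) = 0 := by ring_nf; linarith
  rcases mul_eq_zero.1 this with h | h
  · left; linarith
  · right; linarith

/-- orbits of length three -/
theorem Def.orbit_three {g0 g1 : G} (D : Def S n z) (h1 : g0 • z ≠ z) (h2 : g0 • z ≠ ng z)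
    (h3 : g1 • z ≠ z) (h4 : g1 • z ≠ ng z) (h5 : g1 • z ≠ g0 • z) (h6 : g1 • z ≠ ng (g0 • z))
    (hO : ∀ g : G, g • z = z ∨ g • z = ng z ∨ g • z = g0 • z ∨ g • z = ng (g0 • z) ∨
      g • z = g1 • z ∨ g • z = ng (g1 • z)) : False := by
  have hμ := D.mu_one h1 h2
  have nz := D.zero_at hμ
  obtain ⟨hrest, -⟩ := D.μ_le h1 h2
  rw [hμ] at hrest
  obtain ⟨b, hb⟩ : ∃ w, w = g0 • z := ⟨_, rfl⟩
  obtain ⟨c, hc⟩ : ∃ w, w = g1 • z := ⟨_, rfl⟩
  have hμb : μ b = 1 := by rw [hb, S.μa, hμ]
  have hμc : μ c = 1 := by rw [hc, S.μa, hμ]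
  rw [← hb] at h1 h2 h5 h6 hrest
  rw [← hc] at h3 h4 h5 h6
  set P := (((univ \ {z, ng z}) \ {b, ng b}) \ {c, ng c} : Finset L) with hP
  have hPm : ∀ t, t ∈ P ↔ t ≠ z ∧ t ≠ ng z ∧ t ≠ b ∧ t ≠ ng b ∧ t ≠ c ∧ t ≠ ng c := by
    intro t
    simp [hP, and_assoc]
  have hPn : ∀ t ∈ P, ng t ∈ P :=
    S.closed_sdiff (S.closed_sdiff (S.closed_sdiff (fun t _ => mem_univ _) z) b) c
  have hPs : ∑ t ∈ P, μ t = 4 := by
    have h7 := S.peelμ (P := (univ \ {z, ng z}) \ {b, ng b}) (a := c) (by simp [h3, h4, h5, h6])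
      (S.closed_sdiff (S.closed_sdiff (fun t _ => mem_univ _) z) b c (by simp [h3, h4, h5, h6]))
    rw [hrest, hμc, ← hP] at h7
    omega
  have nP : ∀ t ∈ P, |n t| = μ t := fun t ht => by
    rw [hPm] at ht
    exact D.off t ht.1 ht.2.1
  -- the complement of `P` is the orbit
  have hPo : ∀ t, t ∉ P ↔ ∃ h : G, t = h • z ∨ t = ng (h • z) := by
    intro t
    rw [hPm]
    constructor
    · intro h
      by_contra hcon
      push Not at hcon
      apply h
      have e1 := hcon 1
      rw [one_smul] at e1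
      have e2 := hcon g0
      rw [← hb] at e2
      have e3 := hcon g1
      rw [← hc] at e3
      exact ⟨e1.1, e1.2, e2.1, e2.2, e3.1, e3.2⟩
    · rintro ⟨h, hh⟩ ⟨a1, a2, a3, a4, a5, a6⟩
      have := hO h
      rw [← hb, ← hc] at this
      rcases hh with hh | hh
      · rw [hh] at a1 a2 a3 a4 a5 a6
        tauto
      · rcases this with h8 | h8 | h8 | h8 | h8 | h8
        · exact a2 (by rw [hh, h8])
        · exact a1 (by rw [hh, h8, S.nn])
        · exact a4 (by rw [hh, h8])
        · exact a3 (by rw [hh, h8, S.nn])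
        · exact a6 (by rw [hh, h8])
        · exact a5 (by rw [hh, h8, S.nn])
  have hPg : ∀ (g : G) (t : L), t ∈ P → g • t ∈ P := by
    intro g t ht
    by_contra hcon
    rw [hPo] at hcon
    obtain ⟨h, hh⟩ := hcon
    refine absurd ht ((hPo t).2 ⟨g⁻¹ * h, ?_⟩)
    rcases hh with hh | hh
    · left; rw [mul_smul, ← hh, inv_smul_smul]
    · right; rw [mul_smul, ← S.na, ← hh, inv_smul_smul]
  obtain ⟨f, hf⟩ : P.Nonempty := by
    rw [Finset.nonempty_iff_ne_empty]
    intro h
    rw [h] at hPs
    simp at hPs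
  have hnf : n f ≠ 0 := fun h0 => by
    have e1 := nP f hf
    rw [h0, abs_zero] at e1
    have := S.μp f
    omega
  have hpf := S.peelμ hf (hPn f hf)
  rw [hPs] at hpf
  -- the translates agree on `P` up to the sign
  have hag : ∀ g : G, ∃ e : ℤ, (e = 1 ∨ e = -1) ∧ ∀ t ∈ P, e * n (g⁻¹ • t) = n t := by
    by_cases hμf : μ f = 2
    · rw [hμf] at hpf
      have hz0 : ∑ t ∈ P \ {f, ng f}, μ t = 0 := by omega
      have hPf : ∀ t ∈ P, t = f ∨ t = ng f := by
        intro t ht
        by_contra hcon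
        push Not at hcon
        have := (Finset.sum_eq_zero_iff.1 hz0) t (by simp [ht, hcon.1, hcon.2])
        have := S.μp t
        omega
      intro g
      rcases hPf _ (hPg g⁻¹ f hf) with h | h
      · refine ⟨1, Or.inl rfl, fun t ht => ?_⟩
        rcases hPf t ht with h' | h'
        · rw [h', h, one_mul]
        · rw [h', S.na, h, one_mul]
      · refine ⟨-1, Or.inr rfl, fun t ht => ?_⟩
        rcases hPf t ht with h' | h'
        · rw [h', h, S.odd n D.mem]; ring
        · rw [h', S.na, h, S.nn, S.odd n D.mem]; ring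
    · have hμf1 : μ f = 1 := by
        have := S.μp f
        omega
      rw [hμf1] at hpf
      have hP' : ∑ t ∈ P \ {f, ng f}, μ t = 2 := by omega
      obtain ⟨f', hf'⟩ : (P \ {f, ng f}).Nonempty := by
        rw [Finset.nonempty_iff_ne_empty]
        intro h
        rw [h] at hP'
        simp at hP'
      have hpf' := S.peelμ hf' (S.closed_sdiff hPn f f' hf')
      have hμf' : μ f' = 1 := by
        have := S.μp f'
        omega
      have hz0 : ∑ t ∈ (P \ {f, ng f}) \ {f', ng f'}, μ t = 0 := by omega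
      have hPf : ∀ t ∈ P, t = f ∨ t = ng f ∨ t = f' ∨ t = ng f' := by
        intro t ht
        by_contra hcon
        push Not at hcon
        have := (Finset.sum_eq_zero_iff.1 hz0) t (by
          simp [ht, hcon.1, hcon.2.1, hcon.2.2.1, hcon.2.2.2])
        have := S.μp t
        omega
      simp only [mem_sdiff, mem_insert, mem_singleton, not_or] at hf'
      obtain ⟨hf'P, hff, hff'⟩ := hf'
      -- the sign character
      have hχ : ∀ g : G, ∃ χ : ℤ, (χ = 1 ∨ χ = -1) ∧ ∀ x : L → ℤ, (∀ t, x (ng t) = -x t) →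
          x (g⁻¹ • f) * x (g⁻¹ • f') = χ * (x f * x f') := by
        intro g
        have hgf := hPf _ (hPg g⁻¹ f hf)
        have hgf' := hPf _ (hPg g⁻¹ f' hf'P)
        have hcl : ∀ e : L, (g⁻¹ • f = e ∨ g⁻¹ • f = ng e) → ¬ (g⁻¹ • f' = e ∨ g⁻¹ • f' = ng e) := by
          intro e he he'
          have h8 : g⁻¹ • f' = g⁻¹ • f ∨ g⁻¹ • f' = ng (g⁻¹ • f) := by
            rcases he with he | he <;> rcases he' with he' | he'
            · left; rw [he, he']
            · right; rw [he, he']
            · right; rw [he, he', S.nn]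
            · left; rw [he, he']
          rcases h8 with h8 | h8
          · exact hff (smul_left_cancel _ h8)
          · rw [← S.na] at h8
            exact hff' (smul_left_cancel _ h8)
        rcases hgf with h | h | h | h <;> rcases hgf' with h' | h' | h' | h'
        · exact absurd (Or.inl h') (hcl f (Or.inl h))
        · exact absurd (Or.inr h') (hcl f (Or.inl h))
        · exact ⟨1, Or.inl rfl, fun x hx => by rw [h, h']; ring⟩
        · exact ⟨-1, Or.inr rfl, fun x hx => by rw [h, h', hx]; ring⟩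
        · exact absurd (Or.inl h') (hcl f (Or.inr h))
        · exact absurd (Or.inr h') (hcl f (Or.inr h))
        · exact ⟨-1, Or.inr rfl, fun x hx => by rw [h, h', hx]; ring⟩
        · exact ⟨1, Or.inl rfl, fun x hx => by rw [h, h', hx, hx]; ring⟩
        · exact ⟨1, Or.inl rfl, fun x hx => by rw [h, h']; ring⟩
        · exact ⟨-1, Or.inr rfl, fun x hx => by rw [h, h', hx]; ring⟩
        · exact absurd (Or.inl h') (hcl f' (Or.inl h))
        · exact absurd (Or.inr h') (hcl f' (Or.inl h))
        · exact ⟨-1, Or.inr rfl, fun x hx => by rw [h, h', hx]; ring⟩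
        · exact ⟨1, Or.inl rfl, fun x hx => by rw [h, h', hx, hx]; ring⟩
        · exact absurd (Or.inl h') (hcl f' (Or.inr h))
        · exact absurd (Or.inr h') (hcl f' (Or.inr h))
      obtain ⟨p, hp⟩ : ∃ p : G → ℤ, ∀ g, p g = n (g⁻¹ • f) * n (g⁻¹ • f') := ⟨_, fun g => rfl⟩
      have hfo : ∀ h : G, f ≠ h • z ∧ f ≠ ng (h • z) := fun h => by
        constructor
        · intro h8; exact absurd hf ((hPo f).2 ⟨h, Or.inl h8⟩)
        · intro h8; exact absurd hf ((hPo f).2 ⟨h, Or.inr h8⟩)
      have hfo' : ∀ h : G, f' ≠ h • z ∧ f' ≠ ng (h • z) := fun h => by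
        constructor
        · intro h8; exact absurd hf'P ((hPo f').2 ⟨h, Or.inl h8⟩)
        · intro h8; exact absurd hf'P ((hPo f').2 ⟨h, Or.inr h8⟩)
      have hsq : ∀ g : G, n (g⁻¹ • f) * n (g⁻¹ • f) = 1 := fun g =>
        D.sq_one g (hfo g).1 (hfo g).2 hμf1
      have hsq' : ∀ g : G, n (g⁻¹ • f') * n (g⁻¹ • f') = 1 := fun g =>
        D.sq_one g (hfo' g).1 (hfo' g).2 hμf'
      have hpp : ∀ g, p g * p g = 1 := fun g => by
        rw [hp]
        linear_combination (n (g⁻¹ • f') * n (g⁻¹ • f')) * hsq g + hsq' g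
      have hcls : ∀ g h : G, (g • z = h • z ∨ g • z = ng (h • z)) → p g = p h := by
        intro g h hgh
        rw [hp, hp]
        rcases D.tr_eq hgh with h8 | h8
        · rw [h8, h8]
        · rw [h8, h8]; ring
      have hchi : ∀ g : G, ∃ χ : ℤ, (χ = 1 ∨ χ = -1) ∧ ∀ h : G, p (g * h) = χ * p h := by
        intro g
        obtain ⟨χ, h8, h9⟩ := hχ g
        refine ⟨χ, h8, fun h => ?_⟩
        have := h9 (fun t => n (h⁻¹ • t)) (fun t => by rw [S.na, S.odd n D.mem])
        rw [hp, hp, mul_inv_rev, mul_smul, mul_smul]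
        exact this
      -- the sum over the orbit
      obtain ⟨q, hq1, hq2, hq3⟩ : ∃ q : L → ℤ, (∀ h : G, q (h • z) = p h) ∧
          (∀ t, q (ng t) = q t) ∧ ∀ t ∈ P, q t = 0 := by
        refine ⟨fun t => if t = z ∨ t = ng z then p 1 else if t = b ∨ t = ng b then p g0 else
          if t = c ∨ t = ng c then p g1 else 0, fun h => ?_, fun t => ?_, fun t ht => ?_⟩
        · simp only
          split_ifs with a1 a2 a3
          · refine (hcls h 1 ?_).symm
            rw [one_smul]; exact a1
          · refine (hcls h g0 ?_).symm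
            rw [← hb]; exact a2
          · refine (hcls h g1 ?_).symm
            rw [← hc]; exact a3
          · exfalso
            have := hO h
            rw [← hb, ← hc] at this
            tauto
        · have e : ∀ a : L, (ng t = a ∨ ng t = ng a) ↔ (t = a ∨ t = ng a) := by
            intro a
            constructor
            · rintro (h | h)
              · right; exact S.ng_eq.1 h
              · left; exact S.ng_inj h
            · rintro (h | h)
              · right; rw [h]
              · left; rw [h, S.nn]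
          simp only [e]
        · rw [hPm] at ht
          obtain ⟨a1, a2, a3, a4, a5, a6⟩ := ht
          simp [a1, a2, a3, a4, a5, a6]
      have hqs : ∑ t, q t = 2 * (p 1 + p g0 + p g1) := by
        rw [S.peel (mem_univ z) (mem_univ (ng z)), S.peel (a := b) (by simp [h1, h2])
          (S.closed_sdiff (fun t _ => mem_univ _) z b (by simp [h1, h2])),
          S.peel (a := c) (by simp [h3, h4, h5, h6])
          (S.closed_sdiff (S.closed_sdiff (fun t _ => mem_univ _) z) b c (by
            simp [h3, h4, h5, h6])), hq2, hq2, hq2, Finset.sum_eq_zero fun t ht => hq3 t ht]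
        have e1 : q z = p 1 := by rw [← hq1 1, one_smul]
        have e2 : q b = p g0 := by rw [hb, hq1]
        have e3 : q c = p g1 := by rw [hc, hq1]
        rw [e1, e2, e3]
        ring
      have hne : ∑ t, q t ≠ 0 := by
        rw [hqs]
        rcases pm (hpp 1) with a1 | a1 <;> rcases pm (hpp g0) with a2 | a2 <;>
          rcases pm (hpp g1) with a3 | a3 <;> rw [a1, a2, a3] <;> norm_num
      have hone : ∀ g : G, ∀ h, p (g * h) = p h := by
        intro g
        obtain ⟨χ, h8, h9⟩ := hchi g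
        have h10 : ∀ t, q (g • t) = χ * q t := by
          intro t
          by_cases ht : t ∈ P
          · rw [hq3 t ht, hq3 _ (hPg g t ht), mul_zero]
          · obtain ⟨h, hh⟩ := (hPo t).1 ht
            rcases hh with hh | hh
            · rw [hh, ← mul_smul, hq1, hq1, h9]
            · rw [hh, S.na, hq2, hq2, ← mul_smul, hq1, hq1, h9]
        have h11 : ∑ t, q (g • t) = ∑ t, q t := Equiv.sum_comp (MulAction.toPerm g) q
        simp only [h10] at h11
        rw [← Finset.mul_sum] at h11
        have h12 : χ = 1 := by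
          rcases h8 with h8 | h8
          · exact h8
          · exfalso
            apply hne
            rw [h8] at h11
            linarith
        intro h
        rw [h9, h12, one_mul]
      intro g
      have h8 := hone g 1
      rw [mul_one, hp, hp] at h8
      simp only [inv_one, one_smul] at h8
      have s1 := hsq g
      have s2 := hsq' g
      have s3 := hsq 1
      have s4 := hsq' 1
      simp only [inv_one, one_smul] at s3 s4
      refine ⟨n f * n (g⁻¹ • f), ?_, fun t ht => ?_⟩
      · apply pm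
        linear_combination (n (g⁻¹ • f) * n (g⁻¹ • f)) * s3 + s1
      · have e1 : n f * n (g⁻¹ • f) * n (g⁻¹ • f) = n f := by
          linear_combination (n f) * s1
        have e2 : n f * n (g⁻¹ • f) * n (g⁻¹ • f') = n f' := by
          linear_combination (n f) * h8 + (n f') * s3
        rcases hPf t ht with h' | h' | h' | h'
        · rw [h', e1]
        · rw [h', S.na, S.odd n D.mem, S.odd n D.mem]; linear_combination -e1
        · rw [h', e2]
        · rw [h', S.na, S.odd n D.mem, S.odd n D.mem]; linear_combination -e2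
  -- the combination
  obtain ⟨e, he, hec⟩ := hag g0
  obtain ⟨e', he', hec'⟩ := hag g1
  obtain ⟨rb, hrb⟩ : ∃ r : L → ℤ, ∀ t, r t = e * n (g0⁻¹ • t) := ⟨_, fun t => rfl⟩
  obtain ⟨rc, hrc⟩ : ∃ r : L → ℤ, ∀ t, r t = e' * n (g1⁻¹ • t) := ⟨_, fun t => rfl⟩
  have hrbR : rb ∈ R := by
    have : rb = e • fun t => n (g0⁻¹ • t) := funext hrb
    rw [this]
    exact S.smul (D.mem_tr g0) e
  have hrcR : rc ∈ R := by
    have : rc = e' • fun t => n (g1⁻¹ • t) := funext hrc
    rw [this]
    exact S.smul (D.mem_tr g1) e'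
  have abe : |e| = 1 := by rcases he with h | h <;> rw [h] <;> norm_num
  have abe' : |e'| = 1 := by rcases he' with h | h <;> rw [h] <;> norm_num
  have rbb : rb b = 0 := by rw [hrb, D.tr_of hμ g0 (Or.inl hb), mul_zero]
  have rcc : rc c = 0 := by rw [hrc, D.tr_of hμ g1 (Or.inl hc), mul_zero]
  have nb : |n b| = 1 := by rw [D.off b h1 h2, hμb]; rfl
  have nc : |n c| = 1 := by rw [D.off c h3 h4, hμc]; rfl
  have rbz : |rb z| = 1 := by
    rw [hrb, abs_mul, abe, one_mul, D.tr_off g0 (by rw [← hb]; exact h1.symm)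
      (by rw [← hb]; exact fun h => h2 (S.ng_eq.1 h.symm)), hμ]
    rfl
  have rcz : |rc z| = 1 := by
    rw [hrc, abs_mul, abe', one_mul, D.tr_off g1 (by rw [← hc]; exact h3.symm)
      (by rw [← hc]; exact fun h => h4 (S.ng_eq.1 h.symm)), hμ]
    rfl
  have rbc : |rb c| = 1 := by
    rw [hrb, abs_mul, abe, one_mul, D.tr_off g0 (by rw [← hb]; exact h5)
      (by rw [← hb]; exact h6), hμc]
    rfl
  have rcb : |rc b| = 1 := by
    rw [hrc, abs_mul, abe', one_mul, D.tr_off g1 (by rw [← hc]; exact h5.symm)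
      (by rw [← hc]; exact fun h => h6 (S.ng_eq.1 h.symm)), hμb]
    rfl
  have rbP : ∀ t ∈ P, rb t = n t := fun t ht => by rw [hrb, hec t ht]
  have rcP : ∀ t ∈ P, rc t = n t := fun t ht => by rw [hrc, hec' t ht]
  have hcov : ∀ t, t ∈ P ∨ t = z ∨ t = ng z ∨ t = b ∨ t = ng b ∨ t = c ∨ t = ng c := by
    intro t
    rw [hPm]
    tauto
  have key : ∀ x : L → ℤ, x ∈ R → ∀ a a' a'' : L, (∀ t, t ∈ P ∨ t = a ∨ t = ng a ∨ t = a' ∨
      t = ng a' ∨ t = a'' ∨ t = ng a'') → (∀ t ∈ P, x t = 0) → |x a| = 1 → |x a'| = 1 →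
      x a'' ≠ 0 := by
    intro x hx a a' a'' hc' hxP hxa hxa' hx0
    have := S.two_supp hx (hxa.trans hxa'.symm) (fun t b1 b2 b3 b4 => by
      rcases hc' t with h | h | h | h | h | h | h
      · exact hxP t h
      · exact absurd h b1
      · exact absurd h b2
      · exact absurd h b3
      · exact absurd h b4
      · rw [h, hx0]
      · rw [h, S.odd x hx, hx0, neg_zero])
    rw [this] at hxa
    simp at hxa
  have k1 : rb c = - n c := by
    have h8 := key (n - rb) (S.sub D.mem hrbR) z b c hcov (fun t ht => by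
      rw [Pi.sub_apply, rbP t ht, sub_self]) (by rw [Pi.sub_apply, nz, zero_sub, abs_neg, rbz])
      (by rw [Pi.sub_apply, rbb, sub_zero, nb])
    rcases abs_eq_abs.1 (rbc.trans nc.symm) with h9 | h9
    · exact absurd (by rw [Pi.sub_apply, h9, sub_self]) h8
    · exact h9
  have k2 : rc b = - n b := by
    have h8 := key (n - rc) (S.sub D.mem hrcR) z c b (fun t => by
      have := hcov t
      tauto) (fun t ht => by
      rw [Pi.sub_apply, rcP t ht, sub_self]) (by rw [Pi.sub_apply, nz, zero_sub, abs_neg, rcz])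
      (by rw [Pi.sub_apply, rcc, sub_zero, nc])
    rcases abs_eq_abs.1 (rcb.trans nb.symm) with h9 | h9
    · exact absurd (by rw [Pi.sub_apply, h9, sub_self]) h8
    · exact h9
  have k3 : rb z = - rc z := by
    have h8 := key (rb - rc) (S.sub hrbR hrcR) b c z (fun t => by
      have := hcov t
      tauto) (fun t ht => by
      rw [Pi.sub_apply, rcP t ht, rbP t ht, sub_self]) (by
        rw [Pi.sub_apply, rbb, zero_sub, abs_neg, rcb])
      (by rw [Pi.sub_apply, rcc, sub_zero, rbc])
    rcases abs_eq_abs.1 (rbz.trans rcz.symm) with h9 | h9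
    · exact absurd (by rw [Pi.sub_apply, h9, sub_self]) h8
    · exact h9
  obtain ⟨w, hw⟩ : ∃ w : L → ℤ, ∀ t, w t = if t ∈ P then n t else 0 := ⟨_, fun t => rfl⟩
  have hw3 : (3 : ℤ) • w = n + rb + rc := by
    funext t
    simp only [Pi.smul_apply, Pi.add_apply, smul_eq_mul]
    rw [hw]
    by_cases ht : t ∈ P
    · rw [if_pos ht, rbP t ht, rcP t ht]; ring
    · rw [if_neg ht, mul_zero]
      rcases hcov t with h | h | h | h | h | h | h
      · exact absurd h ht
      · rw [h, nz, k3]; ring
      · rw [h, S.odd n D.mem, S.odd rb hrbR, S.odd rc hrcR, nz, k3]; ring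
      · rw [h, rbb, k2]; ring
      · rw [h, S.odd n D.mem, S.odd rb hrbR, S.odd rc hrcR, rbb, k2]; ring
      · rw [h, rcc, k1]; ring
      · rw [h, S.odd n D.mem, S.odd rb hrbR, S.odd rc hrcR, rcc, k1]; ring
  have hwR : w ∈ R := S.sat 3 (by norm_num) w (by
    rw [hw3]
    exact S.add _ (S.add _ D.mem _ hrbR) _ hrcR)
  have hw0 := S.min w hwR (by
    have e1 : ∑ t, |w t| = ∑ t ∈ P, (μ t : ℤ) := by
      have : ∀ t, |w t| = if t ∈ P then (μ t : ℤ) else 0 := fun t => by
        rw [hw]
        split_ifs with ht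
        · exact nP t ht
        · exact abs_zero
      simp only [this, Finset.sum_ite_mem, Finset.univ_inter]
    rw [e1]
    have : ((∑ t ∈ P, μ t : ℕ) : ℤ) = 4 := by rw [hPs]; rfl
    push_cast at this
    rw [this])
  have h8 := hw f
  rw [hw0, if_pos hf, Pi.zero_apply] at h8
  exact hnf h8.symm

end Sy

end Pool.Agent.H86.CM6
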