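import Pool.Agent.H86.CM6.C4

/-!
# Short relations: orbits of length four
-/

set_option autoImplicit false
set_option linter.unusedSectionVars false

open Finset

namespace Pool.Agent.H86.CM6

namespace Sy

variable {G L : Type} [Fintype L] [DecidableEq L] [Group G] [MulAction G L] {ng : L → L}
  {μ : L → ℕ} {R : Set (L → ℤ)} {S : Sy G ng μ R} {n : L → ℤ} {z : L}

/-- orbits of length four -/
theorem Def.orbit_four {g0 g1 g2 : G} (D : Def S n z) (h1 : g0 • z ≠ z) (h2 : g0 • z ≠ ng z)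
    (h3 : g1 • z ≠ z) (h4 : g1 • z ≠ ng z) (h5 : g1 • z ≠ g0 • z) (h6 : g1 • z ≠ ng (g0 • z))
    (h7 : g2 • z ≠ z) (h8 : g2 • z ≠ ng z) (h9 : g2 • z ≠ g0 • z) (h10 : g2 • z ≠ ng (g0 • z))
    (h11 : g2 • z ≠ g1 • z) (h12 : g2 • z ≠ ng (g1 • z))
    (hO : ∀ g : G, g • z = z ∨ g • z = ng z ∨ g • z = g0 • z ∨ g • z = ng (g0 • z) ∨
      g • z = g1 • z ∨ g • z = ng (g1 • z) ∨ g • z = g2 • z ∨ g • z = ng (g2 • z)) :
    Quad G ng μ := by
  have hμ := D.mu_one h1 h2
  have nz := D.zero_at hμ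
  obtain ⟨hrest, -⟩ := D.μ_le h1 h2
  rw [hμ] at hrest
  obtain ⟨b, hb⟩ : ∃ w, w = g0 • z := ⟨_, rfl⟩
  obtain ⟨c, hc⟩ : ∃ w, w = g1 • z := ⟨_, rfl⟩
  obtain ⟨d, hd⟩ : ∃ w, w = g2 • z := ⟨_, rfl⟩
  have hμb : μ b = 1 := by rw [hb, S.μa, hμ]
  have hμc : μ c = 1 := by rw [hc, S.μa, hμ]
  have hμd : μ d = 1 := by rw [hd, S.μa, hμ]
  rw [← hb] at h1 h2 h5 h6 h9 h10 hrest
  rw [← hc] at h3 h4 h5 h6 h11 h12
  rw [← hd] at h7 h8 h9 h10 h11 h12
  have cl1 := S.closed_sdiff (P := univ) (fun t _ => mem_univ _) z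
  have cl2 := S.closed_sdiff cl1 b
  have cl3 := S.closed_sdiff cl2 c
  have cl4 := S.closed_sdiff cl3 d
  have mb : b ∈ univ \ {z, ng z} := by simp [h1, h2]
  have mc : c ∈ (univ \ {z, ng z}) \ {b, ng b} := by simp [h3, h4, h5, h6]
  have md : d ∈ ((univ \ {z, ng z}) \ {b, ng b}) \ {c, ng c} := by
    simp [h7, h8, h9, h10, h11, h12]
  obtain ⟨P, hP⟩ : ∃ P : Finset L, P = (((univ \ {z, ng z}) \ {b, ng b}) \ {c, ng c}) \ {d, ng d} :=
    ⟨_, rfl⟩
  rw [← hP] at cl4
  have hPm : ∀ t, t ∈ P ↔ t ≠ z ∧ t ≠ ng z ∧ t ≠ b ∧ t ≠ ng b ∧ t ≠ c ∧ t ≠ ng c ∧ t ≠ d ∧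
      t ≠ ng d := by
    intro t
    simp [hP, and_assoc]
  have hPs : ∑ t ∈ P, μ t = 2 := by
    have e1 := S.peelμ mc (cl2 c mc)
    have e2 := S.peelμ md (cl3 d md)
    rw [hrest, hμc] at e1
    rw [hμd, ← hP] at e2
    omega
  have hPo : ∀ t, t ∉ P ↔ ∃ h : G, t = h • z ∨ t = ng (h • z) := by
    intro t
    rw [hPm]
    constructor
    · intro h
      by_contra hcon
      push Not at hcon
      apply h
      have e1 := hcon 1
      rw [one_smul] at e1
      have e2 := hcon g0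
      rw [← hb] at e2
      have e3 := hcon g1
      rw [← hc] at e3
      have e4 := hcon g2
      rw [← hd] at e4
      exact ⟨e1.1, e1.2, e2.1, e2.2, e3.1, e3.2, e4.1, e4.2⟩
    · rintro ⟨h, hh⟩ ⟨a1, a2, a3, a4, a5, a6, a7, a8⟩
      have := hO h
      rw [← hb, ← hc, ← hd] at this
      rcases hh with hh | hh
      · rw [hh] at a1 a2 a3 a4 a5 a6 a7 a8
        tauto
      · rcases this with h8 | h8 | h8 | h8 | h8 | h8 | h8 | h8
        · exact a2 (by rw [hh, h8])
        · exact a1 (by rw [hh, h8, S.nn])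
        · exact a4 (by rw [hh, h8])
        · exact a3 (by rw [hh, h8, S.nn])
        · exact a6 (by rw [hh, h8])
        · exact a5 (by rw [hh, h8, S.nn])
        · exact a8 (by rw [hh, h8])
        · exact a7 (by rw [hh, h8, S.nn])
  have hPg : ∀ (g : G) (t : L), t ∈ P → g • t ∈ P := by
    intro g t ht
    by_contra hcon
    rw [hPo] at hcon
    obtain ⟨h, hh⟩ := hcon
    refine absurd ht ((hPo t).2 ⟨g⁻¹ * h, ?_⟩)
    rcases hh with hh | hh
    · left; rw [mul_smul, ← hh, inv_smul_smul]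
    · right; rw [mul_smul, ← S.na, ← hh, inv_smul_smul]
  obtain ⟨f, hf⟩ : P.Nonempty := by
    rw [Finset.nonempty_iff_ne_empty]
    intro h
    rw [h] at hPs
    simp at hPs
  have hpf := S.peelμ hf (cl4 f hf)
  rw [hPs] at hpf
  have hμf : μ f = 1 := by
    have := S.μp f
    omega
  have hPf : ∀ t ∈ P, t = f ∨ t = ng f := by
    have hz0 : ∑ t ∈ P \ {f, ng f}, μ t = 0 := by omega
    intro t ht
    by_contra hcon
    push Not at hcon
    have := (Finset.sum_eq_zero_iff.1 hz0) t (by simp [ht, hcon.1, hcon.2])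
    have := S.μp t
    omega
  have hfo : ∀ h : G, f ≠ h • z ∧ f ≠ ng (h • z) := fun h => by
    constructor
    · intro h8; exact absurd hf ((hPo f).2 ⟨h, Or.inl h8⟩)
    · intro h8; exact absurd hf ((hPo f).2 ⟨h, Or.inr h8⟩)
  have hsq : ∀ g : G, n (g⁻¹ • f) * n (g⁻¹ • f) = 1 := fun g =>
    D.sq_one g (hfo g).1 (hfo g).2 hμf
  -- the normalised relations
  obtain ⟨ρ, hρ⟩ : ∃ ρ : G → L → ℤ, ∀ h t, ρ h t = n (h⁻¹ • f) * n (h⁻¹ • t) :=
    ⟨_, fun h t => rfl⟩
  have hρc : ∀ g h : G, (g • z = h • z ∨ g • z = ng (h • z)) → ρ g = ρ h := by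
    intro g h hgh
    funext t
    rw [hρ, hρ]
    rcases D.tr_eq hgh with h8 | h8
    · rw [h8, h8]
    · rw [h8, h8]; ring
  have hρn : ∀ h t, ρ h (ng t) = - ρ h t := fun h t => by
    rw [hρ, hρ, S.na, S.odd n D.mem]; ring
  have hρf : ∀ h, ρ h f = 1 := fun h => by rw [hρ, hsq]
  have hρz : ∀ h t, (t = h • z ∨ t = ng (h • z)) → ρ h t = 0 := fun h t ht => by
    rw [hρ, D.tr_of hμ h ht, mul_zero]
  have hρs : ∀ h t, t ∉ P → ¬ (t = h • z ∨ t = ng (h • z)) → ρ h t = 1 ∨ ρ h t = -1 := by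
    intro h t ht ht'
    push Not at ht'
    have hμt : μ t = 1 := by
      obtain ⟨k, hk⟩ := (hPo t).1 ht
      rcases hk with hk | hk
      · rw [hk, S.μa, hμ]
      · rw [hk, S.μn, S.μa, hμ]
    have e1 := D.sq_one h ht'.1 ht'.2 hμt
    have e2 := hsq h
    apply pm
    rw [hρ]
    linear_combination (n (h⁻¹ • f) * n (h⁻¹ • f)) * e1 + e2
  obtain ⟨q, hq1, hq2, hq3⟩ : ∃ q : L → L → ℤ, (∀ h : G, q (h • z) = ρ h) ∧
      (∀ t, q (ng t) = q t) ∧ ∀ t ∈ P, q t = 0 := by
    refine ⟨fun t => if t = z ∨ t = ng z then ρ 1 else if t = b ∨ t = ng b then ρ g0 else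
      if t = c ∨ t = ng c then ρ g1 else if t = d ∨ t = ng d then ρ g2 else 0,
      fun h => ?_, fun t => ?_, fun t ht => ?_⟩
    · simp only
      split_ifs with a1 a2 a3 a4
      · refine (hρc h 1 ?_).symm
        rw [one_smul]; exact a1
      · refine (hρc h g0 ?_).symm
        rw [← hb]; exact a2
      · refine (hρc h g1 ?_).symm
        rw [← hc]; exact a3
      · refine (hρc h g2 ?_).symm
        rw [← hd]; exact a4
      · exfalso
        have := hO h
        rw [← hb, ← hc, ← hd] at this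
        tauto
    · have e : ∀ a : L, (ng t = a ∨ ng t = ng a) ↔ (t = a ∨ t = ng a) := by
        intro a
        constructor
        · rintro (h | h)
          · right; exact S.ng_eq.1 h
          · left; exact S.ng_inj h
        · rintro (h | h)
          · right; rw [h]
          · left; rw [h, S.nn]
      simp only [e]
    · rw [hPm] at ht
      obtain ⟨a1, a2, a3, a4, a5, a6, a7, a8⟩ := ht
      simp [a1, a2, a3, a4, a5, a6, a7, a8]
  have hqn : ∀ s t, q s (ng t) = - q s t := by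
    intro s t
    by_cases hs : s ∈ P
    · rw [hq3 s hs]; simp
    · obtain ⟨h, hh⟩ := (hPo s).1 hs
      rcases hh with hh | hh
      · rw [hh, hq1, hρn]
      · rw [hh, hq2, hq1, hρn]
  have hqsum : ∀ t, ∑ s, q s t = 2 * (ρ 1 t + ρ g0 t + ρ g1 t + ρ g2 t) := by
    intro t
    rw [S.peel (mem_univ z) (mem_univ (ng z)) (fun s => q s t), S.peel mb (cl1 b mb),
      S.peel mc (cl2 c mc), S.peel md (cl3 d md), ← hP, hq2, hq2, hq2, hq2,
      Finset.sum_eq_zero fun s hs => by rw [hq3 s hs]; rfl]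
    have e1 : q z = ρ 1 := by rw [← hq1 1, one_smul]
    have e2 : q b = ρ g0 := by rw [hb, hq1]
    have e3 : q c = ρ g1 := by rw [hc, hq1]
    have e4 : q d = ρ g2 := by rw [hd, hq1]
    rw [e1, e2, e3, e4]
    ring
  obtain ⟨u, hu⟩ : ∃ u : L → ℤ, ∀ t, u t = ∑ s, q s t := ⟨_, fun t => rfl⟩
  have hun : ∀ t, u (ng t) = - u t := by
    intro t
    rw [hu, hu, ← Finset.sum_neg_distrib]
    exact Finset.sum_congr rfl fun s _ => hqn s t
  -- semi-invariance
  have hug : ∀ g : G, (∀ t, u (g • t) = u t) ∨ (∀ t, u (g • t) = - u t) := by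
    intro g
    obtain ⟨ε, hε, hfε⟩ : ∃ ε : ℤ, (ε = 1 ∨ ε = -1) ∧ ∀ x : L → ℤ, (∀ t, x (ng t) = -x t) →
        x (g • f) = ε * x f := by
      rcases hPf _ (hPg g f hf) with h | h
      · exact ⟨1, Or.inl rfl, fun x hx => by rw [h, one_mul]⟩
      · exact ⟨-1, Or.inr rfl, fun x hx => by rw [h, hx]; ring⟩
    have hee : ε * ε = 1 := by rcases hε with h | h <;> rw [h] <;> norm_num
    have hqg : ∀ s t, q (g • s) (g • t) = ε * q s t := by
      intro s t
      by_cases hs : s ∈ P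
      · rw [hq3 s hs, hq3 _ (hPg g s hs)]; simp
      · obtain ⟨h, hh⟩ := (hPo s).1 hs
        have e1 : q s = ρ h := by
          rcases hh with hh | hh
          · rw [hh, hq1]
          · rw [hh, hq2, hq1]
        have e2 : q (g • s) = ρ (g * h) := by
          rcases hh with hh | hh
          · rw [hh, ← mul_smul, hq1]
          · rw [hh, S.na, hq2, ← mul_smul, hq1]
        rw [e1, e2, hρ, hρ, mul_inv_rev, mul_smul, mul_smul, inv_smul_smul]
        have e3 := hfε (fun t => n (h⁻¹ • (g⁻¹ • t))) (fun t => by rw [S.na, S.na, S.odd n D.mem])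
        simp only [inv_smul_smul] at e3
        have e4 : n (h⁻¹ • g⁻¹ • f) = ε * n (h⁻¹ • f) := by
          linear_combination -ε * e3 - (n (h⁻¹ • g⁻¹ • f)) * hee
        rw [e4]
        ring
    have hfin : ∀ t, u (g • t) = ε * u t := by
      intro t
      rw [hu, hu, Finset.mul_sum]
      rw [← Equiv.sum_comp (MulAction.toPerm g) (fun s => q s (g • t))]
      exact Finset.sum_congr rfl fun s _ => hqg s t
    rcases hε with h | h
    · left; intro t; rw [hfin, h, one_mul]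
    · right; intro t; rw [hfin, h]; ring
  have huf : u f ≠ 0 := by
    rw [hu, hqsum, hρf, hρf, hρf, hρf]
    norm_num
  have huz : u z ≠ 0 := by
    have hzP : z ∉ P := (hPo z).2 ⟨1, Or.inl (one_smul G z).symm⟩
    rw [hu, hqsum, hρz 1 z (Or.inl (one_smul G z).symm)]
    have e1 := hρs g0 z hzP (by
      rw [← hb]
      rintro (h | h)
      · exact h1 h.symm
      · exact h2 (S.ng_eq.1 h.symm))
    have e2 := hρs g1 z hzP (by
      rw [← hc]
      rintro (h | h)
      · exact h3 h.symm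
      · exact h4 (S.ng_eq.1 h.symm))
    have e3 := hρs g2 z hzP (by
      rw [← hd]
      rintro (h | h)
      · exact h7 h.symm
      · exact h8 (S.ng_eq.1 h.symm))
    rcases e1 with e1 | e1 <;> rcases e2 with e2 | e2 <;> rcases e3 with e3 | e3 <;>
      rw [e1, e2, e3] <;> norm_num
  have hu0 : ∀ t, u t ≠ 0 := by
    intro t
    by_cases ht : t ∈ P
    · rcases hPf t ht with h | h
      · rw [h]; exact huf
      · rw [h, hun]; exact neg_ne_zero.2 huf
    · obtain ⟨h, hh⟩ := (hPo t).1 ht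
      have e1 : u (h • z) ≠ 0 := by
        rcases hug h with h8 | h8
        · rw [h8]; exact huz
        · rw [h8]; exact neg_ne_zero.2 huz
      rcases hh with hh | hh
      · rw [hh]; exact e1
      · rw [hh, hun]; exact neg_ne_zero.2 e1
  refine quad_of_semi hun hug ?_
  simp only [hu0, if_false]
  rw [D.sum]
  norm_num

end Sy

end Pool.Agent.H86.CM6
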