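import Pool.Agent.H86.CM6.C5

/-!
# Short relations: orbits of length five, and the conclusion
-/

set_option autoImplicit false
set_option linter.unusedSectionVars false

open Finset

namespace Pool.Agent.H86.CM6

theorem coef5 {e1 e2 e3 e4 : ℤ} (s1 : e1 = 1 ∨ e1 = -1) (s2 : e2 = 1 ∨ e2 = -1)
    (s3 : e3 = 1 ∨ e3 = -1) (s4 : e4 = 1 ∨ e4 = -1) : ∃ (N : ℕ) (q0 q1 q2 q3 q4 : ℤ), 0 < N ∧
      q1 * e4 + q2 * e3 + q3 * e2 + q4 * e1 = -N ∧
      q0 * e1 + q2 * e4 + q3 * e3 + q4 * e2 = N ∧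
      q0 * e2 + q1 * e1 + q3 * e4 + q4 * e3 = 0 ∧
      q0 * e3 + q1 * e2 + q2 * e1 + q4 * e4 = 0 ∧
      q0 * e4 + q1 * e3 + q2 * e2 + q3 * e1 = 0 := by
  rcases s1 with rfl | rfl <;> rcases s2 with rfl | rfl <;> rcases s3 with rfl | rfl <;>
    rcases s4 with rfl | rfl
  · exact ⟨1, 1, -1, 0, 0, 0, by norm_num⟩
  · exact ⟨11, 1, 5, -8, 4, -2, by norm_num⟩
  · exact ⟨11, 3, 1, 4, -6, -2, by norm_num⟩
  · exact ⟨1, -1, -1, 0, -2, 0, by norm_num⟩
  · exact ⟨11, -1, -3, 2, 6, -4, by norm_num⟩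
  · exact ⟨1, 1, 1, 0, 0, 0, by norm_num⟩
  · exact ⟨5, 3, 1, 4, 2, 0, by norm_num⟩
  · exact ⟨11, 5, 1, -2, 4, -8, by norm_num⟩
  · exact ⟨11, -5, -1, 2, -4, 8, by norm_num⟩
  · exact ⟨5, -3, -1, -4, -2, 0, by norm_num⟩
  · exact ⟨1, -1, -1, 0, 0, 0, by norm_num⟩
  · exact ⟨11, 1, 3, -2, -6, 4, by norm_num⟩
  · exact ⟨1, 1, 1, 0, 2, 0, by norm_num⟩
  · exact ⟨11, -3, -1, -4, 6, 2, by norm_num⟩
  · exact ⟨11, -1, -5, 8, -4, 2, by norm_num⟩
  · exact ⟨1, -1, 1, 0, 0, 0, by norm_num⟩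

namespace Sy

variable {G L : Type} [Fintype L] [DecidableEq L] [Group G] [MulAction G L] {ng : L → L}
  {μ : L → ℕ} {R : Set (L → ℤ)} {S : Sy G ng μ R} {n : L → ℤ} {z : L}

/-- the group of the permutations given by `G` and the sign change -/
def KK (S : Sy G ng μ R) : Subgroup (Equiv.Perm L) where
  carrier := {σ | ∃ g : G, (∀ t, σ t = g • t) ∨ (∀ t, σ t = ng (g • t))}
  mul_mem' := by
    rintro σ τ ⟨g, hg⟩ ⟨h, hh⟩
    refine ⟨g * h, ?_⟩
    rcases hg with hg | hg <;> rcases hh with hh | hh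
    · left; intro t; rw [Equiv.Perm.mul_apply, hg, hh, mul_smul]
    · right; intro t; rw [Equiv.Perm.mul_apply, hg, hh, mul_smul, S.na]
    · right; intro t; rw [Equiv.Perm.mul_apply, hg, hh, mul_smul]
    · left; intro t; rw [Equiv.Perm.mul_apply, hg, hh, mul_smul, S.na, S.nn]
  one_mem' := ⟨1, Or.inl fun t => by rw [one_smul]; rfl⟩
  inv_mem' := by
    rintro σ ⟨g, hg⟩
    refine ⟨g⁻¹, ?_⟩
    rcases hg with hg | hg
    · left
      intro t
      rw [Equiv.Perm.inv_eq_iff_eq, hg, smul_inv_smul]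
    · right
      intro t
      rw [Equiv.Perm.inv_eq_iff_eq, hg, S.na, smul_inv_smul, S.nn]

theorem mem_KK (S : Sy G ng μ R) {σ : Equiv.Perm L} :
    σ ∈ KK S ↔ ∃ g : G, (∀ t, σ t = g • t) ∨ (∀ t, σ t = ng (g • t)) := Iff.rfl

/-- five classes permuted transitively: impossible -/
theorem Def.orbit_five (D : Def S n z) (hμ : μ z = 1)
    (hall : ∀ t : L, ∃ g : G, t = g • z ∨ t = ng (g • z)) : False := by
  have nz := D.zero_at hμ
  have hμ1 : ∀ t, μ t = 1 := by
    intro t
    obtain ⟨g, hg | hg⟩ := hall t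
    · rw [hg, S.μa, hμ]
    · rw [hg, S.μn, S.μa, hμ]
  have hcard : Fintype.card L = 10 := by
    have := D.sum
    simp only [hμ1, Finset.sum_const, smul_eq_mul, mul_one] at this
    exact this
  have htr : MulAction.IsPretransitive (KK S) L := by
    have h1 : ∀ t : L, ∃ σ : KK S, σ • z = t := by
      intro t
      obtain ⟨g, hg | hg⟩ := hall t
      · exact ⟨⟨MulAction.toPerm g, g, Or.inl fun t => rfl⟩, hg.symm⟩
      · refine ⟨⟨⟨fun t => ng (g • t), fun t => g⁻¹ • ng t, fun t => ?_, fun t => ?_⟩, g,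
          Or.inr fun t => rfl⟩, hg.symm⟩
        · simp only [S.nn, inv_smul_smul]
        · simp only [smul_inv_smul, S.nn]
    refine ⟨fun x y => ?_⟩
    obtain ⟨σ, hσ⟩ := h1 x
    obtain ⟨τ, hτ⟩ := h1 y
    exact ⟨τ * σ⁻¹, by rw [mul_smul, ← hσ, inv_smul_smul, hτ]⟩
  have h5 : 5 ∣ Nat.card (KK S) := by
    have h1 := MulAction.index_stabilizer_of_transitive (KK S) z
    have h2 := (MulAction.stabilizer (KK S) z).index_dvd_card
    rw [h1, Nat.card_eq_fintype_card, hcard] at h2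
    exact (by norm_num : 5 ∣ 10).trans h2
  have : Fact (Nat.Prime 5) := ⟨by norm_num⟩
  obtain ⟨σ0, hσ0⟩ := exists_prime_orderOf_dvd_card' 5 h5
  have hne0 : ∃ t : L, σ0 • t ≠ t := by
    by_contra hcon
    push Not at hcon
    have : σ0 = 1 := by
      apply Subtype.ext
      exact Equiv.ext fun t => hcon t
    rw [this, orderOf_one] at hσ0
    norm_num at hσ0
  obtain ⟨t0, ht0⟩ := hne0
  obtain ⟨τ, hτ⟩ := MulAction.exists_smul_eq (KK S) t0 z
  obtain ⟨σ, hσ⟩ : ∃ σ : KK S, σ = τ * σ0 * τ⁻¹ := ⟨_, rfl⟩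
  have hσ5 : σ ^ 5 = 1 := by
    rw [hσ, conj_pow, ← hσ0, pow_orderOf_eq_one, mul_one, mul_inv_cancel]
  have hσz : σ • z ≠ z := by
    rw [hσ, mul_smul, mul_smul, ← hτ, inv_smul_smul]
    intro h
    exact ht0 (smul_left_cancel _ h)
  -- properties
  have hng : ∀ (k : KK S) (t : L), k • ng t = ng (k • t) := by
    intro k t
    obtain ⟨g, hg⟩ := k.2
    change k.1 (ng t) = ng (k.1 t)
    rcases hg with hg | hg
    · rw [hg, hg, S.na]
    · rw [hg, hg, S.na]
  have hmem : ∀ (k : KK S) (x : L → ℤ), x ∈ R → (fun t => x (k • t)) ∈ R := by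
    intro k x hx
    obtain ⟨g, hg⟩ := k.2
    have h1 := S.act g⁻¹ x hx
    rw [inv_inv] at h1
    rcases hg with hg | hg
    · have : (fun t => x (k • t)) = fun t => x (g • t) := funext fun t => congrArg x (hg t)
      rw [this]; exact h1
    · have : (fun t => x (k • t)) = -fun t => x (g • t) := funext fun t => by
        change x (k.1 t) = - x (g • t)
        rw [hg, S.odd x hx]
      rw [this]; exact S.neg _ h1
  obtain ⟨v, hv⟩ : ∃ v : ℕ → L, ∀ i, v i = (σ ^ i) • z := ⟨_, fun i => rfl⟩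
  have hv0 : v 0 = z := by rw [hv, pow_zero, one_smul]
  have hvadd : ∀ i j, (σ ^ i) • v j = v (i + j) := fun i j => by
    rw [hv, hv, pow_add, mul_smul]
  have hv5 : ∀ i, v (i + 5) = v i := fun i => by
    rw [hv, hv, pow_add, hσ5, mul_one]
  -- no small periods
  have hper : ∀ k, v k = z → (k = 0 ∨ k = 5 ∨ k = 6 ∨ k = 7 ∨ k = 8 ∨ k = 2 ∨ k = 1 ∨ k = 3 ∨
      k = 4) → k = 0 ∨ k = 5 := by
    intro k hk hc
    have hmul : ∀ m, v (m * k) = z := by
      intro m
      induction m with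
      | zero => rw [zero_mul, hv0]
      | succ m ih =>
        rw [Nat.succ_mul, ← hvadd, hk, ← hv0, hvadd, add_zero, ih, hv0]
    have h1 : v 1 ≠ z := by rw [hv, pow_one]; exact hσz
    have e6 : v 6 = v 1 := hv5 1
    have e11 : v 11 = v 1 := by rw [show 11 = 6 + 5 by norm_num, hv5, e6]
    have e16 : v 16 = v 1 := by rw [show 16 = 11 + 5 by norm_num, hv5, e11]
    have e21 : v 21 = v 1 := by rw [show 21 = 16 + 5 by norm_num, hv5, e16]
    rcases hc with h | h | h | h | h | h | h | h | h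
    · left; exact h
    · right; exact h
    · subst h; exact absurd (by rw [← e6]; exact hk) h1
    · subst h
      have := hmul 3
      norm_num at this
      exact absurd (by rw [← e21]; exact this) h1
    · subst h
      have := hmul 2
      norm_num at this
      exact absurd (by rw [← e16]; exact this) h1
    · subst h
      have := hmul 3
      norm_num at this
      exact absurd (by rw [← e6]; exact this) h1
    · subst h; exact absurd hk h1
    · subst h
      have := hmul 2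
      norm_num at this
      exact absurd (by rw [← e6]; exact this) h1
    · subst h
      have := hmul 4
      norm_num at this
      exact absurd (by rw [← e16]; exact this) h1
  have hsep : ∀ k, 1 ≤ k → k ≤ 4 → v k ≠ z ∧ v k ≠ ng z := by
    intro k h1 h4
    constructor
    · intro h
      have := hper k h (by omega)
      omega
    · intro h
      have h2 : v (k + k) = z := by
        rw [← hvadd, h, hng, ← hv0, hvadd, add_zero, h, S.nn, hv0]
      have := hper (k + k) h2 (by omega)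
      omega
  -- the enumeration
  let F : Fin 5 × Bool → L := fun p => if p.2 then ng (v p.1) else v p.1
  have hFi : Function.Injective F := by
    have hinj : ∀ i j : ℕ, i < 5 → j < 5 → (v i = v j ∨ v i = ng (v j)) → i = j := by
      intro i j hi hj h
      by_contra hij
      rcases Nat.lt_or_gt_of_ne hij with hlt | hlt
      · -- move `v i` to `z`
        have e1 : (σ ^ (5 - i)) • v i = z := by
          rw [hvadd, show 5 - i + i = 0 + 5 by omega, hv5, hv0]
        have e2 : (σ ^ (5 - i)) • v j = v (j - i) := by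
          rw [hvadd, show 5 - i + j = (j - i) + 5 by omega, hv5]
        have h3 := hsep (j - i) (by omega) (by omega)
        rcases h with h | h
        · rw [h, e2] at e1
          exact h3.1 e1
        · rw [h, hng, e2] at e1
          exact h3.2 (S.ng_eq.1 e1)
      · have e1 : (σ ^ (5 - j)) • v j = z := by
          rw [hvadd, show 5 - j + j = 0 + 5 by omega, hv5, hv0]
        have e2 : (σ ^ (5 - j)) • v i = v (i - j) := by
          rw [hvadd, show 5 - j + i = (i - j) + 5 by omega, hv5]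
        have h3 := hsep (i - j) (by omega) (by omega)
        rcases h with h | h
        · rw [h, e1] at e2
          exact h3.1 e2.symm
        · rw [h, hng, e1] at e2
          exact h3.2 e2.symm
    rintro ⟨i, b⟩ ⟨j, b'⟩ h
    simp only [F] at h
    have hij : (i : ℕ) = j := by
      cases b <;> cases b' <;> simp only [Bool.false_eq_true, if_true, if_false] at h
      · exact hinj i j i.2 j.2 (Or.inl h)
      · exact hinj i j i.2 j.2 (Or.inr h)
      · exact hinj i j i.2 j.2 (Or.inr (S.ng_eq.1 h))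
      · exact hinj i j i.2 j.2 (Or.inl (S.ng_inj h))
    have hij' : i = j := Fin.ext hij
    subst hij'
    cases b <;> cases b' <;> simp only [Bool.false_eq_true, if_true, if_false] at h
    · rfl
    · exact absurd h.symm (S.ne _)
    · exact absurd h (S.ne _)
    · rfl
  have hFs : Function.Surjective F := by
    have := (Fintype.bijective_iff_injective_and_card F).2 ⟨hFi, by
      rw [hcard]; simp⟩
    exact this.2
  have hcov : ∀ t : L, ∃ i, i < 5 ∧ (t = v i ∨ t = ng (v i)) := by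
    intro t
    obtain ⟨⟨i, b⟩, rfl⟩ := hFs t
    refine ⟨i, i.2, ?_⟩
    cases b
    · left; simp [F]
    · right; simp [F]
  -- the values
  have hc : ∀ k, 1 ≤ k → k ≤ 4 → n (v k) = 1 ∨ n (v k) = -1 := by
    intro k h1 h4
    obtain ⟨h2, h3⟩ := hsep k h1 h4
    have := D.off _ h2 h3
    rw [hμ1] at this
    exact (abs_eq (by norm_num)).1 this
  obtain ⟨N, q0, q1, q2, q3, q4, hN, c0, c1, c2, c3, c4⟩ := coef5 (hc 1 (by norm_num) (by norm_num))
    (hc 2 (by norm_num) (by norm_num)) (hc 3 (by norm_num) (by norm_num))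
    (hc 4 (by norm_num) (by norm_num))
  obtain ⟨r, hr⟩ : ∃ r : ℕ → L → ℤ, ∀ j t, r j t = n ((σ ^ j) • t) := ⟨_, fun j t => rfl⟩
  have hrR : ∀ j, r j ∈ R := fun j => by
    have : r j = fun t => n ((σ ^ j) • t) := funext (hr j)
    rw [this]
    exact hmem _ n D.mem
  have hrv : ∀ j i, r j (v i) = n (v (j + i)) := fun j i => by rw [hr, hvadd]
  obtain ⟨w, hw⟩ : ∃ w : L → ℤ, w = q0 • r 5 + q1 • r 4 + q2 • r 3 + q3 • r 2 + q4 • r 1 :=
    ⟨_, rfl⟩
  have hwR : w ∈ R := by
    rw [hw]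
    exact S.add _ (S.add _ (S.add _ (S.add _ (S.smul (hrR _) _) _ (S.smul (hrR _) _)) _
      (S.smul (hrR _) _)) _ (S.smul (hrR _) _)) _ (S.smul (hrR _) _)
  have hwv : ∀ i, w (v i) = q0 * n (v (5 + i)) + q1 * n (v (4 + i)) + q2 * n (v (3 + i)) +
      q3 * n (v (2 + i)) + q4 * n (v (1 + i)) := by
    intro i
    rw [hw]
    simp only [Pi.add_apply, Pi.smul_apply, smul_eq_mul, hrv]
  have n0 : n (v 0) = 0 := by rw [hv0, nz]
  have n5 : n (v 5) = 0 := by rw [show 5 = 0 + 5 by norm_num, hv5, n0]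
  have n6 : n (v 6) = n (v 1) := by rw [show 6 = 1 + 5 by norm_num, hv5]
  have n7 : n (v 7) = n (v 2) := by rw [show 7 = 2 + 5 by norm_num, hv5]
  have n8 : n (v 8) = n (v 3) := by rw [show 8 = 3 + 5 by norm_num, hv5]
  have n9 : n (v 9) = n (v 4) := by rw [show 9 = 4 + 5 by norm_num, hv5]
  have w0 : w (v 0) = -N := by
    rw [hwv]
    norm_num
    rw [n5]
    linarith
  have w1 : w (v 1) = N := by
    rw [hwv]
    norm_num
    rw [n6, n5]
    linarith
  have w2 : w (v 2) = 0 := by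
    rw [hwv]
    norm_num
    rw [n7, n6, n5]
    linarith
  have w3 : w (v 3) = 0 := by
    rw [hwv]
    norm_num
    rw [n8, n7, n6, n5]
    linarith
  have w4 : w (v 4) = 0 := by
    rw [hwv]
    norm_num
    rw [n9, n8, n7, n6, n5]
    linarith
  have hw0 := S.two_supp hwR (a := v 0) (b := v 1) (by rw [w0, w1, abs_neg])
    (fun t b1 b2 b3 b4 => by
      obtain ⟨i, hi, hit⟩ := hcov t
      have hwi : w (v i) = 0 → w t = 0 := by
        intro h
        rcases hit with hit | hit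
        · rw [hit, h]
        · rw [hit, S.odd w hwR, h, neg_zero]
      have hi5 : i = 0 ∨ i = 1 ∨ i = 2 ∨ i = 3 ∨ i = 4 := by omega
      rcases hi5 with h | h | h | h | h
      · rw [h] at hit
        rcases hit with hit | hit
        · exact absurd hit b1
        · exact absurd hit b2
      · rw [h] at hit
        rcases hit with hit | hit
        · exact absurd hit b3
        · exact absurd hit b4
      · exact hwi (by rw [h, w2])
      · exact hwi (by rw [h, w3])
      · exact hwi (by rw [h, w4]))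
  rw [hw0, Pi.zero_apply] at w1
  have : (0 : ℤ) < N := by exact_mod_cast hN
  omega

/-- **Short relations.** -/
theorem main (S : Sy G ng μ R) {n : L → ℤ} (hn : n ∈ R) (hμn : ∀ t, |n t| ≤ μ t)
    (hw : ∑ t, |n t| = 8) : Quad G ng μ := by
  rcases S.start hn hμn hw with h | ⟨z, g0, D, h1, h2⟩
  · exact h
  have hμ := D.mu_one h1 h2
  by_cases hO2 : ∀ g : G, g • z = z ∨ g • z = ng z ∨ g • z = g0 • z ∨ g • z = ng (g0 • z)
  · exact D.orbit_two h1 h2 hO2
  push Not at hO2
  obtain ⟨g1, h3, h4, h5, h6⟩ := hO2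
  by_cases hO3 : ∀ g : G, g • z = z ∨ g • z = ng z ∨ g • z = g0 • z ∨ g • z = ng (g0 • z) ∨
      g • z = g1 • z ∨ g • z = ng (g1 • z)
  · exact (D.orbit_three h1 h2 h3 h4 h5 h6 hO3).elim
  push Not at hO3
  obtain ⟨g2, h7, h8, h9, h10, h11, h12⟩ := hO3
  by_cases hO4 : ∀ g : G, g • z = z ∨ g • z = ng z ∨ g • z = g0 • z ∨ g • z = ng (g0 • z) ∨
      g • z = g1 • z ∨ g • z = ng (g1 • z) ∨ g • z = g2 • z ∨ g • z = ng (g2 • z)
  · exact D.orbit_four h1 h2 h3 h4 h5 h6 h7 h8 h9 h10 h11 h12 hO4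
  push Not at hO4
  obtain ⟨g3, k1, k2, k3, k4, k5, k6, k7, k8⟩ := hO4
  exfalso
  refine D.orbit_five hμ ?_
  obtain ⟨hrest, -⟩ := D.μ_le h1 h2
  rw [hμ] at hrest
  have cl1 := S.closed_sdiff (P := univ) (fun t _ => mem_univ _) z
  have cl2 := S.closed_sdiff cl1 (g0 • z)
  have cl3 := S.closed_sdiff cl2 (g1 • z)
  have cl4 := S.closed_sdiff cl3 (g2 • z)
  have mc : g1 • z ∈ (univ \ {z, ng z}) \ {g0 • z, ng (g0 • z)} := by simp [h3, h4, h5, h6]
  have md : g2 • z ∈ ((univ \ {z, ng z}) \ {g0 • z, ng (g0 • z)}) \ {g1 • z, ng (g1 • z)} := by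
    simp [h7, h8, h9, h10, h11, h12]
  have me : g3 • z ∈ (((univ \ {z, ng z}) \ {g0 • z, ng (g0 • z)}) \ {g1 • z, ng (g1 • z)}) \
      {g2 • z, ng (g2 • z)} := by
    simp [k1, k2, k3, k4, k5, k6, k7, k8]
  have e1 := S.peelμ mc (cl2 _ mc)
  have e2 := S.peelμ md (cl3 _ md)
  have e3 := S.peelμ me (cl4 _ me)
  rw [hrest, S.μa, hμ] at e1
  rw [S.μa, hμ] at e2 e3
  have h0 : ∑ t ∈ ((((univ \ {z, ng z}) \ {g0 • z, ng (g0 • z)}) \ {g1 • z, ng (g1 • z)}) \
      {g2 • z, ng (g2 • z)}) \ {g3 • z, ng (g3 • z)}, μ t = 0 := by omega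
  intro t
  by_contra hcon
  push Not at hcon
  have d0 := hcon 1
  rw [one_smul] at d0
  have d1 := hcon g0
  have d2 := hcon g1
  have d3 := hcon g2
  have d4 := hcon g3
  have := (Finset.sum_eq_zero_iff.1 h0) t (by simp [d0, d1, d2, d3, d4])
  have := S.μp t
  omega

end Sy

end Pool.Agent.H86.CM6
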