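import Pool.Agent.H86.CMLib.Y102.AV14
import Pool.Agent.H86.CMLib9.W5h86.LX.Br7
import Pool.Agent.H86.CMLib.R912.Q.AV2

/-!
# Abelian varieties whose factors of type IV have complex multiplication: the splitting
-/

set_option autoImplicit false
set_option linter.unusedSectionVars false

open Module Function Polynomial TensorProduct

noncomputable section

namespace Pool.Agent.H86.CM6

open Pool.Agent.Y102 Pool.Agent.W516.DR Pool.Agent.H204R3.GP Pool.Agent.W516.KC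
  Pool.Agent.H204R3.SP

variable {g : ℕ} (A : AbVar g)

/-- The skew-symmetric endomorphisms of the homology which commute with the endomorphisms: the Lie
algebra of the group of Lefschetz. -/
def Lf (X : Module.End ℚ A.H1) : Prop := IsSkew A.om X ∧ ∀ Q ∈ A.EA, X * Q = Q * X

/-- The simple factors of type IV have complex multiplication. -/
def CMIV : Prop := ∀ R ∈ A.ZA, ∀ X, Lf A X → R * X ∈ A.EA

variable {A}

theorem lf_LA {X : Module.End ℚ A.H1} (hX : X ∈ A.LA) : Lf A X :=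
  ⟨A.LA_skew hX, fun _ hQ => hQ X hX⟩

theorem lf_ZA {X : Module.End ℚ A.H1} (hX : X ∈ A.ZA) : Lf A X := ⟨hX.2.1, hX.2.2⟩

/-- The Lie algebra is generated by the commutators and by its centre. -/
theorem LA_le {S : Submodule ℚ (Module.End ℚ A.H1)}
    (h1 : ∀ X ∈ A.LA, ∀ Y ∈ A.LA, X * Y - Y * X ∈ S) (h2 : ∀ X ∈ A.LA, X ∈ A.EA → X ∈ S) :
    A.LA ≤ S := by
  intro Z hZ
  by_contra hcon
  let T : Submodule ℚ (Module.End ℚ A.H1) := S ⊓ A.LA
  have hZT : Z ∉ T := fun h => hcon h.1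
  obtain ⟨f, hf1, hf2⟩ := Submodule.exists_dual_map_eq_bot_of_notMem hZT inferInstance
  let f' : Module.Dual ℚ A.LA := f.comp A.LA.subtype
  let W := (Pool.Agent.W516.KC2.trE A.LA A.trace_LA).symm f'
  have hW : ∀ X : A.LA, LinearMap.trace ℚ A.H1 (W.1 * X.1) = f X.1 := fun X =>
    Pool.Agent.W516.KC2.trE_symm A.LA A.trace_LA f' X
  have hf0 : ∀ X ∈ T, f X = 0 := by
    intro X hX
    have h3 : f X ∈ Submodule.map f T := Submodule.mem_map_of_mem hX
    rwa [hf2, Submodule.mem_bot] at h3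
  -- `W` is central
  have hcen : ∀ Y ∈ A.LA, Y * W.1 = W.1 * Y := by
    intro Y hY
    have h4 : W.1 * Y - Y * W.1 = 0 := by
      refine A.trace_LA _ (A.LA_bracket W.2 hY) fun X hX => ?_
      have h5 := hW ⟨_, A.LA_bracket hY hX⟩
      rw [hf0 _ ⟨h1 Y hY X hX, A.LA_bracket hY hX⟩] at h5
      rw [← h5, sub_mul, mul_sub, map_sub, map_sub, mul_assoc W.1 Y X, mul_assoc Y W.1 X,
        LinearMap.trace_mul_comm ℚ Y (W.1 * X), mul_assoc W.1 X Y]
    rw [sub_eq_zero] at h4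
    exact h4.symm
  have hWE : W.1 ∈ A.EA := hcen
  have hWW : LinearMap.trace ℚ A.H1 (W.1 * W.1) = 0 := by
    rw [hW W]
    exact hf0 _ ⟨h2 W.1 W.2 hWE, W.2⟩
  obtain ⟨M, hM⟩ := A.hodge_end (A.mem_EA.1 hWE)
  have hW0 : W.1 = 0 := A.trace_sq hM (A.LA_skew W.2) hWW
  apply hf1
  rw [← hW ⟨Z, hZ⟩, hW0, zero_mul, map_zero]

theorem idem_mul' (hIV : CMIV A) {ε : Module.End ℚ A.H1} (hε : A.Idem ε) {R : Module.End ℚ A.H1}
    (hR : R ∈ A.ZA) : ∃ ε₁ : Module.End ℚ A.H1, A.Idem (ε * ε₁) ∧ R * ε₁ = 0 := by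
  obtain ⟨hR1, hR2, hR3⟩ := id hR
  obtain ⟨p, hp⟩ := A.exists_reg hR1 hR2
  obtain ⟨a, ha⟩ : ∃ a, a = aeval R p := ⟨_, rfl⟩
  rw [← ha] at hp
  have haR : a * R = R * a := ha ▸ A.aeval_comm rfl p
  have haE : a ∈ A.EA := ha ▸ A.aeval_mem hR1 p
  have hac : ∀ Q ∈ A.EA, a * Q = Q * a := fun Q hQ => ha ▸ A.aeval_comm (hR3 Q hQ) p
  obtain ⟨e₁, he₁⟩ : ∃ e₁, e₁ = R * a := ⟨_, rfl⟩
  have he₁E : e₁ ∈ A.EA := he₁ ▸ A.EA_mul hR1 haE
  have he₁c : ∀ Q ∈ A.EA, e₁ * Q = Q * e₁ := fun Q hQ => by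
    rw [he₁, mul_assoc, hac Q hQ, ← mul_assoc, hR3 Q hQ, mul_assoc]
  have he₁i : e₁ * e₁ = e₁ := by
    calc e₁ * e₁ = R * (a * R) * a := by rw [he₁]; simp only [mul_assoc]
      _ = (R * R * a) * a := by rw [haR]; simp only [mul_assoc]
      _ = e₁ := by rw [hp, he₁]
  -- the adjoint
  obtain ⟨a', ha'⟩ : ∃ a', a' = aeval (-R) p := ⟨_, rfl⟩
  have hnR : -R ∈ A.EA := by
    rw [← neg_one_smul ℚ R]
    exact A.EA.smul_mem _ hR1
  have ha'E : a' ∈ A.EA := ha' ▸ A.aeval_mem hnR p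
  have hadj : ∀ u v, A.om (a u) v = A.om u (a' v) := fun u v => by
    rw [ha, ha']
    exact A.aeval_adj hR2 p u v
  have ha'R : ∀ w, a' (R w) = R (a' w) := fun w =>
    congrArg (fun T : Module.End ℚ A.H1 => T w) (hR3 a' ha'E).symm
  have haR' : ∀ w, a (R w) = R (a w) := fun w =>
    congrArg (fun T : Module.End ℚ A.H1 => T w) haR
  have h2 : ∀ x y, A.om (R x) y = - A.om x (R y) := fun x y => by
    linear_combination hR2 x y
  have hadj2 : ∀ u v, A.om (e₁ u) v = -A.om u (R (a' v)) := by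
    intro u v
    rw [he₁, Module.End.mul_apply, h2, hadj, ha'R]
  have hRe₂ : ∀ w, R (R (a' w)) = -R w := by
    intro w
    rw [← sub_eq_zero, sub_neg_eq_add]
    apply A.om_nondeg
    intro v
    have h1 : R (R (a v)) = R v := congrArg (fun T : Module.End ℚ A.H1 => T v) hp
    rw [A.om_anti, map_add, ← ha'R, ← ha'R]
    have h3 : A.om v (a' (R (R w))) = A.om (R (R (a v))) w := by
      rw [← hadj, h2, h2, neg_neg]
    rw [h3, h1, h2]
    ring
  have hsym : ∀ u v, A.om (e₁ u) v = A.om u (e₁ v) := by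
    have h3 : ∀ u v, A.om (e₁ u) (e₁ v) = A.om u (e₁ v) := by
      intro u v
      rw [hadj2]
      have h6 : R (a' (e₁ v)) = -e₁ v := by
        rw [he₁, Module.End.mul_apply, ha'R, hRe₂]
      rw [h6, map_neg, neg_neg]
    intro u v
    have e1 := h3 u v
    have e2 := h3 v u
    have e3 := A.om_anti (e₁ u) (e₁ v)
    have e4 := A.om_anti v (e₁ u)
    linear_combination e4 + e2 - e3 + e1
  refine ⟨1 - e₁, ⟨?_, ?_, ?_, ?_, ?_⟩, ?_⟩
  · exact A.EA_mul hε.mem (A.EA.sub_mem A.EA_one he₁E)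
  · have h1 : ε * e₁ = e₁ * ε := hε.cen _ he₁E
    have h2 : (1 - e₁) * ε = ε * (1 - e₁) := by rw [sub_mul, mul_sub, one_mul, mul_one, h1]
    have h3 : (1 - e₁) * (1 - e₁) = 1 - e₁ := by
      rw [sub_mul, mul_sub, mul_sub, one_mul, one_mul, mul_one, he₁i, sub_self, sub_zero]
    calc ε * (1 - e₁) * (ε * (1 - e₁)) = ε * ((1 - e₁) * ε) * (1 - e₁) := by
          simp only [mul_assoc]
      _ = (ε * ε) * ((1 - e₁) * (1 - e₁)) := by rw [h2]; simp only [mul_assoc]
      _ = ε * (1 - e₁) := by rw [h3, hε.idem]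
  · intro Q hQ
    have h1 : (1 - e₁) * Q = Q * (1 - e₁) := by
      rw [sub_mul, mul_sub, one_mul, mul_one, he₁c Q hQ]
    rw [mul_assoc, h1, ← mul_assoc, hε.cen Q hQ, mul_assoc]
  · intro u v
    have h1 : ε * e₁ = e₁ * ε := hε.cen _ he₁E
    have h2 : ε * (1 - e₁) = (1 - e₁) * ε := by rw [sub_mul, mul_sub, one_mul, mul_one, h1]
    have h3 : ∀ u v, A.om ((1 - e₁) u) v = A.om u ((1 - e₁) v) := by
      intro u v
      simp only [LinearMap.sub_apply, map_sub, Module.End.one_apply, hsym]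
    conv_lhs => rw [Module.End.mul_apply, hε.sym, h3]
    rw [h2, Module.End.mul_apply]
  · intro Z hZ hZc
    have h1 : (1 - ε * (1 - e₁)) * Z = (1 - ε) * Z + ε * e₁ * Z := by
      rw [mul_sub, mul_one, sub_mul, sub_mul, sub_mul, one_mul]
      abel
    rw [h1]
    refine A.ZA.add_mem (hε.comp Z hZ hZc) ?_
    have hRZ : R * Z ∈ A.EA := hIV R hR Z ⟨hZ, hZc⟩
    have h2 : ε * e₁ * Z = ε * a * (R * Z) := by
      rw [he₁, ← haR]
      simp only [mul_assoc]
    refine ⟨?_, ?_, ?_⟩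
    · rw [h2]
      exact A.EA_mul (A.EA_mul hε.mem haE) hRZ
    · intro u v
      have h3 : ∀ u v, A.om ((ε * e₁) u) v = A.om u ((ε * e₁) v) := by
        intro u v
        rw [Module.End.mul_apply, hε.sym, hsym]
        have h4 : (e₁ * ε) v = (ε * e₁) v := by rw [hε.cen _ he₁E]
        rw [← Module.End.mul_apply, h4]
      have h4 : (ε * e₁) (Z v) = Z ((ε * e₁) v) :=
        congrArg (fun T : Module.End ℚ A.H1 => T v) (hZc _ (A.EA_mul hε.mem he₁E)).symm
      have h5 := h3 (Z u) v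
      have h6 := hZ u ((ε * e₁) v)
      rw [← h4] at h6
      change A.om ((ε * e₁) (Z u)) v + A.om u ((ε * e₁) (Z v)) = 0
      rw [h5, ← h6, h4]
    · intro Q hQ
      rw [mul_assoc, hZc Q hQ, ← mul_assoc, mul_assoc ε, he₁c Q hQ, ← mul_assoc, hε.cen Q hQ]
      simp only [mul_assoc]
  · rw [mul_sub, mul_one, he₁, ← mul_assoc, hp, sub_self]

/-- The idempotent of the part without complex multiplication. -/
theorem exists_idem' (hIV : CMIV A) :
    ∃ ε : Module.End ℚ A.H1, A.Idem ε ∧ ∀ R ∈ A.ZA, R * ε = 0 := by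
  classical
  have hex : ∃ n : ℕ, ∃ ε : Module.End ℚ A.H1, A.Idem ε ∧ finrank ℚ (LinearMap.range ε) = n :=
    ⟨_, 1, A.idem_one, rfl⟩
  obtain ⟨ε, hε, hn⟩ := Nat.find_spec hex
  refine ⟨ε, hε, fun R hR => ?_⟩
  obtain ⟨ε₁, hε₁, hR0⟩ := idem_mul' hIV hε hR
  have hle : LinearMap.range (ε * ε₁) ≤ LinearMap.range ε := by
    rintro _ ⟨w, rfl⟩
    exact ⟨ε₁ w, rfl⟩
  have h1 : Nat.find hex ≤ finrank ℚ (LinearMap.range (ε * ε₁)) :=
    Nat.find_min' hex ⟨_, hε₁, rfl⟩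
  have h2 : LinearMap.range (ε * ε₁) = LinearMap.range ε :=
    Submodule.eq_of_le_of_finrank_le hle (by rw [hn]; exact h1)
  refine LinearMap.ext fun w => ?_
  have h3 : ε w ∈ LinearMap.range (ε * ε₁) := by rw [h2]; exact ⟨w, rfl⟩
  obtain ⟨x, hx⟩ := h3
  rw [Module.End.mul_apply, ← hx, LinearMap.zero_apply]
  have h4 : (R * (ε * ε₁)) x = 0 := by
    rw [← mul_assoc, hR.2.2 ε hε.mem, mul_assoc, hR0, mul_zero, LinearMap.zero_apply]
  exact h4

variable {ε : Module.End ℚ A.H1}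

/-- The part of an element of the Lie algebra without complex multiplication is in the Lie
algebra. -/
theorem idem_LA (hε : A.Idem ε) (h0 : ∀ R ∈ A.ZA, R * ε = 0) {X : Module.End ℚ A.H1}
    (hX : X ∈ A.LA) : ε * X ∈ A.LA := by
  let S : Submodule ℚ (Module.End ℚ A.H1) := A.LA.comap (LinearMap.mulLeft ℚ ε)
  have hS : ∀ Y, Y ∈ S ↔ ε * Y ∈ A.LA := fun Y => Iff.rfl
  have key : A.LA ≤ S := by
    refine LA_le (fun X hX Y hY => ?_) fun X hX hXE => ?_
    · rw [hS]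
      have hXc : (1 - ε) * X ∈ A.ZA := hε.comp X (A.LA_skew hX) fun Q hQ => hQ X hX
      have h2 : ε * (X * Y - Y * X) = X * Y - Y * X := by
        have h3 : ((1 - ε) * X) * Y = Y * ((1 - ε) * X) := (hXc.1 Y hY).symm
        have h4 : (1 - ε) * (X * Y - Y * X) = 0 := by
          have h5 : (1 - ε) * Y = Y * (1 - ε) := by
            rw [sub_mul, mul_sub, one_mul, mul_one, hε.mem Y hY]
          rw [mul_sub, ← mul_assoc, h3, ← mul_assoc, ← mul_assoc, h5, sub_self]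
        rw [sub_mul, one_mul, sub_eq_zero] at h4
        exact h4.symm
      rw [h2]
      exact A.LA_bracket hX hY
    · rw [hS]
      have h3 : X ∈ A.ZA := ⟨hXE, A.LA_skew hX, fun Q hQ => hQ X hX⟩
      rw [hε.cen X hXE, h0 X h3]
      exact A.LA.zero_mem
  exact key hX

theorem coidem_LA (hε : A.Idem ε) (h0 : ∀ R ∈ A.ZA, R * ε = 0) {X : Module.End ℚ A.H1}
    (hX : X ∈ A.LA) : (1 - ε) * X ∈ A.LA := by
  rw [sub_mul, one_mul]
  exact A.LA.sub_mem hX (idem_LA hε h0 hX)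

/-- There are no invariant vectors. -/
theorem no_inv {v : A.H1} (hv : ∀ X ∈ A.LA, X v = 0) : v = 0 := by
  -- the invariant vectors
  let K : Submodule ℚ A.H1 :=
    { carrier := {v | ∀ X ∈ A.LA, X v = 0}
      zero_mem' := fun X _ => map_zero X
      add_mem' := fun {a b} ha hb X hX => by rw [map_add, ha X hX, hb X hX, add_zero]
      smul_mem' := fun c a ha X hX => by rw [map_smul, ha X hX, smul_zero] }
  -- every element of the algebra generated by the Lie algebra acts by a rational scalar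
  have h1 : ∀ T ∈ Algebra.adjoin ℚ (A.LA : Set (Module.End ℚ A.H1)), ∃ c : ℚ, ∀ v ∈ K,
      T v = c • v := by
    intro T hT
    induction hT using Algebra.adjoin_induction with
    | mem X hX => exact ⟨0, fun v hv => by rw [zero_smul]; exact hv X hX⟩
    | algebraMap r => exact ⟨r, fun v _ => by rw [Module.algebraMap_end_apply]⟩
    | add a b _ _ ha hb =>
      obtain ⟨c, hc⟩ := ha
      obtain ⟨d, hd⟩ := hb
      exact ⟨c + d, fun v hv => by rw [LinearMap.add_apply, hc v hv, hd v hv, add_smul]⟩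
    | mul a b _ _ ha hb =>
      obtain ⟨c, hc⟩ := ha
      obtain ⟨d, hd⟩ := hb
      exact ⟨d * c, fun v hv => by
        rw [Module.End.mul_apply, hd v hv, map_smul, hc v hv, smul_smul]⟩
  by_contra hne
  have hvK : v ∈ K := hv
  -- the components of the complex structure
  have h2 : ∀ f : ℝ →ₗ[ℚ] ℚ, ∃ c : ℚ, A.cmpE f AbVar.JJ v = c • v := by
    intro f
    have h3 : A.cmpE f AbVar.JJ ∈ Algebra.adjoin ℚ (A.LA : Set (Module.End ℚ A.H1)) := by
      refine Pool.Agent.Y102.mem_adjoin_of_comm A.semi_LA fun P hP => ?_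
      exact A.MA_comm (A.J_mem f) (A.hodge_end (A.mem_EA.1 hP))
    obtain ⟨c, hc⟩ := h1 _ h3
    exact ⟨c, hc v hvK⟩
  have h4 : A.E (Complex.I • A.per v) (A.per v) = 0 := by
    apply exists_sep
    intro f
    rw [← AbVar.om_cmp]
    obtain ⟨c, hc⟩ := h2 f
    have h5 : A.cmp f (Complex.I • A.per v) = A.cmpE f AbVar.JJ v := by
      rw [AbVar.cmpE_apply]
      rfl
    rw [h5, hc, map_smul, LinearMap.smul_apply]
    have h6 : A.om v v = 0 := by
      have := A.om_anti v v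
      linarith
    rw [h6, smul_zero]
  have h5 := A.E_pos (u := A.per v) (fun h => hne (A.per_inj (by rw [h, map_zero])))
  rw [A.E_anti, h4, neg_zero] at h5
  exact lt_irrefl _ h5

end Pool.Agent.H86.CM6
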