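import Pool.Agent.H86.CM6.D1

/-!
# Abelian varieties whose factors of type IV have complex multiplication: the characters
-/

set_option autoImplicit false
set_option linter.unusedSectionVars false

open Module Function Polynomial TensorProduct

noncomputable section

namespace Pool.Agent.H86.CM6

open Pool.Agent.Y102 Pool.Agent.W516.DR Pool.Agent.H204R3.GP Pool.Agent.W516.KC
  Pool.Agent.H204R3.SP

variable {g : ℕ} {A : AbVar g} {n : ℕ}
    {b : Basis (Fin n) ℂ (ℂ ⊗[ℚ] A.H1)} {χ : Fin n → (A.ZA →ₗ[ℚ] ℂ)}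

theorem bc_mul_apply (X Y : Module.End ℚ A.H1) (v : ℂ ⊗[ℚ] A.H1) :
    (X * Y).baseChange ℂ v = X.baseChange ℂ (Y.baseChange ℂ v) := by
  have h : (X * Y : Module.End ℚ A.H1) = X ∘ₗ Y := rfl
  rw [h, LinearMap.baseChange_comp, LinearMap.comp_apply]

/-- the idempotent on the eigenvectors -/
theorem idem_eig (hb : ∀ k (R : A.ZA), (R : Module.End ℚ A.H1).baseChange ℂ (b k) = χ k R • b k)
    {ε : Module.End ℚ A.H1} (hε : A.Idem ε) (h0 : ∀ R ∈ A.ZA, R * ε = 0) {k : Fin n}
    (hk : χ k ≠ 0) : ε.baseChange ℂ (b k) = 0 := by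
  obtain ⟨R₀, hR₀⟩ : ∃ R₀, χ k R₀ ≠ 0 := by
    by_contra hne
    push Not at hne
    exact hk (LinearMap.ext hne)
  have h4 : ε * (R₀ : Module.End ℚ A.H1) = 0 := by
    rw [← h0 R₀ R₀.2, R₀.2.2.2 ε hε.mem]
  have h5 : ε.baseChange ℂ ((R₀ : Module.End ℚ A.H1).baseChange ℂ (b k)) = 0 := by
    rw [← bc_mul_apply, h4, LinearMap.baseChange_zero, LinearMap.zero_apply]
  rw [hb, map_smul] at h5
  exact (smul_eq_zero.1 h5).resolve_left hR₀

/-- the action on the eigenvectors of the part with complex multiplication -/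
theorem act_eig (hb : ∀ k (R : A.ZA), (R : Module.End ℚ A.H1).baseChange ℂ (b k) = χ k R • b k)
    {ε : Module.End ℚ A.H1} (hε : A.Idem ε) (h0 : ∀ R ∈ A.ZA, R * ε = 0) {k : Fin n}
    (hk : χ k ≠ 0) {X : Module.End ℚ A.H1} (hX : Lf A X) :
    X.baseChange ℂ (b k) = χ k ⟨(1 - ε) * X, hε.comp X hX.1 hX.2⟩ • b k := by
  rw [← hb k ⟨_, hε.comp X hX.1 hX.2⟩]
  have h7 : X = (1 - ε) * X + X * ε := by
    rw [sub_mul, one_mul, hX.2 ε hε.mem]
    abel
  conv_lhs => rw [h7]
  rw [LinearMap.baseChange_add, LinearMap.add_apply, bc_mul_apply X ε, idem_eig hb hε h0 hk,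
    map_zero, add_zero]

/-- **Separation**: different characters are different on the Lie algebra. -/
theorem separated' (hIV : CMIV A)
    (hb : ∀ k (R : A.ZA), (R : Module.End ℚ A.H1).baseChange ℂ (b k) = χ k R • b k)
    {i j : Fin n} (hi : χ i ≠ 0) (hj : χ j ≠ 0)
    (hL : ∀ R : A.ZA, (R : Module.End ℚ A.H1) ∈ A.LA → χ i R = χ j R) : χ i = χ j := by
  classical
  obtain ⟨ε, hε, h0⟩ := exists_idem' hIV
  -- the Lie algebra on the eigenvectors
  have hact : ∀ k, χ k ≠ 0 → ∀ X ∈ A.LA, ∃ R : A.ZA, (R : Module.End ℚ A.H1) ∈ A.LA ∧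
      (R : Module.End ℚ A.H1) = (1 - ε) * X ∧ X.baseChange ℂ (b k) = χ k R • b k := by
    intro k hk X hX
    exact ⟨_, coidem_LA hε h0 hX, rfl, act_eig hb hε h0 hk (lf_LA hX)⟩
  -- the operator between the eigenvectors
  let T : Module.End ℂ (ℂ ⊗[ℚ] A.H1) :=
    { toFun := fun v => b.repr v i • b j
      map_add' := fun u v => by rw [map_add, Finsupp.add_apply, add_smul]
      map_smul' := fun c v => by
        rw [map_smul, Finsupp.smul_apply, smul_eq_mul, mul_smul, RingHom.id_apply] }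
  have hT : ∀ v, T v = b.repr v i • b j := fun v => rfl
  have hTb : ∀ k, T (b k) = if k = i then b j else 0 := by
    intro k
    rw [hT, Basis.repr_self, Finsupp.single_apply]
    split_ifs
    · rw [one_smul]
    · rw [zero_smul]
  have hTX : ∀ X ∈ A.LA, T * X.baseChange ℂ = X.baseChange ℂ * T := by
    intro X hX
    refine b.ext fun k => ?_
    rw [Module.End.mul_apply, Module.End.mul_apply, hTb]
    by_cases hk : χ k = 0
    · have hki : k ≠ i := fun h => hi (h ▸ hk)
      rw [if_neg hki, map_zero, hT]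
      obtain ⟨R₀, hR₀⟩ : ∃ R₀, χ i R₀ ≠ 0 := by
        by_contra hne
        push Not at hne
        exact hi (LinearMap.ext hne)
      have h1 : (R₀ : Module.End ℚ A.H1).baseChange ℂ (X.baseChange ℂ (b k)) = 0 := by
        have h2 : (R₀ : Module.End ℚ A.H1) * X = X * R₀ := (R₀.2.1 X hX).symm
        rw [← bc_mul_apply, h2, bc_mul_apply, hb, hk, LinearMap.zero_apply, zero_smul, map_zero]
      have h2 : ∀ v, b.repr ((R₀ : Module.End ℚ A.H1).baseChange ℂ v) i = χ i R₀ * b.repr v i := by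
        intro v
        have h3 : (Finsupp.lapply i ∘ₗ b.repr.toLinearMap) ∘ₗ
            ((R₀ : Module.End ℚ A.H1).baseChange ℂ) =
            (χ i R₀) • (Finsupp.lapply i ∘ₗ b.repr.toLinearMap) := by
          refine b.ext fun l => ?_
          rw [LinearMap.comp_apply, hb, map_smul, LinearMap.smul_apply, LinearMap.comp_apply,
            LinearEquiv.coe_coe, Basis.repr_self, Finsupp.lapply_apply, Finsupp.single_apply,
            smul_eq_mul, smul_eq_mul]
          by_cases hl : l = i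
          · rw [if_pos hl, hl]
          · rw [if_neg hl, mul_zero, mul_zero]
        exact congrArg (fun F : ℂ ⊗[ℚ] A.H1 →ₗ[ℂ] ℂ => F v) h3
      have h3 := h2 (X.baseChange ℂ (b k))
      rw [h1, map_zero, Finsupp.zero_apply] at h3
      rw [(mul_eq_zero.1 h3.symm).resolve_left hR₀, zero_smul]
    · obtain ⟨R, hRL, hR, hXk⟩ := hact k hk X hX
      rw [hXk, map_smul, hTb]
      split_ifs with hki
      · obtain ⟨R', hRL', hR', hXj⟩ := hact j hj X hX
        have h1 : R' = R := Subtype.ext (hR'.trans hR.symm)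
        rw [hXj, h1, hki, hL R hRL]
      · rw [map_zero, smul_zero]
  have hTR : ∀ R : A.ZA, T * (R : Module.End ℚ A.H1).baseChange ℂ =
      (R : Module.End ℚ A.H1).baseChange ℂ * T := by
    intro R
    rw [← comm_iff]
    intro lam
    have h1 : Pool.Agent.W516.DR.cmpE lam T ∈ A.EA := fun X hX =>
      (((comm_iff X T).2 (hTX X hX)) lam).symm
    exact (R.2.2.2 _ h1).symm
  refine LinearMap.ext fun R => ?_
  have h1 := congrArg (fun F : Module.End ℂ (ℂ ⊗[ℚ] A.H1) => F (b i)) (hTR R)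
  simp only [Module.End.mul_apply] at h1
  rw [hb, map_smul, hTb, if_pos rfl, hb] at h1
  have h2 : (χ i R - χ j R) • b j = 0 := by rw [sub_smul, h1, sub_self]
  exact sub_eq_zero.1 ((smul_eq_zero.1 h2).resolve_right (b.ne_zero j))

/-- There is a generic element. -/
theorem exists_generic' (hIV : CMIV A)
    (hb : ∀ k (R : A.ZA), (R : Module.End ℚ A.H1).baseChange ℂ (b k) = χ k R • b k) :
    ∃ R : A.ZA, ∀ i j, χ i R = χ j R → χ i = χ j := by
  classical
  let K : {p : Fin n × Fin n // χ p.1 ≠ χ p.2} → Subspace ℚ A.ZA := fun p =>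
    LinearMap.ker (χ p.1.1 - χ p.1.2)
  have hKdef : ∀ p (R : A.ZA), R ∈ K p ↔ χ p.1.1 R = χ p.1.2 R := fun p R => by
    change (χ p.1.1 - χ p.1.2) R = 0 ↔ _
    rw [LinearMap.sub_apply, sub_eq_zero]
  have hK : ∀ p, K p ≠ ⊤ := by
    intro p htop
    apply p.2
    refine LinearMap.ext fun R => ?_
    exact (hKdef p R).1 (by rw [htop]; trivial)
  by_contra hne
  push Not at hne
  have hcov : ⋃ p, (K p : Set A.ZA) = Set.univ := by
    rw [Set.eq_univ_iff_forall]
    intro R
    obtain ⟨i, j, h1, h2⟩ := hne R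
    exact Set.mem_iUnion.2 ⟨⟨(i, j), h2⟩, (hKdef _ _).2 h1⟩
  obtain ⟨p, hp⟩ := Subspace.exists_eq_top_of_iUnion_eq_univ (k := ℚ) (E := A.ZA) (p := K) hcov
  exact hK p hp

/-! ## The automorphisms of the complex numbers -/

/-- the semilinear action -/
def sig (σ : ℂ ≃+* ℂ) : ℂ ⊗[ℚ] A.H1 →ₗ[ℚ] ℂ ⊗[ℚ] A.H1 :=
  LinearMap.rTensor A.H1 ((σ : ℂ →+* ℂ).toRatAlgHom.toLinearMap)

theorem sig_tmul (σ : ℂ ≃+* ℂ) (a : ℂ) (v : A.H1) :
    sig σ (a ⊗ₜ[ℚ] v : ℂ ⊗[ℚ] A.H1) = (σ a) ⊗ₜ[ℚ] v := rfl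

theorem sig_smul (σ : ℂ ≃+* ℂ) (c : ℂ) (v : ℂ ⊗[ℚ] A.H1) : sig σ (c • v) = σ c • sig σ v := by
  induction v with
  | zero => rw [smul_zero, map_zero, smul_zero]
  | add a b ha hb => rw [smul_add, map_add, ha, hb, map_add, smul_add]
  | tmul a v =>
    rw [smul_tmul', sig_tmul, sig_tmul, smul_tmul', smul_eq_mul, smul_eq_mul, map_mul]

theorem sig_bc (σ : ℂ ≃+* ℂ) (X : Module.End ℚ A.H1) (v : ℂ ⊗[ℚ] A.H1) :
    X.baseChange ℂ (sig σ v) = sig σ (X.baseChange ℂ v) := by
  induction v with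
  | zero => simp
  | add a b ha hb => rw [map_add, map_add, ha, hb, map_add, map_add]
  | tmul a v =>
    rw [sig_tmul, LinearMap.baseChange_tmul, LinearMap.baseChange_tmul, sig_tmul]

theorem sig_sig (σ : ℂ ≃+* ℂ) (v : ℂ ⊗[ℚ] A.H1) : sig σ.symm (sig σ v) = v := by
  induction v with
  | zero => simp
  | add a b ha hb => rw [map_add, map_add, ha, hb]
  | tmul a v => rw [sig_tmul, sig_tmul, σ.symm_apply_apply]

/-- The conjugates of the characters. -/
theorem exists_conj (hb : ∀ k (R : A.ZA), (R : Module.End ℚ A.H1).baseChange ℂ (b k) = χ k R • b k)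
    (σ : ℂ ≃+* ℂ) (k : Fin n) : ∃ j, ∀ R, χ j R = σ (χ k R) := by
  have h1 : sig σ (b k) ≠ 0 := by
    intro h
    apply b.ne_zero k
    rw [← sig_sig σ (b k), h, map_zero]
  have h2 : b.repr (sig σ (b k)) ≠ 0 := fun h => h1 (b.repr.map_eq_zero_iff.1 h)
  obtain ⟨j, hj⟩ := Finsupp.ne_iff.1 h2
  refine ⟨j, fun R => ?_⟩
  have h3 : (R : Module.End ℚ A.H1).baseChange ℂ (sig σ (b k)) = σ (χ k R) • sig σ (b k) := by
    rw [sig_bc, hb, sig_smul]
  have h4 : ∀ v, b.repr ((R : Module.End ℚ A.H1).baseChange ℂ v) j = χ j R * b.repr v j := by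
    intro v
    have h3 : (Finsupp.lapply j ∘ₗ b.repr.toLinearMap) ∘ₗ
        ((R : Module.End ℚ A.H1).baseChange ℂ) =
        (χ j R) • (Finsupp.lapply j ∘ₗ b.repr.toLinearMap) := by
      refine b.ext fun l => ?_
      rw [LinearMap.comp_apply, hb, map_smul, LinearMap.smul_apply, LinearMap.comp_apply,
        LinearEquiv.coe_coe, Basis.repr_self, Finsupp.lapply_apply, Finsupp.single_apply,
        smul_eq_mul, smul_eq_mul]
      by_cases hl : l = j
      · rw [if_pos hl, hl]
      · rw [if_neg hl, mul_zero, mul_zero]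
    exact congrArg (fun F : ℂ ⊗[ℚ] A.H1 →ₗ[ℂ] ℂ => F v) h3
  have h5 := h4 (sig σ (b k))
  rw [h3, map_smul, Finsupp.smul_apply, smul_eq_mul] at h5
  exact (mul_right_cancel₀ hj h5).symm

/-- The eigenvalues of an element of the centre, with multiplicities, are permuted by the
automorphisms of the complex numbers. -/
theorem card_conj (hb : ∀ k (R : A.ZA), (R : Module.End ℚ A.H1).baseChange ℂ (b k) = χ k R • b k)
    (R : A.ZA) (σ : ℂ ≃+* ℂ) (c : ℂ) :
    (Finset.univ.filter fun k => χ k R = σ c).card = (Finset.univ.filter fun k => χ k R = c).card := by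
  classical
  have h1 : LinearMap.charpoly ((R : Module.End ℚ A.H1).baseChange ℂ) =
      ∏ k, (X - C (χ k R)) := by
    rw [← LinearMap.charpoly_toMatrix _ b]
    have h2 : LinearMap.toMatrix b b ((R : Module.End ℚ A.H1).baseChange ℂ) =
        Matrix.diagonal fun k => χ k R := by
      ext i j
      rw [LinearMap.toMatrix_apply, hb, map_smul, Basis.repr_self, Finsupp.smul_apply,
        Finsupp.single_apply, Matrix.diagonal_apply, smul_eq_mul]
      by_cases h : i = j
      · rw [if_pos h, if_pos h.symm, mul_one, h]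
      · rw [if_neg h, if_neg (Ne.symm h), mul_zero]
    rw [h2]
    exact Matrix.charpoly_diagonal _
  have h3 : (LinearMap.charpoly ((R : Module.End ℚ A.H1).baseChange ℂ)).map (σ : ℂ →+* ℂ) =
      LinearMap.charpoly ((R : Module.End ℚ A.H1).baseChange ℂ) := by
    rw [LinearMap.charpoly_baseChange, Polynomial.map_map]
    congr 1
    exact Subsingleton.elim _ _
  have h4 : (∏ k, (X - C (σ (χ k R)))) = ∏ k, (X - C (χ k R)) := by
    rw [← h1, ← h3, h1, Polynomial.map_prod]
    refine Finset.prod_congr rfl fun k _ => ?_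
    simp
  have h5 : (Finset.univ.val.map fun k => σ (χ k R)) = Finset.univ.val.map fun k => χ k R := by
    have h6 := congrArg Polynomial.roots h4
    have h7 : ∀ f : Fin n → ℂ, (∏ k, (X - C (f k))).roots = Finset.univ.val.map f := by
      intro f
      have := Polynomial.roots_multiset_prod_X_sub_C (Finset.univ.val.map f)
      rw [Multiset.map_map] at this
      exact this
    rw [h7, h7] at h6
    exact h6
  have h8 := congrArg (Multiset.count (σ c)) h5
  rw [Multiset.count_map, Multiset.count_map] at h8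
  rw [Finset.card_def, Finset.card_def, Finset.filter_val, Finset.filter_val]
  have e1 : (Multiset.filter (fun k => χ k R = σ c) Finset.univ.val) =
      Multiset.filter (fun a => σ c = χ a R) Finset.univ.val :=
    Multiset.filter_congr fun k _ => eq_comm
  have e2 : (Multiset.filter (fun k => χ k R = c) Finset.univ.val) =
      Multiset.filter (fun a => σ c = σ (χ a R)) Finset.univ.val :=
    Multiset.filter_congr fun k _ => by
      rw [σ.injective.eq_iff, eq_comm]
  rw [e1, e2]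
  exact h8.symm

end Pool.Agent.H86.CM6
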