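import Mathlib
import Pool.Agent.H86.CMLib9.W5h86.CC.F
import Pool.Agent.H86.CMLib9.W5h86.CC.E

/-!
# Descent of odd sign functions on sets of algebraic numbers
-/

set_option autoImplicit false
set_option linter.unusedSectionVars false

open Polynomial

noncomputable section

namespace Pool.Agent.H86.CM6

theorem rat_of_fixed {z : ℂ} (hz : IsAlgebraic ℚ z) (h : ∀ σ : ℂ ≃+* ℂ, σ z = z) :
    ∃ c : ℚ, (c : ℂ) = z := by
  obtain ⟨q, hq⟩ := Pool.Agent.W5h86.CC.fixed_mem 0 z isAlgebraic_zero hz fun σ _ => h σ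
  refine ⟨q.eval 0, ?_⟩
  rw [← hq]
  have h5 := aeval_algebraMap_apply ℂ (0 : ℚ) q
  rw [map_zero] at h5
  rw [h5]
  rfl

theorem sum_perm {T : Finset ℂ} {σ : ℂ ≃+* ℂ} (hT : ∀ t ∈ T, σ t ∈ T) (F : ℂ → ℂ) :
    ∑ t ∈ T, F (σ t) = ∑ t ∈ T, F t := by
  have h1 : T.image σ = T := by
    refine Finset.eq_of_subset_of_card_le (fun x hx => ?_) ?_
    · obtain ⟨t, ht, rfl⟩ := Finset.mem_image.1 hx
      exact hT t ht
    · rw [Finset.card_image_of_injective _ σ.injective]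
  conv_rhs => rw [← h1]
  rw [Finset.sum_image fun x _ y _ h => σ.injective h]

theorem surj_perm {T : Finset ℂ} {σ : ℂ ≃+* ℂ} (hT : ∀ t ∈ T, σ t ∈ T) {x : ℂ} (hx : x ∈ T) :
    ∃ t ∈ T, σ t = x := by
  have h1 : T.image σ = T := by
    refine Finset.eq_of_subset_of_card_le (fun x hx => ?_) ?_
    · obtain ⟨t, ht, rfl⟩ := Finset.mem_image.1 hx
      exact hT t ht
    · rw [Finset.card_image_of_injective _ σ.injective]
  rw [← h1] at hx
  exact Finset.mem_image.1 hx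

theorem exists_poly {T : Finset ℂ} (halg : ∀ t ∈ T, IsAlgebraic ℚ t)
    (hT : ∀ σ : ℂ ≃+* ℂ, ∀ t ∈ T, σ t ∈ T) (hTn : ∀ t ∈ T, -t ∈ T) (s : ℂ → ℤ)
    (hsn : ∀ t ∈ T, s (-t) = - s t)
    (hsσ : ∀ σ : ℂ ≃+* ℂ, (∀ t ∈ T, s (σ t) = s t) ∨ (∀ t ∈ T, s (σ t) = - s t))
    {t0 : ℂ} (ht0 : t0 ∈ T) (h0 : s t0 ≠ 0) :
    ∃ (q : ℚ[X]) (δ : ℂ) (c : ℚ), δ ≠ 0 ∧ δ ^ 2 = c ∧ q.comp (-X) = -q ∧
      ∀ t ∈ T, aeval t q = s t * δ := by
  classical
  -- the number `δ`
  obtain ⟨j, hj⟩ : ∃ j : ℕ, ∑ t ∈ T, (s t : ℂ) * t ^ j ≠ 0 := by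
    by_contra hcon
    push Not at hcon
    obtain ⟨p, hp⟩ : ∃ p : ℂ[X], ∀ t ∈ T, p.eval t = if t = t0 then 1 else 0 := by
      refine ⟨Lagrange.basis T id t0, fun t ht => ?_⟩
      split_ifs with h
      · rw [h]
        exact Lagrange.eval_basis_self (Function.injective_id.injOn) ht0
      · exact Lagrange.eval_basis_of_ne (v := id) (Ne.symm h) ht
    have h1 : ∑ t ∈ T, (s t : ℂ) * p.eval t = s t0 := by
      rw [Finset.sum_eq_single t0]
      · rw [hp t0 ht0, if_pos rfl, mul_one]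
      · intro t ht htt
        rw [hp t ht, if_neg htt, mul_zero]
      · intro h
        exact absurd ht0 h
    have h2 : ∑ t ∈ T, (s t : ℂ) * p.eval t = 0 := by
      simp only [Polynomial.eval_eq_sum_range, Finset.mul_sum]
      rw [Finset.sum_comm]
      refine Finset.sum_eq_zero fun i _ => ?_
      have h3 : ∑ t ∈ T, (s t : ℂ) * (p.coeff i * t ^ i) = p.coeff i * ∑ t ∈ T, (s t : ℂ) * t ^ i := by
        rw [Finset.mul_sum]
        refine Finset.sum_congr rfl fun t _ => ?_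
        ring
      rw [h3, hcon, mul_zero]
    rw [h1] at h2
    exact h0 (by exact_mod_cast h2)
  obtain ⟨δ, hδ⟩ : ∃ δ, δ = ∑ t ∈ T, (s t : ℂ) * t ^ j := ⟨_, rfl⟩
  rw [← hδ] at hj
  have hδσ : ∀ σ : ℂ ≃+* ℂ, (σ δ = δ ∧ ∀ t ∈ T, s (σ t) = s t) ∨
      (σ δ = -δ ∧ ∀ t ∈ T, s (σ t) = - s t) := by
    intro σ
    rcases hsσ σ with h | h
    · left
      refine ⟨?_, h⟩
      rw [hδ, map_sum]
      rw [← sum_perm (hT σ) (fun t => (s t : ℂ) * t ^ j)]
      refine Finset.sum_congr rfl fun t ht => ?_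
      rw [h t ht, map_mul, map_pow, map_intCast]
    · right
      refine ⟨?_, h⟩
      rw [hδ, map_sum]
      rw [← sum_perm (hT σ) (fun t => (s t : ℂ) * t ^ j), ← Finset.sum_neg_distrib]
      refine Finset.sum_congr rfl fun t ht => ?_
      rw [h t ht, map_mul, map_pow, map_intCast]
      push_cast
      ring
  have hint : ∀ n : ℤ, IsAlgebraic ℚ (n : ℂ) := fun n => by
    have := isAlgebraic_algebraMap (R := ℚ) (A := ℂ) (n : ℚ)
    simpa using this
  have hδa : IsAlgebraic ℚ δ := by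
    rw [hδ]
    refine mem_algebraicClosure_iff.1 ((algebraicClosure ℚ ℂ).sum_mem fun t ht => ?_)
    exact mem_algebraicClosure_iff.2 ((hint _).mul ((halg t ht).pow j))
  obtain ⟨c, hc⟩ := rat_of_fixed (z := δ ^ 2) (hδa.pow 2) fun σ => by
    rw [map_pow]
    rcases hδσ σ with ⟨h, -⟩ | ⟨h, -⟩
    · rw [h]
    · rw [h, neg_sq]
  -- the interpolation polynomial, over the field of algebraic numbers
  let K := algebraicClosure ℚ ℂ
  have hK : ∀ z : ℂ, z ∈ K ↔ IsAlgebraic ℚ z := fun z => mem_algebraicClosure_iff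
  let v : T → K := fun t => ⟨t.1, (hK _).2 (halg t.1 t.2)⟩
  have hvi : Function.Injective v := fun x y h => by
    apply Subtype.ext
    exact congrArg (algebraMap K ℂ) h
  let r : T → K := fun t => ⟨s t.1 * δ, (hK _).2 ((hint _).mul hδa)⟩
  let p : K[X] := Lagrange.interpolate Finset.univ v r
  obtain ⟨P, hP⟩ : ∃ P : ℂ[X], P = p.map (algebraMap K ℂ) := ⟨_, rfl⟩
  have hPe : ∀ t ∈ T, P.eval t = s t * δ := by
    intro t ht
    have h1 := Lagrange.eval_interpolate_at_node (s := Finset.univ) (v := v) r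
      (hvi.injOn) (Finset.mem_univ ⟨t, ht⟩)
    have h2 : (algebraMap K ℂ) (v ⟨t, ht⟩) = t := rfl
    rw [hP, eval_map, ← h2, eval₂_at_apply, h1]
    rfl
  have hPd : P.degree < T.card := by
    have h1 := Lagrange.degree_interpolate_lt (s := Finset.univ) (v := v) r (hvi.injOn)
    rw [hP]
    refine lt_of_le_of_lt degree_map_le ?_
    rw [Finset.card_univ, Fintype.card_coe] at h1
    exact h1
  have hPσ : ∀ σ : ℂ ≃+* ℂ, P.map (σ : ℂ →+* ℂ) = P := by
    intro σ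
    refine Polynomial.eq_of_degrees_lt_of_eval_finset_eq T (lt_of_le_of_lt degree_map_le hPd)
      hPd fun x hx => ?_
    obtain ⟨t, ht, rfl⟩ := surj_perm (hT σ) hx
    have h1 : (P.map (σ : ℂ →+* ℂ)).eval (σ t) = σ (P.eval t) := by
      rw [eval_map]
      exact eval₂_at_apply (σ : ℂ →+* ℂ) t
    rw [h1, hPe t ht, hPe _ (hT σ t ht), map_mul, map_intCast]
    rcases hδσ σ with ⟨h, h'⟩ | ⟨h, h'⟩
    · rw [h, h' t ht]
    · rw [h, h' t ht]
      push_cast
      ring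
  have hcoef : ∀ i, ∃ a : ℚ, (algebraMap ℚ ℂ) a = P.coeff i := by
    intro i
    refine rat_of_fixed ?_ fun σ => ?_
    · rw [hP, coeff_map]
      exact (hK _).1 (p.coeff i).2
    · have h1 := congrArg (fun Q : ℂ[X] => Q.coeff i) (hPσ σ)
      simp only [coeff_map] at h1
      exact h1
  obtain ⟨q, hq⟩ : ∃ q : ℚ[X], q.map (algebraMap ℚ ℂ) = P := by
    have h1 : P ∈ Polynomial.lifts (algebraMap ℚ ℂ) := by
      rw [Polynomial.lifts_iff_coeff_lifts]
      exact hcoef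
    exact (Polynomial.mem_lifts P).1 h1
  have hqe : ∀ t ∈ T, aeval t q = s t * δ := by
    intro t ht
    rw [← hPe t ht, ← hq, eval_map_algebraMap]
  refine ⟨C (1 / 2) * (q - q.comp (-X)), δ, c, hj, hc.symm, ?_, fun t ht => ?_⟩
  · rw [mul_comp, C_comp, sub_comp, comp_assoc, neg_comp, X_comp, neg_neg, comp_X]
    ring
  · rw [map_mul, aeval_C, map_sub, aeval_comp, map_neg, aeval_X, hqe t ht, hqe _ (hTn t ht),
      hsn t ht]
    have h2 : (algebraMap ℚ ℂ) (1 / 2) = 1 / 2 := by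
      rw [map_div₀, map_one, map_ofNat]
    rw [h2]
    push_cast
    ring

end Pool.Agent.H86.CM6
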