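import Pool.Agent.H86.CM6.C6
import Pool.Agent.H86.CM6.D2
import Pool.Agent.H86.CM6.D3
import Pool.Agent.H86.CMLib9.W5h86.CC.Mn2

/-!
# Abelian varieties whose factors of type IV have complex multiplication: relations of length four
-/

set_option autoImplicit false
set_option linter.unusedSectionVars false

open Module Function Polynomial TensorProduct

noncomputable section

namespace Pool.Agent.H86.CM6

open Pool.Agent.Y102 Pool.Agent.W516.DR Pool.Agent.H204R3.GP Pool.Agent.W516.KC
  Pool.Agent.H204R3.SP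

theorem card_le_rank {W : Type} [AddCommGroup W] [Module ℚ W] [FiniteDimensional ℚ W]
    (D : Module.End ℚ W) {n : ℕ} (b : Basis (Fin n) ℂ (ℂ ⊗[ℚ] W)) (c : Fin n → ℂ)
    (hb : ∀ k, D.baseChange ℂ (b k) = c k • b k) :
    (Finset.univ.filter fun k => c k ≠ 0).card ≤ finrank ℚ (LinearMap.range D) := by
  classical
  have h1 : LinearMap.range (D.baseChange ℂ) ≤
      LinearMap.range ((LinearMap.range D).subtype.baseChange ℂ) := by
    have h2 : D = (LinearMap.range D).subtype ∘ₗ D.rangeRestrict := rfl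
    conv_lhs => rw [h2, LinearMap.baseChange_comp]
    exact LinearMap.range_comp_le_range _ _
  have h3 : finrank ℂ (LinearMap.range (D.baseChange ℂ)) ≤ finrank ℚ (LinearMap.range D) := by
    refine (Submodule.finrank_mono h1).trans ?_
    refine (LinearMap.finrank_range_le _).trans ?_
    rw [finrank_baseChange]
  refine le_trans ?_ h3
  let f : {k // k ∈ Finset.univ.filter fun k => c k ≠ 0} → LinearMap.range (D.baseChange ℂ) :=
    fun k => ⟨b k.1, ⟨(c k.1)⁻¹ • b k.1, by
      rw [map_smul, hb, smul_smul, inv_mul_cancel₀ (Finset.mem_filter.1 k.2).2, one_smul]⟩⟩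
  have hf : LinearIndependent ℂ f := by
    apply LinearIndependent.of_comp (LinearMap.range (D.baseChange ℂ)).subtype
    exact b.linearIndependent.comp (fun k : {k // k ∈ Finset.univ.filter fun k => c k ≠ 0} => k.1)
      Subtype.val_injective
  have h4 := hf.fintype_card_le_finrank
  rwa [Fintype.card_coe] at h4

theorem bc_inj {W : Type} [AddCommGroup W] [Module ℚ W] {X Y : Module.End ℚ W}
    (h : X.baseChange ℂ = Y.baseChange ℂ) : X = Y := by
  refine LinearMap.ext fun w => ?_
  have h1 := congrArg (fun F : Module.End ℂ (ℂ ⊗[ℚ] W) => F ((1 : ℂ) ⊗ₜ[ℚ] w)) h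
  simp only [LinearMap.baseChange_tmul] at h1
  have h2 : (1 : ℂ) ⊗ₜ[ℚ] (X w - Y w) = 0 := by rw [TensorProduct.tmul_sub, h1, sub_self]
  have h3 := Module.FaithfullyFlat.one_tmul_eq_zero_iff ℚ W (A := ℂ) (X w - Y w)
  exact sub_eq_zero.1 (h3.1 h2)

variable {g : ℕ} {A : AbVar g} {n : ℕ}
    {b : Basis (Fin n) ℂ (ℂ ⊗[ℚ] A.H1)} {χ : Fin n → (A.ZA →ₗ[ℚ] ℂ)}

open Classical in
/-- opposite characters have the same multiplicity -/
theorem card_neg_le (hb : ∀ k (R : A.ZA), (R : Module.End ℚ A.H1).baseChange ℂ (b k) = χ k R • b k)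
    (c : A.ZA →ₗ[ℚ] ℂ) :
    (Finset.univ.filter fun k => χ k = c).card ≤ (Finset.univ.filter fun k => χ k = -c).card := by
  let ω : ℂ ⊗[ℚ] A.H1 →ₗ[ℂ] ℂ ⊗[ℚ] A.H1 →ₗ[ℂ] ℂ := LinearMap.BilinForm.baseChange ℂ A.om
  have hωω : ∀ u v : A.H1, ω ((1 : ℂ) ⊗ₜ[ℚ] u) ((1 : ℂ) ⊗ₜ[ℚ] v) = algebraMap ℚ ℂ (A.om u v) := by
    intro u v
    change LinearMap.BilinForm.baseChange ℂ A.om _ _ = _
    rw [LinearMap.BilinForm.baseChange_tmul]
    simp
  have h0 : ∀ i j, χ j ≠ -χ i → ω (b i) (b j) = 0 := by
    intro i j hij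
    by_contra hne
    apply hij
    refine LinearMap.ext fun R => ?_
    have h1 := skew_ext A.om ω hωω R.2.2.1 (b i) (b j)
    rw [hb, hb, map_smul, LinearMap.smul_apply, map_smul, smul_eq_mul, smul_eq_mul,
      ← add_mul] at h1
    rw [LinearMap.neg_apply]
    have h2 := (mul_eq_zero.1 h1).resolve_right hne
    linear_combination h2
  let S := {k // k ∈ Finset.univ.filter fun k => χ k = c}
  let S' := {k // k ∈ Finset.univ.filter fun k => χ k = -c}
  let F : (S → ℂ) →ₗ[ℂ] (S' → ℂ) :=
    { toFun := fun a j => ω (∑ k : S, a k • b k.1) (b j.1)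
      map_add' := fun a a' => by
        funext j
        simp only [Pi.add_apply, add_smul, Finset.sum_add_distrib, map_add, LinearMap.add_apply]
      map_smul' := fun r a => by
        funext j
        simp only [Pi.smul_apply, smul_eq_mul, mul_smul, ← Finset.smul_sum, map_smul,
          LinearMap.smul_apply, RingHom.id_apply] }
  have hF : Function.Injective F := by
    rw [injective_iff_map_eq_zero]
    intro a ha
    have h1 : (∑ k : S, a k • b k.1) = 0 := by
      refine nondeg_ext A.om ω hωω (fun u hu => A.om_nondeg hu) _ fun z => ?_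
      have h2 : ω (∑ k : S, a k • b k.1) = 0 := by
        refine b.ext fun j => ?_
        rw [LinearMap.zero_apply]
        by_cases hj : χ j = -c
        · have h3 := congrFun ha ⟨j, by simp [hj]⟩
          exact h3
        · rw [map_sum, LinearMap.sum_apply]
          refine Finset.sum_eq_zero fun k _ => ?_
          rw [map_smul, LinearMap.smul_apply, h0 k.1 j, smul_zero]
          rw [(Finset.mem_filter.1 k.2).2]
          exact hj
      rw [h2, LinearMap.zero_apply]
    have h3 : LinearIndependent ℂ fun k : S => b k.1 :=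
      b.linearIndependent.comp (fun k : S => k.1) Subtype.val_injective
    funext k
    exact Fintype.linearIndependent_iff.1 h3 a h1 k
  have h5 := LinearMap.finrank_le_finrank_of_injective hF
  rw [Module.finrank_fintype_fun_eq_card, Module.finrank_fintype_fun_eq_card, Fintype.card_coe,
    Fintype.card_coe] at h5
  exact h5

open Classical in
theorem card_neg (hb : ∀ k (R : A.ZA), (R : Module.End ℚ A.H1).baseChange ℂ (b k) = χ k R • b k)
    (c : A.ZA →ₗ[ℚ] ℂ) :
    (Finset.univ.filter fun k => χ k = -c).card = (Finset.univ.filter fun k => χ k = c).card := by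
  refine le_antisymm ?_ (card_neg_le hb c)
  have h := card_neg_le hb (-c)
  rwa [neg_neg] at h

/-! ## The letters -/

/-- the nonzero characters -/
def Lt (χ : Fin n → (A.ZA →ₗ[ℚ] ℂ)) : Type := {c : A.ZA →ₗ[ℚ] ℂ // c ≠ 0 ∧ ∃ k, χ k = c}

/-- the character of a letter -/
def valL (c : Lt χ) : A.ZA →ₗ[ℚ] ℂ := c.1

theorem valL_inj {c d : Lt χ} (h : valL c = valL d) : c = d := Subtype.ext h

instance : Finite (Lt χ) := by
  have h : Finite (Set.range χ) := inferInstance
  exact Finite.of_injective (fun c : Lt χ => (⟨c.1, c.2.2⟩ : Set.range χ)) fun a b h =>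
    Subtype.ext (congrArg (fun x : Set.range χ => x.1) h)

/-- the action on the characters -/
def actC (σ : ℂ ≃+* ℂ) (c : A.ZA →ₗ[ℚ] ℂ) : A.ZA →ₗ[ℚ] ℂ :=
  ((σ : ℂ →+* ℂ).toRatAlgHom.toLinearMap) ∘ₗ c

theorem actC_apply (σ : ℂ ≃+* ℂ) (c : A.ZA →ₗ[ℚ] ℂ) (R : A.ZA) : actC σ c R = σ (c R) := rfl

theorem actC_mem (hb : ∀ k (R : A.ZA), (R : Module.End ℚ A.H1).baseChange ℂ (b k) = χ k R • b k)
    (σ : ℂ ≃+* ℂ) (c : Lt χ) : actC σ c.1 ≠ 0 ∧ ∃ k, χ k = actC σ c.1 := by
  constructor
  · intro h
    apply c.2.1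
    refine LinearMap.ext fun R => ?_
    have h1 := congrArg (fun F : A.ZA →ₗ[ℚ] ℂ => F R) h
    simp only [actC_apply, LinearMap.zero_apply] at h1
    rw [LinearMap.zero_apply]
    exact (map_eq_zero_iff σ σ.injective).1 h1
  · obtain ⟨k, hk⟩ := c.2.2
    obtain ⟨j, hj⟩ := exists_conj hb σ k
    refine ⟨j, LinearMap.ext fun R => ?_⟩
    rw [hj, actC_apply, hk]

/-- the action on the letters -/
@[reducible] def actL
    (hb : ∀ k (R : A.ZA), (R : Module.End ℚ A.H1).baseChange ℂ (b k) = χ k R • b k) :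
    MulAction (ℂ ≃+* ℂ) (Lt χ) where
  smul σ c := ⟨actC σ c.1, actC_mem hb σ c⟩
  one_smul _ := Subtype.ext (LinearMap.ext fun _ => rfl)
  mul_smul _ _ _ := Subtype.ext (LinearMap.ext fun _ => rfl)

/-- the sign change -/
def ngL (hb : ∀ k (R : A.ZA), (R : Module.End ℚ A.H1).baseChange ℂ (b k) = χ k R • b k)
    (c : Lt χ) : Lt χ := ⟨-c.1, neg_ne_zero.2 c.2.1, by
  obtain ⟨k, hk⟩ := c.2.2
  obtain ⟨j, hj⟩ := A.exists_neg hb k
  exact ⟨j, by rw [hj, hk]⟩⟩

/-- the multiplicity -/
def muL (c : Lt χ) : ℕ := by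
  classical
  exact (Finset.univ.filter fun k => χ k = c.1).card

open Classical in
theorem muL_eq (c : Lt χ) : muL c = (Finset.univ.filter fun k => χ k = c.1).card := by
  unfold muL
  congr

/-- the relations -/
def RL (hb : ∀ k (R : A.ZA), (R : Module.End ℚ A.H1).baseChange ℂ (b k) = χ k R • b k)
    [Fintype (Lt χ)] : Set (Lt χ → ℤ) :=
  {x | (∀ c, x (ngL hb c) = - x c) ∧ ∀ R : A.ZA, (R : Module.End ℚ A.H1) ∈ A.LA →
    ∑ c, (x c : ℂ) * c.1 R = 0}

theorem neg_self {c : A.ZA →ₗ[ℚ] ℂ} (h : c = -c) : c = 0 := by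
  refine LinearMap.ext fun R => ?_
  have h2 := congrArg (fun F : A.ZA →ₗ[ℚ] ℂ => F R) h
  simp only [LinearMap.neg_apply] at h2
  rw [LinearMap.zero_apply]
  have h3 : (2 : ℂ) * c R = 0 := by linear_combination h2
  exact (mul_eq_zero.1 h3).resolve_left two_ne_zero

theorem sep_pair (hIV : CMIV A)
    (hb : ∀ k (R : A.ZA), (R : Module.End ℚ A.H1).baseChange ℂ (b k) = χ k R • b k)
    (c d : Lt χ) (h : ∀ R : A.ZA, (R : Module.End ℚ A.H1) ∈ A.LA → c.1 R = d.1 R) : c = d := by
  obtain ⟨i, hi⟩ := c.2.2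
  obtain ⟨j, hj⟩ := d.2.2
  apply Subtype.ext
  rw [← hi, ← hj]
  refine separated' hIV hb (by rw [hi]; exact c.2.1) (by rw [hj]; exact d.2.1) fun R hR => ?_
  rw [hi, hj, h R hR]

open Classical in
/-- **The system of the letters.** -/
theorem exists_Sy (hIV : CMIV A) (hr : ∀ R ∈ A.ZA, finrank ℚ (LinearMap.range R) ≤ 10)
    (hb : ∀ k (R : A.ZA), (R : Module.End ℚ A.H1).baseChange ℂ (b k) = χ k R • b k)
    [Fintype (Lt χ)] :
    @Sy (ℂ ≃+* ℂ) (Lt χ) _ _ (actL hb) (ngL hb) muL (RL hb) := by
  let _ : MulAction (ℂ ≃+* ℂ) (Lt χ) := actL hb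
  have hsm : ∀ (σ : ℂ ≃+* ℂ) (c : Lt χ), (σ • c).1 = actC σ c.1 := fun σ c => rfl
  obtain ⟨R0, hR0⟩ := exists_generic' hIV hb
  have hne0 : ∀ t : Lt χ, ngL hb t ≠ t := by
    intro t h
    exact t.2.1 (neg_self (congrArg Subtype.val h).symm)
  have hnn : ∀ t : Lt χ, ngL hb (ngL hb t) = t := fun t => Subtype.ext (neg_neg _)
  have hpeel : ∀ (P : Finset (Lt χ)) (a : Lt χ), a ∈ P → ngL hb a ∈ P → ∀ {M : Type}
      [AddCommMonoid M] (f : Lt χ → M), ∑ t ∈ P, f t = f a + f (ngL hb a) +
        ∑ t ∈ P \ {a, ngL hb a}, f t := by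
    intro P a ha hna M _ f
    rw [← Finset.sum_sdiff (s₁ := {a, ngL hb a}) (s₂ := P) (by
      intro x hx
      rcases Finset.mem_insert.1 hx with h | h
      · rw [h]; exact ha
      · rw [Finset.mem_singleton.1 h]; exact hna),
      Finset.sum_pair (fun h => hne0 a h.symm), add_comm]
  refine ⟨hnn, hne0, ?_, ?_, ?_, ?_, ?_, ?_, ?_, ?_, ?_, ?_, ?_⟩
  · -- the action is compatible
    intro σ t
    apply Subtype.ext
    refine LinearMap.ext fun R => ?_
    change σ ((-t.1) R) = (-(actC σ t.1)) R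
    rw [LinearMap.neg_apply, LinearMap.neg_apply, map_neg, actC_apply]
  · intro t
    rw [muL_eq, muL_eq]
    exact card_neg hb t.1
  · -- the multiplicities
    intro σ t
    rw [muL_eq, muL_eq, hsm]
    obtain ⟨k, hk⟩ := t.2.2
    obtain ⟨j, hj⟩ := exists_conj hb σ k
    have hj' : χ j = actC σ t.1 := LinearMap.ext fun R => by rw [hj, actC_apply, hk]
    have h1 := card_conj hb R0 σ (t.1 R0)
    have e1 : (Finset.univ.filter fun i => χ i R0 = σ (t.1 R0)) =
        Finset.univ.filter fun i => χ i = actC σ t.1 := by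
      refine Finset.filter_congr fun i _ => ⟨fun h => ?_, fun h => ?_⟩
      · rw [← hj']
        apply hR0
        rw [h, hj', actC_apply]
      · rw [h, actC_apply]
    have e2 : (Finset.univ.filter fun i => χ i R0 = t.1 R0) =
        Finset.univ.filter fun i => χ i = t.1 := by
      refine Finset.filter_congr fun i _ => ⟨fun h => ?_, fun h => ?_⟩
      · rw [← hk]
        apply hR0
        rw [h, hk]
      · rw [h]
    rw [← e1, ← e2]
    convert h1
  · intro t
    rw [muL_eq]
    obtain ⟨k, hk⟩ := t.2.2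
    exact Finset.card_pos.2 ⟨k, by simp [hk]⟩
  · -- the sum
    have h3 : ∑ t : Lt χ, muL t = (Finset.univ.filter fun k : Fin n => χ k ≠ 0).card := by
      rw [Finset.card_eq_sum_card_fiberwise (f := fun k => χ k)
        (t := Finset.univ.image (valL (χ := χ)))]
      · rw [Finset.sum_image fun x _ y _ h => valL_inj h]
        refine Finset.sum_congr rfl fun c _ => ?_
        rw [muL_eq]
        congr 1
        ext k
        simp only [Finset.mem_filter, Finset.mem_univ, true_and]
        constructor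
        · intro h; exact ⟨by rw [h]; exact c.2.1, h⟩
        · intro h; exact h.2
      · intro k hk
        simp only [Finset.coe_filter, Finset.mem_univ, true_and, Set.mem_ofPred_eq] at hk
        simp only [Finset.coe_image, Finset.coe_univ, Set.image_univ, Set.mem_range]
        exact ⟨⟨χ k, hk, k, rfl⟩, rfl⟩
    rw [h3]
    have h4 := card_le_rank (R0 : Module.End ℚ A.H1) b (fun k => χ k R0) (fun k => hb k R0)
    refine le_trans (Finset.card_le_card fun k hk => ?_) (h4.trans (hr R0 R0.2))
    simp only [Finset.mem_filter, Finset.mem_univ, true_and] at hk ⊢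
    intro h0
    obtain ⟨j, hj⟩ := A.exists_neg hb k
    have h5 : χ k = χ j := hR0 k j (by rw [hj, LinearMap.neg_apply, h0, neg_zero])
    rw [hj] at h5
    exact hk (neg_self h5)
  · exact fun x hx => hx.1
  · intro x hx y hy
    refine ⟨fun c => by rw [Pi.add_apply, Pi.add_apply, hx.1, hy.1]; ring, fun R hR => ?_⟩
    have h1 := hx.2 R hR
    have h2 := hy.2 R hR
    simp only [Pi.add_apply]
    push_cast
    simp only [add_mul, Finset.sum_add_distrib]
    rw [h1, h2, add_zero]
  · intro x hx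
    refine ⟨fun c => by rw [Pi.neg_apply, Pi.neg_apply, hx.1], fun R hR => ?_⟩
    have h1 := hx.2 R hR
    simp only [Pi.neg_apply]
    push_cast
    simp only [neg_mul, Finset.sum_neg_distrib]
    rw [h1, neg_zero]
  · -- the action on the relations
    intro σ x hx
    have hna : ∀ (σ : ℂ ≃+* ℂ) (t : Lt χ), σ • ngL hb t = ngL hb (σ • t) := by
      intro σ t
      apply Subtype.ext
      refine LinearMap.ext fun R => ?_
      change σ ((-t.1) R) = (-(actC σ t.1)) R
      rw [LinearMap.neg_apply, LinearMap.neg_apply, map_neg, actC_apply]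
    refine ⟨fun c => ?_, fun R hR => ?_⟩
    · change x (σ⁻¹ • ngL hb c) = - x (σ⁻¹ • c)
      rw [hna, hx.1]
    have h1 := hx.2 R hR
    have h2 := congrArg σ h1
    rw [map_sum, map_zero] at h2
    rw [← Equiv.sum_comp (MulAction.toPerm σ), ← h2]
    refine Finset.sum_congr rfl fun c _ => ?_
    rw [map_mul, map_intCast, MulAction.toPerm_apply]
    change (x (σ⁻¹ • σ • c) : ℂ) * (σ • c).1 R = _
    rw [inv_smul_smul, hsm, actC_apply]
  · -- saturation
    intro k hk x hx
    refine ⟨fun c => ?_, fun R hR => ?_⟩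
    · have h1 := hx.1 c
      simp only [Pi.smul_apply, smul_eq_mul] at h1
      have h2 : k * x (ngL hb c) = k * (-x c) := by rw [h1]; ring
      exact mul_left_cancel₀ hk h2
    · have h1 := hx.2 R hR
      simp only [Pi.smul_apply, smul_eq_mul] at h1
      push_cast at h1
      simp only [mul_assoc] at h1
      rw [← Finset.mul_sum] at h1
      exact (mul_eq_zero.1 h1).resolve_left (by exact_mod_cast hk)
  · -- the minimal weight
    intro x hx hw
    by_contra hne
    obtain ⟨c, hc⟩ := Function.ne_iff.1 hne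
    rw [Pi.zero_apply] at hc
    have habs : ∀ t, |x (ngL hb t)| = |x t| := fun t => by rw [hx.1, abs_neg]
    have hneg : ∀ (t : Lt χ) (R : A.ZA), (x (ngL hb t) : ℂ) * (ngL hb t).1 R = x t * t.1 R := by
      intro t R
      have e : (ngL hb t).1 R = - t.1 R := rfl
      rw [hx.1, e]
      push_cast
      ring
    have h1 := hpeel Finset.univ c (Finset.mem_univ _) (Finset.mem_univ _) (fun t => |x t|)
    rw [habs] at h1
    have hc1 : 1 ≤ |x c| := Int.one_le_abs hc
    by_cases hall : ∀ t ∈ Finset.univ \ {c, ngL hb c}, x t = 0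
    · -- one letter
      have h2 : ∀ R : A.ZA, (R : Module.End ℚ A.H1) ∈ A.LA → c.1 R = (ngL hb c).1 R := by
        intro R hR
        have h3 := hx.2 R hR
        rw [hpeel Finset.univ c (Finset.mem_univ _) (Finset.mem_univ _), hneg,
          Finset.sum_eq_zero fun t ht => by rw [hall t ht]; simp] at h3
        have h4 : (x c : ℂ) * c.1 R = 0 := by linear_combination (1 / 2) * h3
        have h5 : c.1 R = 0 := (mul_eq_zero.1 h4).resolve_left (by exact_mod_cast hc)
        have e : (ngL hb c).1 R = - c.1 R := rfl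
        rw [e, h5, neg_zero]
      exact hne0 c (sep_pair hIV hb _ _ h2).symm
    · push Not at hall
      obtain ⟨d, hd, hd0⟩ := hall
      have hd1 : 1 ≤ |x d| := Int.one_le_abs hd0
      have hd' := hd
      simp only [Finset.mem_sdiff, Finset.mem_univ, true_and, Finset.mem_insert,
        Finset.mem_singleton, not_or] at hd'
      have hnd : ngL hb d ∈ Finset.univ \ {c, ngL hb c} := by
        simp only [Finset.mem_sdiff, Finset.mem_univ, true_and, Finset.mem_insert,
          Finset.mem_singleton, not_or]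
        exact ⟨fun h => hd'.2 (by rw [← h, hnn]), fun h => hd'.1 (by rw [← hnn d, h, hnn])⟩
      have h2 := hpeel _ d hd hnd (fun t => |x t|)
      rw [habs] at h2
      have hrest : 0 ≤ ∑ t ∈ (Finset.univ \ {c, ngL hb c}) \ {d, ngL hb d}, |x t| :=
        Finset.sum_nonneg fun t _ => abs_nonneg _
      have hxc : |x c| = 1 := by omega
      have hxd : |x d| = 1 := by omega
      have hr0 : ∑ t ∈ (Finset.univ \ {c, ngL hb c}) \ {d, ngL hb d}, |x t| = 0 := by omega
      have hz : ∀ t ∈ (Finset.univ \ {c, ngL hb c}) \ {d, ngL hb d}, x t = 0 := fun t ht =>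
        abs_eq_zero.1 ((Finset.sum_eq_zero_iff_of_nonneg fun t _ => abs_nonneg _).1 hr0 t ht)
      have h3 : ∀ R : A.ZA, (R : Module.End ℚ A.H1) ∈ A.LA →
          (x c : ℂ) * c.1 R + x d * d.1 R = 0 := by
        intro R hR
        have h3 := hx.2 R hR
        rw [hpeel Finset.univ c (Finset.mem_univ _) (Finset.mem_univ _), hneg,
          hpeel _ d hd hnd, hneg, Finset.sum_eq_zero fun t ht => by rw [hz t ht]; simp] at h3
        linear_combination (1 / 2) * h3
      have hneq : ∀ t : Lt χ, ∀ R : A.ZA, (ngL hb t).1 R = - t.1 R := fun t R => rfl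
      rcases (abs_eq (by norm_num)).1 hxc with h4 | h4 <;>
        rcases (abs_eq (by norm_num)).1 hxd with h5 | h5
      · refine hd'.2 (sep_pair hIV hb _ _ fun R hR => ?_)
        have := h3 R hR
        rw [h4, h5] at this
        push_cast at this
        rw [hneq]
        linear_combination this
      · refine hd'.1 (sep_pair hIV hb _ _ fun R hR => ?_)
        have := h3 R hR
        rw [h4, h5] at this
        push_cast at this
        linear_combination -this
      · refine hd'.1 (sep_pair hIV hb _ _ fun R hR => ?_)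
        have := h3 R hR
        rw [h4, h5] at this
        push_cast at this
        linear_combination this
      · refine hd'.2 (sep_pair hIV hb _ _ fun R hR => ?_)
        have := h3 R hR
        rw [h4, h5] at this
        push_cast at this
        rw [hneq]
        linear_combination -this

end Pool.Agent.H86.CM6
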