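import Pool.Agent.H86.CM6.D4

/-!
# Abelian varieties whose factors of type IV have complex multiplication: relations of length four
-/

set_option autoImplicit false
set_option linter.unusedSectionVars false

open Module Function Polynomial TensorProduct

noncomputable section

namespace Pool.Agent.H86.CM6

open Pool.Agent.Y102 Pool.Agent.W516.DR Pool.Agent.H204R3.GP Pool.Agent.W516.KC
  Pool.Agent.H204R3.SP

variable {g : ℕ} {A : AbVar g} {n : ℕ}
    {b : Basis (Fin n) ℂ (ℂ ⊗[ℚ] A.H1)} {χ : Fin n → (A.ZA →ₗ[ℚ] ℂ)}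

theorem poly_eig (hb : ∀ k (R : A.ZA), (R : Module.End ℚ A.H1).baseChange ℂ (b k) = χ k R • b k)
    (R : A.ZA) (p : ℚ[X]) (k : Fin n) :
    (aeval (R : Module.End ℚ A.H1) p).baseChange ℂ (b k) = aeval (χ k R) p • b k := by
  rw [← aeval_baseChange]
  exact AbVar.aeval_eigen (hb k R) p

/-- the letter of an eigenvector -/
def mkL (χ : Fin n → (A.ZA →ₗ[ℚ] ℂ)) (k : Fin n) (hk : χ k ≠ 0) : Lt χ := ⟨χ k, hk, k, rfl⟩

theorem valL_mkL (k : Fin n) (hk : χ k ≠ 0) : valL (mkL χ k hk) = χ k := rfl

/-- a sign function gives a central endomorphism -/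
theorem exists_central (hI : ∀ D ∈ A.ZA, ∀ c : ℚ, D * D * D = c • D →
      finrank ℚ (LinearMap.range D) < 8)
    (hIV : CMIV A)
    (hb : ∀ k (R : A.ZA), (R : Module.End ℚ A.H1).baseChange ℂ (b k) = χ k R • b k)
    [Fintype (Lt χ)] (s : Lt χ → ℤ) (hs1 : ∀ t, s t = 0 ∨ s t = 1 ∨ s t = -1)
    (hsn : ∀ t, s (ngL hb t) = - s t)
    (hsσ : ∀ σ : ℂ ≃+* ℂ, (∀ t, s ((actL hb).smul σ t) = s t) ∨
      (∀ t, s ((actL hb).smul σ t) = - s t))
    (h8 : 8 ≤ ∑ t, if s t = 0 then 0 else muL t) : False := by
  classical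
  obtain ⟨R0, hR0⟩ := exists_generic' hIV hb
  have hinj : ∀ c d : Lt χ, valL c R0 = valL d R0 → c = d := by
    intro c d h
    obtain ⟨i, hi⟩ := c.2.2
    obtain ⟨j, hj⟩ := d.2.2
    have h1 : χ i R0 = χ j R0 := by
      rw [hi, hj]
      exact h
    have h2 := hR0 i j h1
    rw [hi, hj] at h2
    exact Subtype.ext h2
  obtain ⟨S, hS⟩ : ∃ S : ℂ → ℤ, ∀ c : Lt χ, S (valL c R0) = s c := by
    refine ⟨fun z => if h : ∃ c : Lt χ, valL c R0 = z then s h.choose else 0, fun c => ?_⟩
    have h : ∃ d : Lt χ, valL d R0 = valL c R0 := ⟨c, rfl⟩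
    change dite (∃ d : Lt χ, valL d R0 = valL c R0) (fun h => s h.choose) (fun _ => 0) = s c
    rw [dif_pos h]
    congr 1
    exact hinj _ _ h.choose_spec
  obtain ⟨T, hT⟩ : ∃ T : Finset ℂ, T = Finset.univ.image fun c : Lt χ => valL c R0 := ⟨_, rfl⟩
  have hTm : ∀ z, z ∈ T ↔ ∃ c : Lt χ, valL c R0 = z := by
    intro z
    rw [hT]
    simp
  obtain ⟨t0, ht0⟩ : ∃ t0, s t0 ≠ 0 := by
    by_contra hne
    push Not at hne
    rw [Finset.sum_eq_zero fun t _ => if_pos (hne t)] at h8
    omega
  have hbf := poly_eig hb R0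
  obtain ⟨q, δ, c, hδ, hδc, hq, hqT⟩ := exists_poly (T := T) (fun t ht => by
      obtain ⟨c, rfl⟩ := (hTm _).1 ht
      obtain ⟨k, hk⟩ := c.2.2
      have h1 := hbf (minpoly ℚ (R0 : Module.End ℚ A.H1)) k
      rw [minpoly.aeval, LinearMap.baseChange_zero, LinearMap.zero_apply, hk] at h1
      refine ⟨minpoly ℚ (R0 : Module.End ℚ A.H1), minpoly.ne_zero
        (Algebra.IsIntegral.isIntegral _), ?_⟩
      exact (smul_eq_zero.1 h1.symm).resolve_right (b.ne_zero _))
    (fun σ t ht => by
      obtain ⟨c, rfl⟩ := (hTm _).1 ht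
      exact (hTm _).2 ⟨(actL hb).smul σ c, rfl⟩)
    (fun t ht => by
      obtain ⟨c, rfl⟩ := (hTm _).1 ht
      exact (hTm _).2 ⟨ngL hb c, rfl⟩)
    S (fun t ht => by
      obtain ⟨c, rfl⟩ := (hTm _).1 ht
      have e : - valL c R0 = valL (ngL hb c) R0 := rfl
      rw [e, hS, hS, hsn])
    (fun σ => by
      rcases hsσ σ with h | h
      · left
        intro t ht
        obtain ⟨c, rfl⟩ := (hTm _).1 ht
        have e : σ (valL c R0) = valL ((actL hb).smul σ c) R0 := rfl
        rw [e, hS, hS, h]
      · right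
        intro t ht
        obtain ⟨c, rfl⟩ := (hTm _).1 ht
        have e : σ (valL c R0) = valL ((actL hb).smul σ c) R0 := rfl
        rw [e, hS, hS, h])
    (t0 := valL t0 R0) ((hTm _).2 ⟨t0, rfl⟩) (by rw [hS]; exact ht0)
  obtain ⟨D, hD⟩ : ∃ D, D = aeval (R0 : Module.End ℚ A.H1) q := ⟨_, rfl⟩
  have hDZ : D ∈ A.ZA := by
    rw [hD]
    exact ⟨A.aeval_mem R0.2.1 q, Pool.Agent.W5h86.CC.skew_odd A R0.2.2.1 hq,
      fun Q hQ => A.aeval_comm (R0.2.2.2 Q hQ) q⟩
  have hq0 : aeval (0 : ℂ) q = 0 := by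
    have h1 := congrArg (aeval (0 : ℂ)) hq
    rw [aeval_comp, map_neg, aeval_X, map_neg, neg_zero] at h1
    have h2 : (2 : ℂ) * aeval (0 : ℂ) q = 0 := by linear_combination h1
    exact (mul_eq_zero.1 h2).resolve_left two_ne_zero
  have hDb : ∀ k, D.baseChange ℂ (b k) = aeval (χ k R0) q • b k := fun k => by rw [hD]; exact hbf q k
  have hlet : ∀ k (hk : χ k ≠ 0), aeval (χ k R0) q =
      s (mkL χ k hk) * δ := by
    intro k hk
    have h1 := hqT (valL (mkL χ k hk) R0) ((hTm _).2 ⟨_, rfl⟩)
    rw [hS] at h1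
    exact h1
  have h3 : D * D * D = c • D := by
    apply bc_inj
    refine b.ext fun k => ?_
    rw [bc_mul_apply, bc_mul_apply, hDb, map_smul, hDb, map_smul, map_smul, hDb,
      LinearMap.baseChange_smul, LinearMap.smul_apply, hDb, smul_smul, smul_smul,
      ← algebraMap_smul ℂ c, smul_smul]
    congr 1
    by_cases hk : χ k = 0
    · rw [hk, LinearMap.zero_apply, hq0, mul_zero, mul_zero]
    · rw [hlet k hk]
      have e : (algebraMap ℚ ℂ) c = δ ^ 2 := by rw [hδc]; rfl
      rw [e]
      rcases hs1 (mkL χ k hk) with h | h | h <;> rw [h] <;> push_cast <;> ring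
  have h4 := hI D hDZ c h3
  have h5 := card_le_rank D b (fun k => aeval (χ k R0) q) hDb
  have h6 : ∑ t : Lt χ, (if s t = 0 then 0 else muL t) ≤
      (Finset.univ.filter fun k => aeval (χ k R0) q ≠ 0).card := by
    rw [← Finset.sum_filter_ne_zero]
    have h7 : (Finset.univ.filter fun k => aeval (χ k R0) q ≠ 0).card =
        ∑ t ∈ Finset.univ.image (valL (χ := χ)), ((Finset.univ.filter fun k =>
          aeval (χ k R0) q ≠ 0).filter fun k => χ k = t).card := by
      rw [← Finset.card_eq_sum_card_fiberwise (f := fun k => χ k)]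
      intro k hk
      simp only [Finset.coe_filter, Finset.mem_univ, true_and, Set.mem_ofPred_eq] at hk
      have hk0 : χ k ≠ 0 := by
        intro h
        rw [h, LinearMap.zero_apply] at hk
        exact hk hq0
      simp only [Finset.coe_image, Finset.coe_univ, Set.image_univ, Set.mem_range]
      exact ⟨⟨χ k, hk0, k, rfl⟩, rfl⟩
    rw [h7, Finset.sum_image fun x _ y _ h => valL_inj h]
    refine (Finset.sum_le_sum_of_subset (Finset.subset_univ _)).trans ?_
    refine Finset.sum_le_sum fun t _ => ?_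
    split_ifs with ht
    · exact Nat.zero_le _
    · rw [muL_eq]
      refine Finset.card_le_card fun k hk => ?_
      simp only [Finset.mem_filter, Finset.mem_univ, true_and] at hk ⊢
      have hk0 : χ k ≠ 0 := by rw [hk]; exact t.2.1
      refine ⟨?_, hk⟩
      rw [hlet k hk0]
      have e : mkL χ k hk0 = t := Subtype.ext hk
      rw [e]
      exact mul_ne_zero (by exact_mod_cast ht) hδ
  omega

/-- **The relations of length four are trivial.** -/
theorem rel_trivial (hI : ∀ D ∈ A.ZA, ∀ c : ℚ, D * D * D = c • D →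
      finrank ℚ (LinearMap.range D) < 8) (hIV : CMIV A)
    (hr : ∀ R ∈ A.ZA, finrank ℚ (LinearMap.range R) ≤ 10)
    (hb : ∀ k (R : A.ZA), (R : Module.End ℚ A.H1).baseChange ℂ (b k) = χ k R • b k)
    {κ : Type} [Fintype κ] (hκ : Fintype.card κ = 4) (I : κ → Fin n)
    (hinj : Function.Injective I) (h0 : ∀ k, χ (I k) ≠ 0)
    (hL : ∀ R : A.ZA, (R : Module.End ℚ A.H1) ∈ A.LA → ∑ k, χ (I k) R = 0) (R : A.ZA) :
    ∑ k, χ (I k) R = 0 := by
  classical
  by_cases hop : ∃ k l, χ (I k) = - χ (I l)
  · obtain ⟨k, l, hkl⟩ := hop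
    have hne : k ≠ l := by
      intro h
      rw [h] at hkl
      exact h0 l (neg_self hkl)
    have hc : (Finset.univ \ {k, l}).card = 2 := by
      rw [Finset.card_sdiff_of_subset (Finset.subset_univ _), Finset.card_univ, hκ,
        Finset.card_pair hne]
    obtain ⟨p, q, hpq, hset⟩ := Finset.card_eq_two.1 hc
    have hsum : ∀ R : A.ZA, ∑ k, χ (I k) R = χ (I p) R + χ (I q) R := by
      intro R
      rw [← Finset.sum_sdiff (Finset.subset_univ {k, l}), Finset.sum_pair hne, hset,
        Finset.sum_pair hpq, hkl, LinearMap.neg_apply]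
      ring
    obtain ⟨j, hj⟩ := A.exists_neg hb (I q)
    have h1 : χ (I p) = χ j := by
      refine separated' hIV hb (h0 p) (by rw [hj]; exact neg_ne_zero.2 (h0 q)) fun R hR => ?_
      have h2 := hL R hR
      rw [hsum] at h2
      rw [hj, LinearMap.neg_apply]
      linear_combination h2
    rw [hsum, h1, hj, LinearMap.neg_apply]
    ring
  · exfalso
    push Not at hop
    have : Fintype (Lt χ) := Fintype.ofFinite _
    let _ : MulAction (ℂ ≃+* ℂ) (Lt χ) := actL hb
    have S := exists_Sy hIV hr hb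
    -- the relation
    let f : κ → Lt χ := fun k => mkL χ (I k) (h0 k)
    let P : Lt χ → ℕ := fun c => (Finset.univ.filter fun k => f k = c).card
    have hPm : ∀ c, P c ≤ muL c := by
      intro c
      rw [muL_eq]
      refine Finset.card_le_card_of_injOn I (fun k hk => ?_) hinj.injOn
      have h1 : f k = c := (Finset.mem_filter.1 hk).2
      exact Finset.mem_filter.2 ⟨Finset.mem_univ _, congrArg valL h1⟩
    have hnn : ∀ c, ngL hb (ngL hb c) = c := S.nn
    have hP0 : ∀ c, P c = 0 ∨ P (ngL hb c) = 0 := by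
      intro c
      by_contra hcon
      push Not at hcon
      obtain ⟨k, hk⟩ := Finset.card_ne_zero.1 hcon.1
      obtain ⟨l, hl⟩ := Finset.card_ne_zero.1 hcon.2
      have h1 : f k = c := (Finset.mem_filter.1 hk).2
      have h2 : f l = ngL hb c := (Finset.mem_filter.1 hl).2
      apply hop l k
      have h3 := congrArg valL h2
      rw [← h1] at h3
      exact h3
    have hPs : ∀ F : Lt χ → ℂ, ∑ c, (P c : ℂ) * F c = ∑ k, F (f k) := by
      intro F
      rw [← Finset.sum_fiberwise Finset.univ f]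
      refine Finset.sum_congr rfl fun c _ => ?_
      rw [Finset.sum_congr rfl (g := fun _ => F c) fun k hk => by
        rw [(Finset.mem_filter.1 hk).2], Finset.sum_const, nsmul_eq_mul]
    have hPn : ∀ F : Lt χ → ℂ, ∑ c, (P (ngL hb c) : ℂ) * F c = ∑ k, F (ngL hb (f k)) := by
      intro F
      rw [← hPs fun c => F (ngL hb c)]
      have hbij : Function.Bijective (ngL hb) :=
        Function.Involutive.bijective hnn
      rw [← Equiv.sum_comp (Equiv.ofBijective _ hbij)]
      refine Finset.sum_congr rfl fun c _ => ?_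
      rw [Equiv.ofBijective_apply, hnn]
    let N : Lt χ → ℤ := fun c => (P c : ℤ) - P (ngL hb c)
    have hN : N ∈ RL hb := by
      refine ⟨fun c => ?_, fun R hR => ?_⟩
      · change (P (ngL hb c) : ℤ) - P (ngL hb (ngL hb c)) = -((P c : ℤ) - P (ngL hb c))
        rw [hnn]
        ring
      · change ∑ c, (((P c : ℤ) - P (ngL hb c) : ℤ) : ℂ) * c.1 R = 0
        push_cast
        simp only [sub_mul, Finset.sum_sub_distrib]
        rw [hPs fun c => c.1 R, hPn fun c => c.1 R]
        have e : ∀ k, (ngL hb (f k)).1 R = - χ (I k) R := fun k => rfl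
        have e' : ∀ k, (f k).1 R = χ (I k) R := fun k => rfl
        simp only [e, e', Finset.sum_neg_distrib, hL R hR]
        ring
    have hNabs : ∀ c, |N c| = (P c : ℤ) + P (ngL hb c) := by
      intro c
      change |(P c : ℤ) - P (ngL hb c)| = _
      rcases hP0 c with h | h
      · rw [h]
        simp
      · rw [h]
        simp
    obtain ⟨s, hs1, hs2, hs3, hs4⟩ := S.main (n := N) hN (fun c => by
        rw [hNabs]
        rcases hP0 c with h | h
        · rw [h]
          have := hPm (ngL hb c)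
          have h2 : muL (ngL hb c) = muL c := S.μn c
          rw [h2] at this
          push_cast
          have h3 : (P (ngL hb c) : ℤ) ≤ muL c := by exact_mod_cast this
          linarith
        · rw [h]
          have := hPm c
          have h3 : (P c : ℤ) ≤ muL c := by exact_mod_cast this
          push_cast
          linarith)
      (by
        simp only [hNabs, Finset.sum_add_distrib]
        have h1 := hPs fun _ => 1
        have h2 := hPn fun _ => 1
        simp only [mul_one, Finset.sum_const, Finset.card_univ, hκ] at h1 h2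
        have h3 : (∑ c, (P c : ℤ)) = 4 := by
          have : ((∑ c, (P c : ℤ) : ℤ) : ℂ) = ((4 : ℤ) : ℂ) := by
            push_cast
            rw [h1]
            norm_num
          exact_mod_cast this
        have h4 : (∑ c, (P (ngL hb c) : ℤ)) = 4 := by
          have : ((∑ c, (P (ngL hb c) : ℤ) : ℤ) : ℂ) = ((4 : ℤ) : ℂ) := by
            push_cast
            rw [h2]
            norm_num
          exact_mod_cast this
        rw [h3, h4]
        norm_num)
    exact exists_central hI hIV hb s hs1 hs2 hs3 hs4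

open Classical in
theorem sum_muL [Fintype (Lt χ)] :
    ∑ t : Lt χ, muL t = (Finset.univ.filter fun k : Fin n => χ k ≠ 0).card := by
  rw [Finset.card_eq_sum_card_fiberwise (f := fun k => χ k)
    (t := Finset.univ.image (valL (χ := χ)))]
  · rw [Finset.sum_image fun x _ y _ h => valL_inj h]
    refine Finset.sum_congr rfl fun c _ => ?_
    rw [muL_eq]
    congr 1
    ext k
    simp only [Finset.mem_filter, Finset.mem_univ, true_and]
    constructor
    · intro h; exact ⟨by rw [h]; exact c.2.1, h⟩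
    · intro h; exact h.2
  · intro k hk
    simp only [Finset.coe_filter, Finset.mem_univ, true_and, Set.mem_ofPred_eq] at hk
    simp only [Finset.coe_image, Finset.coe_univ, Set.image_univ, Set.mem_range]
    exact ⟨⟨χ k, hk, k, rfl⟩, rfl⟩

/-- **The relations of even length between different basis vectors are trivial.** -/
theorem rel_even (hI : ∀ D ∈ A.ZA, ∀ c : ℚ, D * D * D = c • D →
      finrank ℚ (LinearMap.range D) < 8) (hIV : CMIV A)
    (hr : ∀ R ∈ A.ZA, finrank ℚ (LinearMap.range R) ≤ 10)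
    (hb : ∀ k (R : A.ZA), (R : Module.End ℚ A.H1).baseChange ℂ (b k) = χ k R • b k)
    {κ : Type} [Fintype κ] (hκ : Even (Fintype.card κ)) (I : κ → Fin n)
    (hinj : Function.Injective I) (h0 : ∀ k, χ (I k) ≠ 0)
    (hL : ∀ R : A.ZA, (R : Module.End ℚ A.H1) ∈ A.LA → ∑ k, χ (I k) R = 0) (R : A.ZA) :
    ∑ k, χ (I k) R = 0 := by
  classical
  obtain ⟨T, hT⟩ : ∃ T : Finset (Fin n), T = Finset.univ.filter fun k => χ k ≠ 0 := ⟨_, rfl⟩
  have hTm : ∀ k, k ∈ T ↔ χ k ≠ 0 := fun k => by rw [hT]; simp
  have : Fintype (Lt χ) := Fintype.ofFinite _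
  let _ : MulAction (ℂ ≃+* ℂ) (Lt χ) := actL hb
  have S := exists_Sy hIV hr hb
  have hsum := sum_muL (χ := χ)
  have hT10 : T.card ≤ 10 := by
    rw [hT, ← hsum]
    exact S.μs
  have hTe : Even T.card := by
    rw [hT, ← hsum, ← ZMod.natCast_eq_zero_iff_even]
    push_cast
    refine Finset.sum_involution (fun t _ => ngL hb t) (fun t _ => ?_) (fun t _ _ => S.ne t)
      (fun t _ => Finset.mem_univ _) (fun t _ => S.nn t)
    rw [S.μn t]
    exact CharTwo.add_self_eq_zero _
  -- the trace
  have htr : ∀ R : A.ZA, ∑ k ∈ T, χ k R = 0 := by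
    intro R
    have h1 := Finset.sum_fiberwise_of_maps_to (s := T)
      (t := Finset.univ.image (valL (χ := χ))) (g := χ) (fun k hk => by
        rw [Finset.mem_image]
        exact ⟨mkL χ k ((hTm k).1 hk), Finset.mem_univ _, rfl⟩) (fun k => χ k R)
    rw [← h1, Finset.sum_image fun x _ y _ h => valL_inj h]
    have h2 : ∀ t : Lt χ, ∑ k ∈ T with χ k = valL t, χ k R = (muL t : ℂ) * valL t R := by
      intro t
      rw [Finset.sum_congr rfl (g := fun _ => valL t R) fun k hk => by
        rw [(Finset.mem_filter.1 hk).2], Finset.sum_const, nsmul_eq_mul, muL_eq]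
      congr 3
      ext k
      simp only [Finset.mem_filter, Finset.mem_univ, true_and]
      constructor
      · intro h; exact h.2
      · intro h
        refine ⟨(hTm k).2 ?_, h⟩
        rw [h]
        exact t.2.1
    refine Finset.sum_involution (fun t _ => ngL hb t) (fun t _ => ?_) (fun t _ _ => S.ne t)
      (fun t _ => Finset.mem_univ _) (fun t _ => S.nn t)
    rw [h2, h2, S.μn t]
    have e : valL (ngL hb t) R = - valL t R := rfl
    rw [e]
    ring
  -- short relations
  have hshort : ∀ P : Finset (Fin n), P ⊆ T → Even P.card → P.card ≤ 4 →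
      (∀ R : A.ZA, (R : Module.End ℚ A.H1) ∈ A.LA → ∑ k ∈ P, χ k R = 0) →
      ∀ R : A.ZA, ∑ k ∈ P, χ k R = 0 := by
    intro P hPT hPe hP4 hPL R
    have h5 : P.card = 0 ∨ P.card = 2 ∨ P.card = 4 := by
      obtain ⟨m, hm⟩ := hPe
      omega
    rcases h5 with h5 | h5 | h5
    · rw [Finset.card_eq_zero] at h5
      rw [h5, Finset.sum_empty]
    · obtain ⟨p, q, hpq, rfl⟩ := Finset.card_eq_two.1 h5
      have hp := (hTm p).1 (hPT (by simp))
      have hq := (hTm q).1 (hPT (by simp))
      obtain ⟨j, hj⟩ := A.exists_neg hb q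
      have h1 : χ p = χ j := by
        refine separated' hIV hb hp (by rw [hj]; exact neg_ne_zero.2 hq) fun R hR => ?_
        have h2 := hPL R hR
        rw [Finset.sum_pair hpq] at h2
        rw [hj, LinearMap.neg_apply]
        linear_combination h2
      rw [Finset.sum_pair hpq, h1, hj, LinearMap.neg_apply]
      ring
    · have h6 := rel_trivial hI hIV hr hb (κ := P) (by rw [Fintype.card_coe, h5]) (fun k => k.1)
        Subtype.val_injective (fun k => (hTm _).1 (hPT k.2)) (fun R hR => by
          rw [← hPL R hR]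
          exact Finset.sum_coe_sort P (fun k => χ k R)) R
      rw [← h6]
      exact (Finset.sum_coe_sort P (fun k => χ k R)).symm
  -- the set of the basis vectors
  obtain ⟨P, hP⟩ : ∃ P : Finset (Fin n), P = Finset.univ.image I := ⟨_, rfl⟩
  have hPc : P.card = Fintype.card κ := by
    rw [hP, Finset.card_image_of_injective _ hinj, Finset.card_univ]
  have hPs : ∀ R : A.ZA, ∑ k, χ (I k) R = ∑ k ∈ P, χ k R := by
    intro R
    rw [hP, Finset.sum_image fun x _ y _ h => hinj h]
  have hPT : P ⊆ T := by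
    intro k hk
    rw [hP] at hk
    obtain ⟨l, -, rfl⟩ := Finset.mem_image.1 hk
    exact (hTm _).2 (h0 l)
  rw [hPs]
  by_cases hP4 : P.card ≤ 4
  · exact hshort P hPT (by rw [hPc]; exact hκ) hP4 (fun R hR => by rw [← hPs]; exact hL R hR) R
  · have hcard : (T \ P).card = T.card - P.card := Finset.card_sdiff_of_subset hPT
    have hle : P.card ≤ T.card := Finset.card_le_card hPT
    rw [← hPc] at hκ
    have hsplit : ∀ R : A.ZA, ∑ k ∈ T \ P, χ k R + ∑ k ∈ P, χ k R = 0 := fun R => by
      rw [Finset.sum_sdiff hPT, htr]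
    have h7 := hshort (T \ P) Finset.sdiff_subset (by
        rw [hcard]
        exact Even.tsub hTe hκ) (by
        obtain ⟨m, hm⟩ := hκ
        omega) (fun R hR => by
          have h8 := hsplit R
          rw [← hPs, hL R hR, add_zero] at h8
          exact h8) R
    have h8 := hsplit R
    rw [h7, zero_add] at h8
    exact h8

end Pool.Agent.H86.CM6
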