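import Pool.Agent.H86.CMLib.Y118.HV.Sym
import Pool.Agent.H86.CMLib.H204R3.SP.Lie

/-!
# The contraction of alternating forms in four variables on a symplectic space of dimension at most six
-/

set_option autoImplicit false
set_option linter.unusedSectionVars false

open Module Function

noncomputable section

namespace Pool.Agent.H86.CM6

open Pool.Agent.Y118.HV Pool.Agent.H204R3.SP

variable {W : Type} [AddCommGroup W] [Module ℚ W]

/-! ## The derivation of an alternating form -/

section Der

variable {κ : Type} [Fintype κ] [DecidableEq κ]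

theorem der_aux (Z : Module.End ℚ W) (v : κ → W) (k : κ) :
    (fun j => (if j = k then Z else LinearMap.id) (v j)) = update v k (Z (v k)) := by
  funext j
  by_cases h : j = k
  · subst h
    rw [if_pos rfl, update_self]
  · rw [if_neg h, update_of_ne h, LinearMap.id_apply]

/-- the derivation of an alternating form -/
def der (ψ : W [⋀^κ]→ₗ[ℚ] ℚ) (Z : Module.End ℚ W) : W [⋀^κ]→ₗ[ℚ] ℚ :=
  { (∑ k, ψ.toMultilinearMap.compLinearMap (fun j => if j = k then Z else LinearMap.id) :
      MultilinearMap ℚ (fun _ : κ => W) ℚ) with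
    map_eq_zero_of_eq' := by
      intro v i j hv hij
      change (∑ k, ψ.toMultilinearMap.compLinearMap
        (fun j => if j = k then Z else LinearMap.id) : MultilinearMap ℚ (fun _ : κ => W) ℚ) v = 0
      rw [sum_apply]
      simp only [MultilinearMap.compLinearMap_apply]
      have h0 : ∀ k, ψ.toMultilinearMap (fun j => (if j = k then Z else LinearMap.id) (v j)) =
          ψ (update v k (Z (v k))) := fun k => by rw [der_aux]; rfl
      simp only [h0]
      rw [← Finset.sum_sdiff (Finset.subset_univ {i, j}), Finset.sum_pair hij,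
        Finset.sum_eq_zero, zero_add]
      · have h1 : update v j (Z (v j)) = update v i (Z (v i)) ∘ Equiv.swap i j := by
          funext l
          rw [Function.comp_apply]
          by_cases hli : l = i
          · subst hli
            rw [Equiv.swap_apply_left, update_of_ne hij, update_of_ne (Ne.symm hij), hv]
          · by_cases hlj : l = j
            · subst hlj
              rw [Equiv.swap_apply_right, update_self, update_self, hv]
            · rw [Equiv.swap_apply_of_ne_of_ne hli hlj, update_of_ne hli, update_of_ne hlj]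
        rw [h1, ψ.map_swap _ hij, add_neg_cancel]
      · intro k hk
        simp only [Finset.mem_sdiff, Finset.mem_univ, true_and, Finset.mem_insert,
          Finset.mem_singleton, not_or] at hk
        refine ψ.map_eq_zero_of_eq _ ?_ hij
        rw [update_of_ne (Ne.symm hk.1), update_of_ne (Ne.symm hk.2), hv] }

theorem der_apply (ψ : W [⋀^κ]→ₗ[ℚ] ℚ) (Z : Module.End ℚ W) (v : κ → W) :
    der ψ Z v = ∑ k, ψ (update v k (Z (v k))) := by
  change (∑ k, ψ.toMultilinearMap.compLinearMap
    (fun j => if j = k then Z else LinearMap.id) : MultilinearMap ℚ (fun _ : κ => W) ℚ) v = _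
  rw [sum_apply]
  refine Finset.sum_congr rfl fun k _ => ?_
  rw [MultilinearMap.compLinearMap_apply, der_aux]
  rfl

end Der

theorem der_four (ψ : W [⋀^Fin 4]→ₗ[ℚ] ℚ) (Z : Module.End ℚ W) (a b c d : W) :
    der ψ Z ![a, b, c, d] = ψ ![Z a, b, c, d] + ψ ![a, Z b, c, d] + ψ ![a, b, Z c, d] +
      ψ ![a, b, c, Z d] := by
  rw [der_apply, Fin.sum_univ_four]
  congr 1
  · congr 1
    · congr 1
      · congr 1
        funext l
        fin_cases l <;> rfl
      · congr 1
        funext l
        fin_cases l <;> rfl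
    · congr 1
      funext l
      fin_cases l <;> rfl
  · congr 1
    funext l
    fin_cases l <;> rfl

/-! ## Dual bases -/

section Dual

variable {ι : Type} [Fintype ι] [DecidableEq ι] {ω : W →ₗ[ℚ] W →ₗ[ℚ] ℚ}

theorem expand_left {c c' : ι → W} (h : ∀ x y, ω (c x) (c' y) = if x = y then 1 else 0)
    (hs : ∀ v, v ∈ Submodule.span ℚ (Set.range c)) (v : W) : v = ∑ y, ω v (c' y) • c y := by
  induction hs v using Submodule.span_induction with
  | mem x hx =>
    obtain ⟨i, rfl⟩ := hx
    rw [Finset.sum_eq_single i]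
    · rw [h, if_pos rfl, one_smul]
    · intro j _ hj
      rw [h, if_neg (Ne.symm hj), zero_smul]
    · intro hi
      exact absurd (Finset.mem_univ i) hi
  | zero => simp
  | add x y _ _ hx hy =>
    conv_lhs => rw [hx, hy]
    rw [← Finset.sum_add_distrib]
    refine Finset.sum_congr rfl fun i _ => ?_
    rw [map_add, LinearMap.add_apply, add_smul]
  | smul a x _ hx =>
    conv_lhs => rw [hx]
    rw [Finset.smul_sum]
    refine Finset.sum_congr rfl fun i _ => ?_
    rw [map_smul, LinearMap.smul_apply, smul_eq_mul, mul_smul]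

theorem expand_right {c c' : ι → W} (h : ∀ x y, ω (c x) (c' y) = if x = y then 1 else 0)
    (hs : ∀ v, v ∈ Submodule.span ℚ (Set.range c')) (v : W) : v = ∑ y, ω (c y) v • c' y := by
  have h1 := expand_left (ω := ω.flip) (c := c') (c' := c) (fun x y => by
    rw [LinearMap.flip_apply, h]
    by_cases hxy : x = y
    · rw [if_pos hxy, if_pos hxy.symm]
    · rw [if_neg hxy, if_neg (Ne.symm hxy)]) hs v
  exact h1

/-- the invariance of the contraction -/
theorem contr_inv {c c' : ι → W} (h : ∀ x y, ω (c x) (c' y) = if x = y then 1 else 0)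
    (hs : ∀ v, v ∈ Submodule.span ℚ (Set.range c)) (hs' : ∀ v, v ∈ Submodule.span ℚ (Set.range c'))
    {Z : Module.End ℚ W} (hZ : ∀ u v, ω (Z u) v + ω u (Z v) = 0) (B : W →ₗ[ℚ] W →ₗ[ℚ] ℚ) :
    ∑ x, (B (Z (c x)) (c' x) + B (c x) (Z (c' x))) = 0 := by
  have h1 : ∀ x, B (Z (c x)) (c' x) = ∑ y, ω (Z (c x)) (c' y) * B (c y) (c' x) := by
    intro x
    conv_lhs => rw [expand_left h hs (Z (c x))]
    rw [map_sum, LinearMap.sum_apply]
    refine Finset.sum_congr rfl fun y _ => ?_
    rw [map_smul, LinearMap.smul_apply, smul_eq_mul]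
  have h2 : ∀ x, B (c x) (Z (c' x)) = ∑ y, ω (c y) (Z (c' x)) * B (c x) (c' y) := by
    intro x
    conv_lhs => rw [expand_right h hs' (Z (c' x))]
    rw [map_sum]
    refine Finset.sum_congr rfl fun y _ => ?_
    rw [map_smul, smul_eq_mul]
  simp only [h1, h2, Finset.sum_add_distrib]
  rw [Finset.sum_comm (f := fun x y => ω (c y) (Z (c' x)) * B (c x) (c' y)),
    ← Finset.sum_add_distrib]
  refine Finset.sum_eq_zero fun x _ => ?_
  rw [← Finset.sum_add_distrib]
  refine Finset.sum_eq_zero fun y _ => ?_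
  rw [← add_mul, hZ, zero_mul]

end Dual

/-! ## Symplectic bases -/

section Symp

variable {ω : W →ₗ[ℚ] W →ₗ[ℚ] ℚ} {m : ℕ} {c : Fin m × Fin 2 → W}

/-- the dual basis -/
def dl (c : Fin m × Fin 2 → W) (x : Fin m × Fin 2) : W :=
  if x.2 = 0 then c (x.1, 1) else -c (x.1, 0)

theorem dl_dual (hc : ∀ x y, ω (c x) (c y) = Jst x y) (x y : Fin m × Fin 2) :
    ω (c x) (dl c y) = if x = y then 1 else 0 := by
  obtain ⟨i, p⟩ := x
  obtain ⟨j, q⟩ := y
  unfold dl
  by_cases h : i = j
  · subst h
    fin_cases p <;> fin_cases q <;> simp [hc, Jst]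
  · have h' : (i, p) ≠ (j, q) := fun h2 => h (congrArg Prod.fst h2)
    rw [if_neg h']
    fin_cases q <;> simp [hc, Jst, h]

theorem symp_li (hc : ∀ x y, ω (c x) (c y) = Jst x y) : LinearIndependent ℚ c := by
  rw [Fintype.linearIndependent_iff]
  intro a ha x
  have h1 : ω (∑ y, a y • c y) (dl c x) = 0 := by rw [ha, map_zero, LinearMap.zero_apply]
  rw [map_sum, LinearMap.sum_apply, Finset.sum_eq_single x] at h1
  · rwa [map_smul, LinearMap.smul_apply, dl_dual hc, if_pos rfl, smul_eq_mul, mul_one] at h1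
  · intro y _ hy
    rw [map_smul, LinearMap.smul_apply, dl_dual hc, if_neg hy, smul_zero]
  · intro h
    exact absurd (Finset.mem_univ x) h

theorem symp_span [FiniteDimensional ℚ W] (hc : ∀ x y, ω (c x) (c y) = Jst x y)
    (hdim : finrank ℚ W = 2 * m) : Submodule.span ℚ (Set.range c) = ⊤ :=
  (symp_li hc).span_eq_top_of_card_eq_finrank' (by
    rw [Fintype.card_prod, Fintype.card_fin, Fintype.card_fin, hdim, mul_comm])

theorem symp_span' (hs : Submodule.span ℚ (Set.range c) = ⊤) :
    Submodule.span ℚ (Set.range (dl c)) = ⊤ := by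
  rw [eq_top_iff, ← hs, Submodule.span_le]
  rintro _ ⟨⟨i, p⟩, rfl⟩
  by_cases hp : p = 0
  · subst hp
    have h1 : c (i, 0) = -dl c (i, 1) := by
      unfold dl
      simp
    rw [SetLike.mem_coe, h1]
    exact Submodule.neg_mem _ (Submodule.subset_span ⟨_, rfl⟩)
  · have hp1 : p = 1 := by omega
    subst hp1
    have h1 : c (i, 1) = dl c (i, 0) := by
      unfold dl
      simp
    rw [SetLike.mem_coe, h1]
    exact Submodule.subset_span ⟨_, rfl⟩

/-- the invariance of the contraction, for alternating forms -/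
theorem contr_alt [FiniteDimensional ℚ W] (hc : ∀ x y, ω (c x) (c y) = Jst x y)
    (hdim : finrank ℚ W = 2 * m) {Z : Module.End ℚ W} (hZ : ∀ u v, ω (Z u) v + ω u (Z v) = 0)
    (B : W →ₗ[ℚ] W →ₗ[ℚ] ℚ) (hB : ∀ u v, B u v = -B v u) :
    ∑ i, (B (Z (c (i, 0))) (c (i, 1)) + B (c (i, 0)) (Z (c (i, 1)))) = 0 := by
  have hs := symp_span hc hdim
  have h1 := contr_inv (dl_dual hc) (fun v => by rw [hs]; trivial)
    (fun v => by rw [symp_span' hs]; trivial) hZ B
  rw [Fintype.sum_prod_type] at h1
  simp only [Fin.sum_univ_two] at h1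
  have e0 : ∀ i, dl c (i, 0) = c (i, 1) := fun i => by unfold dl; simp
  have e1 : ∀ i, dl c (i, 1) = -c (i, 0) := fun i => by unfold dl; simp
  simp only [e0, e1, map_neg] at h1
  have h2 : ∀ i, (B (Z (c (i, 0))) (c (i, 1)) + B (c (i, 0)) (Z (c (i, 1))) +
      (-B (Z (c (i, 1))) (c (i, 0)) + -B (c (i, 1)) (Z (c (i, 0))))) =
      2 * (B (Z (c (i, 0))) (c (i, 1)) + B (c (i, 0)) (Z (c (i, 1)))) := by
    intro i
    rw [hB (Z (c (i, 1))) (c (i, 0)), hB (c (i, 1)) (Z (c (i, 0)))]
    ring
  simp only [h2] at h1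
  rw [← Finset.mul_sum] at h1
  exact (mul_eq_zero.1 h1).resolve_left two_ne_zero

end Symp

/-! ## The injectivity of the contraction -/

theorem vanish_of_eq (ψ : W [⋀^Fin 4]→ₗ[ℚ] ℚ) {v : Fin 4 → W} (i j : Fin 4) (hij : i ≠ j)
    (h : v i = v j) : ψ v = 0 := ψ.map_eq_zero_of_eq v h hij

theorem contr_inj [FiniteDimensional ℚ W] {m : ℕ} (hm : m ≤ 3) {c : Fin m × Fin 2 → W}
    (hs : Submodule.span ℚ (Set.range c) = ⊤) (hli : LinearIndependent ℚ c)
    (ψ : W [⋀^Fin 4]→ₗ[ℚ] ℚ)
    (h : ∀ x y, ∑ i, ψ ![c (i, 0), c (i, 1), x, y] = 0) : ψ = 0 := by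
  classical
  -- the coefficients of two pairs
  have hsym : ∀ i j, ψ ![c (i, 0), c (i, 1), c (j, 0), c (j, 1)] =
      ψ ![c (j, 0), c (j, 1), c (i, 0), c (i, 1)] := by
    intro i j
    have h1 := ψ.map_perm ![c (i, 0), c (i, 1), c (j, 0), c (j, 1)]
      ((Equiv.swap (0 : Fin 4) 2) * (Equiv.swap 1 3))
    have h2 : (![c (i, 0), c (i, 1), c (j, 0), c (j, 1)] ∘
        ((Equiv.swap (0 : Fin 4) 2) * (Equiv.swap 1 3) : Equiv.Perm (Fin 4))) =
        ![c (j, 0), c (j, 1), c (i, 0), c (i, 1)] := by
      funext l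
      fin_cases l <;> rfl
    have h3 : Equiv.Perm.sign ((Equiv.swap (0 : Fin 4) 2) * (Equiv.swap 1 3)) = 1 := by decide
    rw [h2, h3, one_smul] at h1
    exact h1.symm
  have hdiag : ∀ i, ψ ![c (i, 0), c (i, 1), c (i, 0), c (i, 1)] = 0 := fun i =>
    vanish_of_eq ψ 0 2 (by decide) rfl
  have hA : ∀ i j, ψ ![c (i, 0), c (i, 1), c (j, 0), c (j, 1)] = 0 := by
    obtain ⟨a, ha⟩ : ∃ a : Fin m → Fin m → ℚ, ∀ i j,
        ψ ![c (i, 0), c (i, 1), c (j, 0), c (j, 1)] = a i j := ⟨_, fun _ _ => rfl⟩
    have h1 : ∀ j, ∑ i, a i j = 0 := fun j => by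
      simp only [← ha]
      exact h _ _
    have h2 : ∀ i j, a i j = a j i := fun i j => by rw [← ha, ← ha, hsym]
    have h3 : ∀ i, a i i = 0 := fun i => by rw [← ha, hdiag]
    intro i j
    rw [ha]
    clear ha hsym hdiag h hs hli
    interval_cases m
    · exact i.elim0
    · rw [Subsingleton.elim j i, h3]
    · have e := h1 0
      have e' := h1 1
      rw [Fin.sum_univ_two] at e e'
      rw [h3] at e e'
      fin_cases i <;> fin_cases j
      · exact h3 _
      · change a 0 1 = 0
        linarith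
      · change a 1 0 = 0
        linarith
      · exact h3 _
    · have e0 := h1 0
      have e1 := h1 1
      have e2 := h1 2
      rw [Fin.sum_univ_three] at e0 e1 e2
      rw [h3] at e0 e1 e2
      have s1 := h2 0 1
      have s2 := h2 0 2
      have s3 := h2 1 2
      fin_cases i <;> fin_cases j
      · exact h3 _
      · change a 0 1 = 0
        linarith
      · change a 0 2 = 0
        linarith
      · change a 1 0 = 0
        linarith
      · exact h3 _
      · change a 1 2 = 0
        linarith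
      · change a 2 0 = 0
        linarith
      · change a 2 1 = 0
        linarith
      · exact h3 _
  -- one pair
  have hG : ∀ i (x y : Fin m × Fin 2), ψ ![c (i, 0), c (i, 1), c x, c y] = 0 := by
    intro i x y
    obtain ⟨j, p⟩ := x
    obtain ⟨k, q⟩ := y
    have hfin : ∀ p : Fin 2, p = 0 ∨ p = 1 := fun p => by omega
    by_cases hji : j = i
    · subst hji
      rcases hfin p with rfl | rfl
      · exact vanish_of_eq ψ 0 2 (by decide) rfl
      · exact vanish_of_eq ψ 1 2 (by decide) rfl
    by_cases hki : k = i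
    · subst hki
      rcases hfin q with rfl | rfl
      · exact vanish_of_eq ψ 0 3 (by decide) rfl
      · exact vanish_of_eq ψ 1 3 (by decide) rfl
    by_cases hjk : j = k
    · subst hjk
      rcases hfin p with rfl | rfl <;> rcases hfin q with rfl | rfl
      · exact vanish_of_eq ψ 2 3 (by decide) rfl
      · exact hA i j
      · have h1 := ψ.map_swap ![c (i, 0), c (i, 1), c (j, 0), c (j, 1)]
          (show (2 : Fin 4) ≠ 3 by decide)
        rw [hA, neg_zero] at h1
        rw [← h1]
        congr 1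
        funext l
        fin_cases l <;> rfl
      · exact vanish_of_eq ψ 2 3 (by decide) rfl
    · have h1 := h (c (j, p)) (c (k, q))
      rw [Finset.sum_eq_single i] at h1
      · exact h1
      · intro l _ hl
        have hl2 : l = j ∨ l = k := by
          have := l.2
          have := i.2
          have := j.2
          have := k.2
          have e1 : (l : ℕ) ≠ i := fun h => hl (Fin.ext h)
          have e2 : (j : ℕ) ≠ i := fun h => hji (Fin.ext h)
          have e3 : (k : ℕ) ≠ i := fun h => hki (Fin.ext h)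
          have e4 : (j : ℕ) ≠ k := fun h => hjk (Fin.ext h)
          have : (l : ℕ) = j ∨ (l : ℕ) = k := by omega
          rcases this with h | h
          · exact Or.inl (Fin.ext h)
          · exact Or.inr (Fin.ext h)
        rcases hl2 with rfl | rfl
        · rcases hfin p with rfl | rfl
          · exact vanish_of_eq ψ 0 2 (by decide) rfl
          · exact vanish_of_eq ψ 1 2 (by decide) rfl
        · rcases hfin q with rfl | rfl
          · exact vanish_of_eq ψ 0 3 (by decide) rfl
          · exact vanish_of_eq ψ 1 3 (by decide) rfl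
      · intro hi
        exact absurd (Finset.mem_univ i) hi
  -- all
  let bb : Basis (Fin m × Fin 2) ℚ W := Basis.mk hli (by rw [hs])
  have hbb : ∀ x, bb x = c x := fun x => by rw [Basis.mk_apply]
  refine Basis.ext_alternating bb fun v hv => ?_
  rw [AlternatingMap.zero_apply]
  simp only [hbb]
  obtain ⟨p, q, hpq, hv1⟩ : ∃ p q : Fin 4, p ≠ q ∧ (v p).1 = (v q).1 :=
    Fintype.exists_ne_map_eq_of_card_lt (fun k => (v k).1) (by
      rw [Fintype.card_fin, Fintype.card_fin]
      omega)
  have hv2 : (v p).2 ≠ (v q).2 := fun h => hpq (hv (Prod.ext hv1 h))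
  have hmain : ∀ p q : Fin 4, p ≠ q → (v p).1 = (v q).1 → (v p).2 = 0 → (v q).2 = 1 →
      ψ (fun i => c (v i)) = 0 := by
    intro p q hpq hv1 hp hq
    have hex : ∀ p q : Fin 4, p ≠ q → ∃ σ : Equiv.Perm (Fin 4), σ 0 = p ∧ σ 1 = q := by decide
    obtain ⟨σ, hσ0, hσ1⟩ := hex p q hpq
    have h1 := ψ.map_perm (fun i => c (v i)) σ
    have h2 : ((fun i => c (v i)) ∘ σ) = ![c ((v p).1, 0), c ((v p).1, 1), c (v (σ 2)), c (v (σ 3))] := by
      funext l
      fin_cases l
      · change c (v (σ 0)) = c ((v p).1, 0)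
        rw [hσ0, ← hp]
      · change c (v (σ 1)) = c ((v p).1, 1)
        rw [hσ1, hv1, ← hq]
      · rfl
      · rfl
    rw [h2, hG] at h1
    rcases Int.units_eq_one_or (Equiv.Perm.sign σ) with hs | hs
    · rw [hs, one_smul] at h1
      exact h1.symm
    · rw [hs] at h1
      have h3 : (-1 : ℤˣ) • ψ (fun i => c (v i)) = -ψ (fun i => c (v i)) := by
        rw [Units.smul_def]
        simp
      rw [h3] at h1
      linarith
  by_cases hp : (v p).2 = 0
  · exact hmain p q hpq hv1 hp (by omega)
  · exact hmain q p (Ne.symm hpq) hv1.symm (by omega) (by omega)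

/-- **The four-forms**: if all bilinear forms killed by `S` are killed by `Z` then the same holds for
the alternating forms in four variables, in dimension at most six. -/
theorem four_part [FiniteDimensional ℚ W] {ω : W →ₗ[ℚ] W →ₗ[ℚ] ℚ} (halt : ∀ v, ω v v = 0)
    (hnd : ∀ u, (∀ v, ω u v = 0) → u = 0) {m : ℕ} (hdim : finrank ℚ W = 2 * m) (hm : m ≤ 3)
    {S : Set (Module.End ℚ W)} (hS : ∀ X ∈ S, ∀ u v, ω (X u) v + ω u (X v) = 0)
    {Z : Module.End ℚ W} (hZ : ∀ u v, ω (Z u) v + ω u (Z v) = 0)
    (hbil : ∀ B : W →ₗ[ℚ] W →ₗ[ℚ] ℚ, (∀ X ∈ S, ∀ u v, B (X u) v + B u (X v) = 0) →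
      ∀ u v, B (Z u) v + B u (Z v) = 0)
    (ψ : W [⋀^Fin 4]→ₗ[ℚ] ℚ) (hψ : ∀ X ∈ S, der ψ X = 0) : der ψ Z = 0 := by
  classical
  obtain ⟨c, hc⟩ := exists_sympl m W ω halt hnd hdim
  have hs := symp_span hc hdim
  -- the bilinear forms
  let Bl : W → W → (W →ₗ[ℚ] W →ₗ[ℚ] ℚ) := fun x y =>
    LinearMap.mk₂ ℚ (fun a b => ψ ![a, b, x, y])
      (fun a a' b => by
        have := ψ.map_update_add ![0, b, x, y] 0 a a'
        have e : ∀ z, update ![0, b, x, y] 0 z = ![z, b, x, y] := fun z => by
          funext l; fin_cases l <;> rfl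
        rwa [e, e, e] at this)
      (fun r a b => by
        have := ψ.map_update_smul ![0, b, x, y] 0 r a
        have e : ∀ z, update ![0, b, x, y] 0 z = ![z, b, x, y] := fun z => by
          funext l; fin_cases l <;> rfl
        rwa [e, e] at this)
      (fun a b b' => by
        have := ψ.map_update_add ![a, 0, x, y] 1 b b'
        have e : ∀ z, update ![a, 0, x, y] 1 z = ![a, z, x, y] := fun z => by
          funext l; fin_cases l <;> rfl
        rwa [e, e, e] at this)
      (fun r a b => by
        have := ψ.map_update_smul ![a, 0, x, y] 1 r b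
        have e : ∀ z, update ![a, 0, x, y] 1 z = ![a, z, x, y] := fun z => by
          funext l; fin_cases l <;> rfl
        rwa [e, e] at this)
  have hBl : ∀ x y a b, Bl x y a b = ψ ![a, b, x, y] := fun x y a b => rfl
  have hBa : ∀ x y a b, Bl x y a b = -Bl x y b a := by
    intro x y a b
    rw [hBl, hBl]
    have h1 := ψ.map_swap ![b, a, x, y] (show (0 : Fin 4) ≠ 1 by decide)
    rw [← h1]
    congr 1
    funext l
    fin_cases l <;> rfl
  -- the contraction
  let C : W →ₗ[ℚ] W →ₗ[ℚ] ℚ :=
    LinearMap.mk₂ ℚ (fun x y => ∑ i, ψ ![c (i, 0), c (i, 1), x, y])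
      (fun x x' y => by
        rw [← Finset.sum_add_distrib]
        refine Finset.sum_congr rfl fun i _ => ?_
        have := ψ.map_update_add ![c (i, 0), c (i, 1), 0, y] 2 x x'
        have e : ∀ z, update ![c (i, 0), c (i, 1), 0, y] 2 z = ![c (i, 0), c (i, 1), z, y] :=
          fun z => by funext l; fin_cases l <;> rfl
        rwa [e, e, e] at this)
      (fun r x y => by
        rw [Finset.smul_sum]
        refine Finset.sum_congr rfl fun i _ => ?_
        have := ψ.map_update_smul ![c (i, 0), c (i, 1), 0, y] 2 r x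
        have e : ∀ z, update ![c (i, 0), c (i, 1), 0, y] 2 z = ![c (i, 0), c (i, 1), z, y] :=
          fun z => by funext l; fin_cases l <;> rfl
        rwa [e, e] at this)
      (fun x y y' => by
        rw [← Finset.sum_add_distrib]
        refine Finset.sum_congr rfl fun i _ => ?_
        have := ψ.map_update_add ![c (i, 0), c (i, 1), x, 0] 3 y y'
        have e : ∀ z, update ![c (i, 0), c (i, 1), x, 0] 3 z = ![c (i, 0), c (i, 1), x, z] :=
          fun z => by funext l; fin_cases l <;> rfl
        rwa [e, e, e] at this)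
      (fun r x y => by
        rw [Finset.smul_sum]
        refine Finset.sum_congr rfl fun i _ => ?_
        have := ψ.map_update_smul ![c (i, 0), c (i, 1), x, 0] 3 r y
        have e : ∀ z, update ![c (i, 0), c (i, 1), x, 0] 3 z = ![c (i, 0), c (i, 1), x, z] :=
          fun z => by funext l; fin_cases l <;> rfl
        rwa [e, e] at this)
  have hC : ∀ x y, C x y = ∑ i, ψ ![c (i, 0), c (i, 1), x, y] := fun x y => rfl
  have key : ∀ X : Module.End ℚ W, (∀ u v, ω (X u) v + ω u (X v) = 0) → ∀ x y,
      ∑ i, der ψ X ![c (i, 0), c (i, 1), x, y] = C (X x) y + C x (X y) := by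
    intro X hX x y
    have h1 := contr_alt hc hdim hX (Bl x y) (hBa x y)
    simp only [hBl] at h1
    simp only [der_four, hC]
    simp only [Finset.sum_add_distrib] at h1 ⊢
    linarith
  have hCS : ∀ X ∈ S, ∀ u v, C (X u) v + C u (X v) = 0 := by
    intro X hX u v
    rw [← key X (hS X hX), hψ X hX]
    simp
  have hCZ := hbil C hCS
  refine contr_inj hm hs (symp_li hc) _ fun x y => ?_
  rw [key Z hZ, hCZ]

end Pool.Agent.H86.CM6
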