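import Pool.Agent.H86.CM6.D5
import Pool.Agent.H86.CM6.E1
import Pool.Agent.H86.CMLib.W516.DRMain

/-!
# Abelian varieties whose factors of type IV have complex multiplication: the classes of degree four
-/

set_option autoImplicit false
set_option linter.unusedSectionVars false

open Module Function Polynomial TensorProduct

noncomputable section

namespace Pool.Agent.H86.CM6

open Pool.Agent.Y102 Pool.Agent.W516.DR Pool.Agent.H204R3.GP Pool.Agent.W516.KC
  Pool.Agent.H204R3.SP

theorem even_of_alt {N : Type} [AddCommGroup N] [Module ℚ N]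
    [FiniteDimensional ℚ N] (β : N →ₗ[ℚ] N →ₗ[ℚ] ℚ) (ha : ∀ u v, β u v = -β v u)
    (hn : ∀ u, (∀ v, β u v = 0) → u = 0) : Even (finrank ℚ N) := by
  obtain ⟨b, -⟩ : ∃ b : Basis (Fin (finrank ℚ N)) ℚ N, b = Module.finBasis ℚ N := ⟨_, rfl⟩
  obtain ⟨A, hAdef⟩ : ∃ A, A = LinearMap.toMatrix₂ b b β := ⟨_, rfl⟩
  have hA : A.transpose = -A := by
    ext i j
    rw [Matrix.transpose_apply, Matrix.neg_apply, hAdef, LinearMap.toMatrix₂_apply,
      LinearMap.toMatrix₂_apply, ha]
  have hnd : β.Nondegenerate := by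
    refine ⟨fun u hu => hn u hu, fun u hu => hn u fun v => ?_⟩
    rw [ha, hu, neg_zero]
  have hdet : A.det ≠ 0 := by
    rw [hAdef]
    exact (LinearMap.nondegenerate_iff_det_ne_zero b).1 hnd
  have h1 : A.det = (-1) ^ (finrank ℚ N) * A.det := by
    conv_lhs => rw [← Matrix.det_transpose, hA, Matrix.det_neg, Fintype.card_fin]
  by_contra hodd
  rw [Nat.not_even_iff_odd] at hodd
  rw [hodd.neg_one_pow] at h1
  apply hdet
  linear_combination (1 / 2) * h1

variable {g : ℕ} {A : AbVar g}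

/-! ## Linear and bilinear forms -/

theorem om_surj (f : A.H1 →ₗ[ℚ] ℚ) : ∃ w, A.om w = f := by
  have hinj : Function.Injective A.om := by
    rw [injective_iff_map_eq_zero]
    intro u hu
    exact A.om_nondeg fun v => by rw [hu, LinearMap.zero_apply]
  have h1 : Function.Surjective A.om :=
    (LinearMap.injective_iff_surjective_of_finrank_eq_finrank
      (Subspace.dual_finrank_eq (K := ℚ) (V := A.H1)).symm).1 hinj
  exact h1 f

theorem bil_rep (B : A.H1 →ₗ[ℚ] A.H1 →ₗ[ℚ] ℚ) :
    ∃ Q : Module.End ℚ A.H1, ∀ u v, B u v = A.om (Q u) v := by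
  have hinj : Function.Injective A.om := by
    rw [injective_iff_map_eq_zero]
    intro u hu
    exact A.om_nondeg fun v => by rw [hu, LinearMap.zero_apply]
  let e : A.H1 ≃ₗ[ℚ] (A.H1 →ₗ[ℚ] ℚ) := LinearEquiv.ofBijective A.om ⟨hinj, om_surj⟩
  refine ⟨e.symm.toLinearMap ∘ₗ B, fun u v => ?_⟩
  have h1 : A.om (e.symm (B u)) = B u := e.apply_symm_apply (B u)
  rw [LinearMap.comp_apply, LinearEquiv.coe_coe, h1]

/-- The linear forms killed by the Lie algebra are zero. -/
theorem lin_kill {f : A.H1 →ₗ[ℚ] ℚ} (h : ∀ X ∈ A.LA, ∀ u, f (X u) = 0) : f = 0 := by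
  obtain ⟨w, rfl⟩ := om_surj f
  have h1 : w = 0 := by
    refine no_inv fun X hX => ?_
    refine A.om_nondeg fun u => ?_
    have h2 := A.LA_skew hX w u
    rw [h X hX u, add_zero] at h2
    exact h2
  rw [h1, map_zero]

/-- The bilinear forms killed by the Lie algebra are killed by the Lie algebra of the group of
Lefschetz. -/
theorem bil_kill {B : A.H1 →ₗ[ℚ] A.H1 →ₗ[ℚ] ℚ}
    (hB : ∀ X ∈ A.LA, ∀ u v, B (X u) v + B u (X v) = 0) {Z : Module.End ℚ A.H1} (hZ : Lf A Z)
    (u v : A.H1) : B (Z u) v + B u (Z v) = 0 := by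
  obtain ⟨Q, hQ⟩ := bil_rep B
  have h1 : Q ∈ A.EA := by
    intro X hX
    refine LinearMap.ext fun u => ?_
    rw [← sub_eq_zero]
    refine A.om_nondeg fun v => ?_
    have h2 := hB X hX u v
    rw [hQ, hQ] at h2
    have h3 := A.LA_skew hX (Q u) v
    rw [map_sub, LinearMap.sub_apply, Module.End.mul_apply, Module.End.mul_apply]
    linear_combination h3 - h2
  rw [hQ, hQ]
  have h2 : Q (Z u) = Z (Q u) := congrArg (fun T : Module.End ℚ A.H1 => T u) (hZ.2 Q h1).symm
  rw [h2]
  exact hZ.1 _ _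

/-! ## Forms in few variables -/

section Few

variable {κ : Type} [Fintype κ] [DecidableEq κ]

theorem few_one {N : MultilinearMap ℚ (fun _ : κ => A.H1) ℚ} {T : Finset κ} (hT : T.card = 1)
    (h : ∀ X ∈ A.LA, ∀ v, ∑ k ∈ T, N (update v k (X (v k))) = 0) : N = 0 := by
  obtain ⟨p, rfl⟩ := Finset.card_eq_one.1 hT
  refine MultilinearMap.ext fun v => ?_
  have h1 : N.toLinearMap v p = 0 := by
    refine lin_kill fun X hX u => ?_
    have h2 := h X hX (update v p u)
    rw [Finset.sum_singleton, update_self, update_idem] at h2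
    exact h2
  have h2 := congrArg (fun F : A.H1 →ₗ[ℚ] ℚ => F (v p)) h1
  simp only [MultilinearMap.toLinearMap_apply, update_eq_self] at h2
  exact h2

theorem few_two {N : MultilinearMap ℚ (fun _ : κ => A.H1) ℚ} {T : Finset κ} (hT : T.card = 2)
    (h : ∀ X ∈ A.LA, ∀ v, ∑ k ∈ T, N (update v k (X (v k))) = 0) {Z : Module.End ℚ A.H1}
    (hZ : Lf A Z) (v : κ → A.H1) : ∑ k ∈ T, N (update v k (Z (v k))) = 0 := by
  obtain ⟨p, q, hpq, rfl⟩ := Finset.card_eq_two.1 hT
  let B : A.H1 →ₗ[ℚ] A.H1 →ₗ[ℚ] ℚ := LinearMap.mk₂ ℚ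
    (fun x y => N (update (update v p x) q y))
    (fun x x' y => by
      rw [update_comm hpq, update_comm hpq, update_comm hpq, MultilinearMap.map_update_add])
    (fun r x y => by
      rw [update_comm hpq, update_comm hpq, MultilinearMap.map_update_smul])
    (fun x y y' => by rw [MultilinearMap.map_update_add])
    (fun r x y => by rw [MultilinearMap.map_update_smul])
  have hB : ∀ x y, B x y = N (update (update v p x) q y) := fun x y => rfl
  have key : ∀ (X : Module.End ℚ A.H1) x y,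
      ∑ k ∈ ({p, q} : Finset κ), N (update (update (update v p x) q y) k
        (X ((update (update v p x) q y) k))) = B (X x) y + B x (X y) := by
    intro X x y
    rw [Finset.sum_pair hpq, hB, hB]
    congr 1
    · rw [update_of_ne hpq, update_self, update_comm (Ne.symm hpq), update_idem,
        update_comm hpq]
    · rw [update_self, update_idem]
  have h1 := bil_kill (B := B) (fun X hX x y => by rw [← key, h X hX]) hZ (v p) (v q)
  rw [← key] at h1
  rw [update_eq_self, update_eq_self] at h1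
  exact h1

end Few

/-! ## The splitting of the forms -/

section Split

variable {κ : Type} [Fintype κ] [DecidableEq κ] {ε : Module.End ℚ A.H1}

/-- the part of a form -/
def prt (ε : Module.End ℚ A.H1) (φ : MultilinearMap ℚ (fun _ : κ => A.H1) ℚ) (S : Finset κ) :
    MultilinearMap ℚ (fun _ : κ => A.H1) ℚ :=
  φ.compLinearMap (fun k => if k ∈ S then ε else 1 - ε)

theorem prt_apply (φ : MultilinearMap ℚ (fun _ : κ => A.H1) ℚ) (S : Finset κ) (v : κ → A.H1) :
    prt ε φ S v = φ (fun k => (if k ∈ S then ε else 1 - ε) (v k)) := rfl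

theorem sum_prt (φ : MultilinearMap ℚ (fun _ : κ => A.H1) ℚ) (v : κ → A.H1) :
    φ v = ∑ S : Finset κ, prt ε φ S v := by
  have h1 : v = (fun k => ε (v k)) + fun k => (1 - ε) (v k) := by
    funext k
    rw [Pi.add_apply, LinearMap.sub_apply, Module.End.one_apply]
    abel
  conv_lhs => rw [h1, MultilinearMap.map_add_univ]
  refine Finset.sum_congr rfl fun S _ => ?_
  rw [prt_apply]
  congr 1
  funext k
  by_cases hk : k ∈ S
  · rw [Finset.piecewise_eq_of_mem _ _ _ hk, if_pos hk]
  · rw [Finset.piecewise_eq_of_notMem _ _ _ hk, if_neg hk]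

theorem comm_up {φ : MultilinearMap ℚ (fun _ : κ => A.H1) ℚ} {S : Finset κ}
    {X : Module.End ℚ A.H1} (hX : X * ε = ε * X) (v : κ → A.H1) (k : κ) :
    prt ε φ S (update v k (X (v k))) =
      φ (update (fun k => (if k ∈ S then ε else 1 - ε) (v k)) k
        (X ((if k ∈ S then ε else 1 - ε) (v k)))) := by
  have hX' : ∀ w, ε (X w) = X (ε w) := fun w =>
    congrArg (fun T : Module.End ℚ A.H1 => T w) hX.symm
  rw [prt_apply]
  congr 1
  funext j
  by_cases hj : j = k
  · subst hj
    rw [update_self, update_self]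
    split_ifs
    · exact hX' _
    · rw [LinearMap.sub_apply, LinearMap.sub_apply, Module.End.one_apply, Module.End.one_apply,
        map_sub, hX']
  · rw [update_of_ne hj, update_of_ne hj]

theorem kills_prt {φ : MultilinearMap ℚ (fun _ : κ => A.H1) ℚ} (S : Finset κ)
    {X : Module.End ℚ A.H1} (hX : X * ε = ε * X) (h : Kills X φ) : Kills X (prt ε φ S) := by
  intro v
  simp only [comm_up hX]
  exact h _

theorem kills_of_prt {φ : MultilinearMap ℚ (fun _ : κ => A.H1) ℚ}
    {X : Module.End ℚ A.H1} (h : ∀ S, Kills X (prt ε φ S)) : Kills X φ := by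
  intro v
  have h1 : ∀ k, φ (update v k (X (v k))) = ∑ S : Finset κ, prt ε φ S (update v k (X (v k))) :=
    fun k => sum_prt φ _
  simp only [h1]
  rw [Finset.sum_comm]
  exact Finset.sum_eq_zero fun S _ => h S v

variable (hε : A.Idem ε) (h0 : ∀ R ∈ A.ZA, R * ε = 0)

include hε

theorem prt_zero_in (φ : MultilinearMap ℚ (fun _ : κ => A.H1) ℚ) {S : Finset κ} {k : κ}
    (hk : k ∈ S) (v : κ → A.H1) (w : A.H1) : prt ε φ S (update v k ((1 - ε) w)) = 0 := by
  rw [prt_apply]
  refine φ.map_coord_zero k ?_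
  rw [if_pos hk, update_self, ← Module.End.mul_apply, mul_sub, mul_one, hε.idem, sub_self,
    LinearMap.zero_apply]

theorem prt_zero_out (φ : MultilinearMap ℚ (fun _ : κ => A.H1) ℚ) {S : Finset κ} {k : κ}
    (hk : k ∉ S) (v : κ → A.H1) (w : A.H1) : prt ε φ S (update v k (ε w)) = 0 := by
  rw [prt_apply]
  refine φ.map_coord_zero k ?_
  rw [if_neg hk, update_self, ← Module.End.mul_apply, sub_mul, one_mul, hε.idem, sub_self,
    LinearMap.zero_apply]

theorem prt_in (φ : MultilinearMap ℚ (fun _ : κ => A.H1) ℚ) {S : Finset κ} {k : κ}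
    (hk : k ∈ S) (v : κ → A.H1) (w : A.H1) :
    prt ε φ S (update v k (ε w)) = prt ε φ S (update v k w) := by
  have h1 : w = ε w + (1 - ε) w := by
    rw [LinearMap.sub_apply, Module.End.one_apply]
    abel
  conv_rhs => rw [h1, MultilinearMap.map_update_add, prt_zero_in hε φ hk, add_zero]

theorem prt_out (φ : MultilinearMap ℚ (fun _ : κ => A.H1) ℚ) {S : Finset κ} {k : κ}
    (hk : k ∉ S) (v : κ → A.H1) (w : A.H1) :
    prt ε φ S (update v k ((1 - ε) w)) = prt ε φ S (update v k w) := by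
  have h1 : w = ε w + (1 - ε) w := by
    rw [LinearMap.sub_apply, Module.End.one_apply]
    abel
  conv_rhs => rw [h1, MultilinearMap.map_update_add, prt_zero_out hε φ hk, zero_add]

include h0

theorem sum_in {φ : MultilinearMap ℚ (fun _ : κ => A.H1) ℚ} (S : Finset κ)
    (h : ∀ X ∈ A.LA, Kills X φ) {X : Module.End ℚ A.H1} (hX : X ∈ A.LA) (v : κ → A.H1) :
    ∑ k ∈ S, prt ε φ S (update v k (X (v k))) = 0 := by
  have h1 := idem_LA hε h0 hX
  have h2 := kills_prt (ε := ε) S (hε.mem _ h1) (h _ h1) v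
  rw [← Finset.sum_add_sum_compl S, Finset.sum_eq_zero (s := Sᶜ), add_zero] at h2
  · rw [← h2]
    refine Finset.sum_congr rfl fun k hk => ?_
    rw [Module.End.mul_apply, prt_in hε φ hk]
  · intro k hk
    rw [Module.End.mul_apply, prt_zero_out hε φ (Finset.mem_compl.1 hk)]

theorem sum_out {φ : MultilinearMap ℚ (fun _ : κ => A.H1) ℚ} (S : Finset κ)
    (h : ∀ X ∈ A.LA, Kills X φ) {X : Module.End ℚ A.H1} (hX : X ∈ A.LA) (v : κ → A.H1) :
    ∑ k ∈ Sᶜ, prt ε φ S (update v k (X (v k))) = 0 := by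
  have h1 := coidem_LA hε h0 hX
  have h2 := kills_prt (ε := ε) S (hε.mem _ h1) (h _ h1) v
  rw [← Finset.sum_add_sum_compl S, Finset.sum_eq_zero (s := S), zero_add] at h2
  · rw [← h2]
    refine Finset.sum_congr rfl fun k hk => ?_
    rw [Module.End.mul_apply, prt_out hε φ (Finset.mem_compl.1 hk)]
  · intro k hk
    rw [Module.End.mul_apply, prt_zero_in hε φ hk]

theorem kills_mid {φ : MultilinearMap ℚ (fun _ : κ => A.H1) ℚ} (hκ : Fintype.card κ = 4)
    (S : Finset κ) (hS0 : S.card ≠ 0) (hS4 : S.card ≠ 4)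
    (h : ∀ X ∈ A.LA, Kills X φ) {Z : Module.End ℚ A.H1} (hZ : Lf A Z) :
    Kills Z (prt ε φ S) := by
  have hc := Finset.card_compl S
  rw [hκ] at hc
  have hle : S.card ≤ 4 := by rw [← hκ]; exact Finset.card_le_univ S
  have h3 : S.card = 1 ∨ S.card = 2 ∨ S.card = 3 := by omega
  rcases h3 with h3 | h3 | h3
  · rw [few_one h3 fun X hX v => sum_in hε h0 S h hX v]
    intro v
    simp
  · intro v
    rw [← Finset.sum_add_sum_compl S, few_two h3 (fun X hX v => sum_in hε h0 S h hX v) hZ,
      few_two (by omega) (fun X hX v => sum_out hε h0 S h hX v) hZ, add_zero]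
  · rw [few_one (T := Sᶜ) (by omega) fun X hX v => sum_out hε h0 S h hX v]
    intro v
    simp

end Split

end Pool.Agent.H86.CM6
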