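import Pool.Agent.H86.CM6.E2

/-!
# Abelian varieties whose factors of type IV have complex multiplication: the classes of degree four
-/

set_option autoImplicit false
set_option linter.unusedSectionVars false

open Module Function Polynomial TensorProduct

noncomputable section

namespace Pool.Agent.H86.CM6

open Pool.Agent.Y102 Pool.Agent.W516.DR Pool.Agent.H204R3.GP Pool.Agent.W516.KC
  Pool.Agent.H204R3.SP

variable {g : ℕ} {A : AbVar g} {ε : Module.End ℚ A.H1}

/-! ## The part without complex multiplication -/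

/-- the form on the image of the idempotent -/
def rst (φ : A.H1 [⋀^Fin 2 × Fin 2]→ₗ[ℚ] ℚ) (W : Submodule ℚ A.H1) : W [⋀^Fin 4]→ₗ[ℚ] ℚ :=
  (φ.compLinearMap W.subtype).domDomCongr (finProdFinEquiv : Fin 2 × Fin 2 ≃ Fin (2 * 2))

theorem rst_apply (φ : A.H1 [⋀^Fin 2 × Fin 2]→ₗ[ℚ] ℚ) (W : Submodule ℚ A.H1) (v : Fin 4 → W) :
    rst φ W v = φ (fun k => (v (finProdFinEquiv k : Fin (2 * 2)) : A.H1)) := rfl

theorem der_rst (φ : A.H1 [⋀^Fin 2 × Fin 2]→ₗ[ℚ] ℚ) (W : Submodule ℚ A.H1)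
    {X : Module.End ℚ A.H1} {X' : Module.End ℚ W} (hX : ∀ w, (X' w : A.H1) = X w)
    (v : Fin 4 → W) : der (rst φ W) X' v =
      ∑ k, φ (update (fun k => (v (finProdFinEquiv k : Fin (2 * 2)) : A.H1)) k
        (X (v (finProdFinEquiv k : Fin (2 * 2)) : A.H1))) := by
  rw [der_apply]
  have h1 := Equiv.sum_comp (finProdFinEquiv : Fin 2 × Fin 2 ≃ Fin (2 * 2))
    (fun l : Fin (2 * 2) => rst φ W (update v l (X' (v l))))
  refine h1.symm.trans (Finset.sum_congr rfl fun k _ => ?_)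
  rw [rst_apply]
  congr 1
  funext l
  by_cases hl : l = k
  · subst hl
    rw [update_self, update_self, hX]
  · rw [update_of_ne hl, update_of_ne]
    exact fun h => hl ((finProdFinEquiv : Fin 2 × Fin 2 ≃ Fin (2 * 2)).injective h)

theorem kills_univ (hε : A.Idem ε) (hdim : finrank ℚ (LinearMap.range ε) ≤ 7)
    (φ : A.H1 [⋀^Fin 2 × Fin 2]→ₗ[ℚ] ℚ) (h : ∀ X ∈ A.LA, Kills X φ.toMultilinearMap)
    {Z : Module.End ℚ A.H1} (hZ : Lf A Z) : Kills Z (prt ε φ.toMultilinearMap Finset.univ) := by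
  let W : Submodule ℚ A.H1 := LinearMap.range ε
  have hW : ∀ w : W, ε w = w := by
    rintro ⟨_, u, rfl⟩
    change (ε * ε) u = ε u
    rw [hε.idem]
  have hmem : ∀ X : Module.End ℚ A.H1, X * ε = ε * X → ∀ w : W, X w ∈ W := by
    rintro X hX ⟨_, u, rfl⟩
    exact ⟨X u, congrArg (fun T : Module.End ℚ A.H1 => T u) hX.symm⟩
  let r : ∀ X : Module.End ℚ A.H1, X * ε = ε * X → Module.End ℚ W := fun X hX =>
    (X ∘ₗ W.subtype).codRestrict W (hmem X hX)
  have hr : ∀ X hX w, ((r X hX w : W) : A.H1) = X w := fun X hX w => rfl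
  let ω : W →ₗ[ℚ] W →ₗ[ℚ] ℚ := A.om.compl₁₂ W.subtype W.subtype
  have hω : ∀ u v : W, ω u v = A.om u v := fun u v => rfl
  have halt : ∀ v, ω v v = 0 := by
    intro v
    rw [hω]
    have := A.om_anti (v : A.H1) v
    linarith
  have hnd : ∀ u, (∀ v, ω u v = 0) → u = 0 := by
    intro u hu
    apply Subtype.ext
    refine A.om_nondeg fun v => ?_
    have h1 := hu ⟨ε v, v, rfl⟩
    rw [hω] at h1
    change A.om (u : A.H1) (ε v) = 0 at h1
    rwa [← hε.sym, hW] at h1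
  obtain ⟨m, hm⟩ := even_of_alt ω (fun u v => by rw [hω, hω, A.om_anti]) hnd
  have hm' : finrank ℚ W = 2 * m := by omega
  have hm3 : m ≤ 3 := by
    have : finrank ℚ W ≤ 7 := hdim
    omega
  have key := four_part (W := W) halt hnd hm' hm3
    (S := {Y | ∃ X ∈ A.LA, ∀ w : W, (Y w : A.H1) = X w}) (by
      rintro Y ⟨X, hX, hY⟩ u v
      rw [hω, hω, hY, hY]
      exact A.LA_skew hX _ _)
    (Z := r Z (hZ.2 ε hε.mem)) (by
      intro u v
      rw [hω, hω, hr Z (hZ.2 ε hε.mem) u, hr Z (hZ.2 ε hε.mem) v]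
      exact hZ.1 _ _)
    (by
      intro B hB u v
      let B' : A.H1 →ₗ[ℚ] A.H1 →ₗ[ℚ] ℚ := B.compl₁₂ ε.rangeRestrict ε.rangeRestrict
      have hB' : ∀ u v, B' u v = B (ε.rangeRestrict u) (ε.rangeRestrict v) := fun _ _ => rfl
      have hres : ∀ X (hX : X * ε = ε * X) (u : A.H1),
          ε.rangeRestrict (X u) = r X hX (ε.rangeRestrict u) := by
        intro X hX u
        apply Subtype.ext
        exact congrArg (fun T : Module.End ℚ A.H1 => T u) hX.symm
      have hW' : ∀ w : W, ε.rangeRestrict w = w := fun w => Subtype.ext (hW w)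
      have h1 := bil_kill (B := B') (fun X hX u v => by
        rw [hB', hB', hres X (hε.mem X hX), hres X (hε.mem X hX)]
        exact hB _ ⟨X, hX, fun w => rfl⟩ _ _) hZ (u : A.H1) (v : A.H1)
      rw [hB', hB', hres Z (hZ.2 ε hε.mem), hres Z (hZ.2 ε hε.mem), hW', hW'] at h1
      exact h1)
    (rst φ W) (by
      rintro Y ⟨X, hX, hY⟩
      refine AlternatingMap.ext fun v => ?_
      rw [der_rst φ W hY, AlternatingMap.zero_apply]
      exact h X hX _)
  intro v
  simp only [comm_up (hZ.2 ε hε.mem)]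
  have h1 := congrArg (fun F : W [⋀^Fin 4]→ₗ[ℚ] ℚ => F (fun l =>
    ⟨ε (v ((finProdFinEquiv : Fin 2 × Fin 2 ≃ Fin (2 * 2)).symm l)), _, rfl⟩)) key
  simp only [AlternatingMap.zero_apply] at h1
  rw [der_rst φ W (fun w => hr Z (hZ.2 ε hε.mem) w)] at h1
  rw [← h1]
  refine Finset.sum_congr rfl fun k _ => ?_
  change φ _ = φ _
  congr 1
  have e : ∀ l : Fin 2 × Fin 2, (if l ∈ (Finset.univ : Finset (Fin 2 × Fin 2)) then ε else 1 - ε) = ε :=
    fun l => if_pos (Finset.mem_univ l)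
  simp only [e, Equiv.symm_apply_apply]

end Pool.Agent.H86.CM6
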