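import Pool.Agent.H86.CM6.E2

/-!
# Abelian varieties whose factors of type IV have complex multiplication: the part with complex
multiplication
-/

set_option autoImplicit false
set_option linter.unusedSectionVars false

open Module Function Polynomial TensorProduct

noncomputable section

namespace Pool.Agent.H86.CM6

open Pool.Agent.Y102 Pool.Agent.W516.DR Pool.Agent.H204R3.GP Pool.Agent.W516.KC
  Pool.Agent.H204R3.SP

variable {g : ℕ} {A : AbVar g} {ε : Module.End ℚ A.H1}
  {n : ℕ} {b : Basis (Fin n) ℂ (ℂ ⊗[ℚ] A.H1)} {χ : Fin n → (A.ZA →ₗ[ℚ] ℂ)}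

theorem eig_zero (hb : ∀ k (R : A.ZA), (R : Module.End ℚ A.H1).baseChange ℂ (b k) = χ k R • b k)
    (hε : A.Idem ε) {k : Fin n} (hk : χ k = 0) : ε.baseChange ℂ (b k) = b k := by
  have h1 : (1 - ε).baseChange ℂ (b k) = 0 := by
    apply Pool.Agent.W516.DR.eq_zero_of_cmp (k := ℚ)
    intro lam
    refine no_inv fun X hX => ?_
    rw [← Pool.Agent.W516.DR.cmp_baseChange, ← bc_mul_apply]
    have h2 : X * (1 - ε) = (1 - ε) * X := by
      rw [mul_sub, sub_mul, mul_one, one_mul, hε.mem X hX]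
    have h3 := hb k ⟨_, hε.comp X (A.LA_skew hX) fun Q hQ => hQ X hX⟩
    rw [h2, h3, hk, LinearMap.zero_apply, zero_smul, map_zero]
  have h2 : (1 : Module.End ℚ A.H1).baseChange ℂ = 1 := by
    refine TensorProduct.AlgebraTensorModule.ext fun a w => ?_
    rw [LinearMap.baseChange_tmul]
    rfl
  rw [LinearMap.baseChange_sub, LinearMap.sub_apply, h2, Module.End.one_apply, sub_eq_zero] at h1
  exact h1.symm

/-- **The forms on the part with complex multiplication.** -/
theorem c_part (hI : ∀ D ∈ A.ZA, ∀ c : ℚ, D * D * D = c • D →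
      finrank ℚ (LinearMap.range D) < 8) (hIV : CMIV A)
    (hr : ∀ R ∈ A.ZA, finrank ℚ (LinearMap.range R) ≤ 10)
    (hε : A.Idem ε) (h0 : ∀ R ∈ A.ZA, R * ε = 0)
    {κ : Type} [Fintype κ] [DecidableEq κ] (hκ : Even (Fintype.card κ))
    {N : MultilinearMap ℚ (fun _ : κ => A.H1) ℚ}
    (hNa : ∀ v i j, i ≠ j → v i = v j → N v = 0)
    (hNε : ∀ v k w, N (update v k (ε w)) = 0) (h : ∀ X ∈ A.LA, Kills X N)
    {Z : Module.End ℚ A.H1} (hZ : Lf A Z) : Kills Z N := by
  classical
  have hD : (1 - ε) * Z ∈ A.ZA := hε.comp Z hZ.1 hZ.2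
  have hred : Kills ((1 - ε) * Z) N → Kills Z N := by
    intro h1 v
    rw [← h1 v]
    refine Finset.sum_congr rfl fun k _ => ?_
    have h2 : Z (v k) = ((1 - ε) * Z) (v k) + ε (Z (v k)) := by
      rw [Module.End.mul_apply, LinearMap.sub_apply, Module.End.one_apply]
      abel
    conv_lhs => rw [h2, MultilinearMap.map_update_add, hNε, add_zero]
  apply hred
  obtain ⟨D, hDef⟩ : ∃ D, D = (1 - ε) * Z := ⟨_, rfl⟩
  rw [← hDef] at hD ⊢
  obtain ⟨n, b, χ, hb⟩ := A.exists_basis
  let β := Module.finBasis ℚ A.H1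
  obtain ⟨Ψ, hΨ⟩ : ∃ Ψ, Ψ = bcm (Ω := ℂ) β N := ⟨_, rfl⟩
  have hcmp : ∀ (lam : ℂ →ₗ[ℚ] ℚ) (Y : Module.End ℚ A.H1),
      Pool.Agent.W516.DR.cmpE lam (Y.baseChange ℂ) = lam 1 • Y := by
    intro lam Y
    refine LinearMap.ext fun w => ?_
    rw [Pool.Agent.W516.DR.cmpE_apply, LinearMap.baseChange_tmul, Pool.Agent.W516.DR.cmp_tmul,
      LinearMap.smul_apply]
  have hk1 : ∀ Y : Module.End ℚ A.H1, (∀ c : ℚ, Kills (c • Y) N) → Kills (Y.baseChange ℂ) Ψ :=
    fun Y hY => by
      rw [hΨ]
      exact (kills_bcm_iff β N _).2 fun lam => by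
        rw [hcmp]
        exact hY _
  have hsm : ∀ (Y : Module.End ℚ A.H1), Kills Y N → ∀ c : ℚ, Kills (c • Y) N := by
    intro Y hY c v
    have h1 : ∀ k, N (update v k ((c • Y) (v k))) = c • N (update v k (Y (v k))) := by
      intro k
      rw [LinearMap.smul_apply, MultilinearMap.map_update_smul]
    simp only [h1]
    rw [← Finset.smul_sum, hY v, smul_zero]
  have hLA : ∀ X ∈ A.LA, Kills (X.baseChange ℂ) Ψ := fun X hX => hk1 X (hsm X (h X hX))
  have hεk : Kills (ε.baseChange ℂ) Ψ := hk1 ε (hsm ε (fun v =>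
    Finset.sum_eq_zero fun k _ => hNε v k _))
  -- the form is alternating
  have hswap : ∀ i j : κ, i ≠ j → ∀ v : κ → A.H1, N (v ∘ Equiv.swap i j) = -N v := by
    intro i j hij v
    let N' : A.H1 [⋀^κ]→ₗ[ℚ] ℚ :=
      { N with map_eq_zero_of_eq' := fun v i j hv hij => hNa v i j hij hv }
    exact N'.map_swap v hij
  have halt : ∀ i j : κ, i ≠ j → ∀ v : κ → ℂ ⊗[ℚ] A.H1,
      Ψ (v ∘ Equiv.swap i j) = -Ψ v := by
    intro i j hij v
    have h1 : Ψ.domDomCongr (Equiv.swap i j) = -Ψ := by
      refine Basis.ext_multilinear (fun _ => β.baseChange ℂ) fun I => ?_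
      rw [_root_.neg_apply, MultilinearMap.domDomCongr_apply, hΨ]
      have h2 := bcm_basis (Ω := ℂ) β N (fun l => I (Equiv.swap i j l))
      have h3 := bcm_basis (Ω := ℂ) β N I
      rw [h2, h3, ← map_neg]
      congr 1
      exact hswap i j hij (fun l => β (I l))
    have h2 := congrArg (fun F : MultilinearMap ℂ (fun _ : κ => ℂ ⊗[ℚ] A.H1) ℂ => F v) h1
    exact h2
  have hscal : ∀ (c : Fin n → ℂ) (Y : Module.End ℂ (ℂ ⊗[ℚ] A.H1)), (∀ k, Y (b k) = c k • b k) →
      ∀ I : κ → Fin n, ∑ k, Ψ (update (fun l => b (I l)) k (Y (b (I k)))) =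
        (∑ k, c (I k)) * Ψ (fun l => b (I l)) := by
    intro c Y hY I
    rw [Finset.sum_mul]
    refine Finset.sum_congr rfl fun k _ => ?_
    rw [hY, MultilinearMap.map_update_smul, smul_eq_mul]
    congr 2
    exact update_eq_self k (fun l => b (I l))
  have hmain : Kills (D.baseChange ℂ) Ψ := by
    refine kills_of_basis b _ _ fun I => ?_
    rw [hscal (fun k => χ k ⟨D, hD⟩) _ (fun k => hb k ⟨D, hD⟩)]
    by_cases hz : Ψ (fun l => b (I l)) = 0
    · rw [hz, mul_zero]
    -- the letters are different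
    have hinj : Function.Injective I := by
      intro i j hij
      by_contra hne
      have h1 := halt i j hne (fun l => b (I l))
      have h2 : (fun l => b (I l)) ∘ Equiv.swap i j = fun l => b (I l) := by
        funext l
        rw [Function.comp_apply]
        by_cases h3 : l = i
        · rw [h3, Equiv.swap_apply_left, hij]
        · by_cases h4 : l = j
          · rw [h4, Equiv.swap_apply_right, hij]
          · rw [Equiv.swap_apply_of_ne_of_ne h3 h4]
      rw [h2] at h1
      apply hz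
      linear_combination (1 / 2) * h1
    -- they are in the part with complex multiplication
    have hnz : ∀ k, χ (I k) ≠ 0 := by
      have h1 := hscal (fun k => if χ k = 0 then 1 else 0) (ε.baseChange ℂ) (fun k => by
        by_cases hk : χ k = 0
        · rw [if_pos hk, one_smul, eig_zero hb hε hk]
        · rw [if_neg hk, zero_smul, idem_eig hb hε h0 hk]) I
      have h2 := hεk (fun l => b (I l))
      rw [h1] at h2
      have h3 := (mul_eq_zero.1 h2).resolve_right hz
      rw [Finset.sum_boole] at h3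
      have h4 : (Finset.univ.filter fun k => χ (I k) = 0).card = 0 := by exact_mod_cast h3
      intro k hk
      rw [Finset.card_eq_zero] at h4
      have h5 : k ∈ Finset.univ.filter fun k => χ (I k) = 0 := by simp [hk]
      rw [h4] at h5
      exact absurd h5 (Finset.notMem_empty k)
    have hsum := rel_even hI hIV hr hb (κ := κ) hκ I hinj hnz
      (fun R hR => by
        have h1 := hscal (fun k => χ k R) _ (fun k => hb k R) I
        have h2 := hLA R hR (fun l => b (I l))
        rw [h1] at h2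
        exact (mul_eq_zero.1 h2).resolve_right hz) ⟨D, hD⟩
    rw [hsum, zero_mul]
  obtain ⟨lam, hlam⟩ : ∃ lam : ℂ →ₗ[ℚ] ℚ, lam 1 = 1 := by
    obtain ⟨G, hG⟩ := exists_lin (F := ℚ) (v := fun _ : Unit => (1 : ℂ)) (by
      rw [linearIndependent_unique_iff]
      exact one_ne_zero) (fun _ => (1 : ℚ))
    exact ⟨G, hG ()⟩
  rw [hΨ] at hmain
  have h3 := (kills_bcm_iff β N _).1 hmain lam
  rwa [hcmp, hlam, one_smul] at h3

/-! ## Forms in some of the variables -/

section Slot

variable {κ : Type} [Fintype κ] [DecidableEq κ]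

/-- the form in the variables in `T` -/
def slot (N : MultilinearMap ℚ (fun _ : κ => A.H1) ℚ) (T : Finset κ) (v : κ → A.H1) :
    MultilinearMap ℚ (fun _ : {k // k ∈ T} => A.H1) ℚ :=
  N.domDomRestrict (fun k => k ∈ T) (fun k => v k.1)

/-- the family of vectors -/
def glue (T : Finset κ) (v : κ → A.H1) (w : {k // k ∈ T} → A.H1) (j : κ) : A.H1 :=
  if h : j ∈ T then w ⟨j, h⟩ else v j

theorem slot_apply (N : MultilinearMap ℚ (fun _ : κ => A.H1) ℚ) (T : Finset κ) (v : κ → A.H1)
    (w : {k // k ∈ T} → A.H1) : slot N T v w = N (glue T v w) := rfl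

theorem glue_mem (T : Finset κ) (v : κ → A.H1) (w : {k // k ∈ T} → A.H1) (k : {k // k ∈ T}) :
    glue T v w k.1 = w k := dif_pos k.2

theorem glue_update (T : Finset κ) (v : κ → A.H1) (w : {k // k ∈ T} → A.H1) (k : {k // k ∈ T})
    (x : A.H1) : glue T v (update w k x) = update (glue T v w) k.1 x := by
  funext j
  by_cases hj : j = k.1
  · rw [hj, update_self, glue_mem, update_self]
  · rw [update_of_ne hj]
    unfold glue
    split_ifs with h
    · rw [update_of_ne]
      exact fun h2 => hj (congrArg Subtype.val h2)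
    · rfl

theorem glue_self (T : Finset κ) (v : κ → A.H1) : glue T v (fun k => v k.1) = v := by
  funext j
  unfold glue
  split_ifs <;> rfl

theorem slot_sum (N : MultilinearMap ℚ (fun _ : κ => A.H1) ℚ) (T : Finset κ) (v : κ → A.H1)
    (X : Module.End ℚ A.H1) (w : {k // k ∈ T} → A.H1) :
    ∑ k, slot N T v (update w k (X (w k))) =
      ∑ k ∈ T, N (update (glue T v w) k (X (glue T v w k))) := by
  rw [← Finset.sum_coe_sort T (fun k => N (update (glue T v w) k (X (glue T v w k))))]
  refine Finset.sum_congr rfl fun k _ => ?_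
  rw [slot_apply, glue_update, glue_mem]

theorem slot_kills {N : MultilinearMap ℚ (fun _ : κ => A.H1) ℚ} {T : Finset κ}
    {X : Module.End ℚ A.H1} (h : ∀ v, ∑ k ∈ T, N (update v k (X (v k))) = 0) (v : κ → A.H1) :
    Kills X (slot N T v) := fun w => by rw [slot_sum, h]

theorem kills_slot {N : MultilinearMap ℚ (fun _ : κ => A.H1) ℚ} {T : Finset κ}
    {X : Module.End ℚ A.H1} (h : ∀ v, Kills X (slot N T v)) (v : κ → A.H1) :
    ∑ k ∈ T, N (update v k (X (v k))) = 0 := by
  have h1 := h v (fun k => v k.1)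
  rw [slot_sum] at h1
  simpa only [glue_self] using h1

theorem slot_up (N : MultilinearMap ℚ (fun _ : κ => A.H1) ℚ) (T : Finset κ) (v : κ → A.H1)
    (w : {k // k ∈ T} → A.H1) (k : {k // k ∈ T}) (x : A.H1) :
    slot N T v (update w k x) = N (update (glue T v w) k.1 x) := by
  rw [slot_apply, glue_update]

theorem slot_alt {N : MultilinearMap ℚ (fun _ : κ => A.H1) ℚ} {T : Finset κ}
    (h : ∀ v, ∀ i ∈ T, ∀ j ∈ T, i ≠ j → v i = v j → N v = 0) (v : κ → A.H1)
    (w : {k // k ∈ T} → A.H1) (i j : {k // k ∈ T}) (hij : i ≠ j) (hw : w i = w j) :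
    slot N T v w = 0 := by
  rw [slot_apply]
  refine h _ i.1 i.2 j.1 j.2 (fun h2 => hij (Subtype.ext h2)) ?_
  rw [glue_mem, glue_mem, hw]

theorem zero_of_slot {N : MultilinearMap ℚ (fun _ : κ => A.H1) ℚ} {T : Finset κ}
    (h : ∀ v, slot N T v = 0) : N = 0 := by
  refine MultilinearMap.ext fun v => ?_
  have h1 := congrArg (fun F : MultilinearMap ℚ (fun _ : {k // k ∈ T} => A.H1) ℚ =>
    F (fun k => v k.1)) (h v)
  simp only [slot_apply, glue_self] at h1
  exact h1

end Slot

/-! ## The splitting -/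

/-- The property of the part without complex multiplication. -/
def KB (A : AbVar g) (ε : Module.End ℚ A.H1) (κ : Type) [Fintype κ] [DecidableEq κ] : Prop :=
  ∀ N : MultilinearMap ℚ (fun _ : κ => A.H1) ℚ, (∀ v i j, i ≠ j → v i = v j → N v = 0) →
    (∀ v k w, N (update v k ((1 - ε) w)) = 0) → (∀ X ∈ A.LA, Kills X N) →
    ∀ Z, Lf A Z → Kills Z N

/-- The property of the part without complex multiplication, for an odd number of variables. -/
def KBodd (A : AbVar g) (ε : Module.End ℚ A.H1) (κ : Type) [Fintype κ] [DecidableEq κ] : Prop :=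
  ∀ N : MultilinearMap ℚ (fun _ : κ => A.H1) ℚ, (∀ v i j, i ≠ j → v i = v j → N v = 0) →
    (∀ v k w, N (update v k ((1 - ε) w)) = 0) → (∀ X ∈ A.LA, Kills X N) → N = 0

section Split

variable {κ : Type} [Fintype κ] [DecidableEq κ] (hε : A.Idem ε) (h0 : ∀ R ∈ A.ZA, R * ε = 0)

theorem prt_alt (φ : A.H1 [⋀^κ]→ₗ[ℚ] ℚ) (S : Finset κ) {v : κ → A.H1} {i j : κ} (hij : i ≠ j)
    (h : i ∈ S ↔ j ∈ S) (hv : v i = v j) : prt ε φ.toMultilinearMap S v = 0 := by
  rw [prt_apply]
  refine φ.map_eq_zero_of_eq _ ?_ hij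
  by_cases hi : i ∈ S
  · rw [if_pos hi, if_pos (h.1 hi), hv]
  · rw [if_neg hi, if_neg (fun hj => hi (h.2 hj)), hv]

include hε h0

/-- **The splitting**: the two parts can be treated separately. -/
theorem kills_split (hκ : Even (Fintype.card κ))
    (hI : ∀ D ∈ A.ZA, ∀ c : ℚ, D * D * D = c • D → finrank ℚ (LinearMap.range D) < 8)
    (hIV : CMIV A) (hr : ∀ R ∈ A.ZA, finrank ℚ (LinearMap.range R) ≤ 10)
    (hB : ∀ S : Finset κ, Even S.card → KB A ε {k // k ∈ S})
    (hodd : ∀ S : Finset κ, Odd S.card → KBodd A ε {k // k ∈ S})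
    (φ : A.H1 [⋀^κ]→ₗ[ℚ] ℚ) (h : ∀ X ∈ A.LA, Kills X φ.toMultilinearMap)
    {Z : Module.End ℚ A.H1} (hZ : Lf A Z) : Kills Z φ.toMultilinearMap := by
  classical
  refine kills_of_prt (ε := ε) fun S => ?_
  have hin := fun X hX v => sum_in hε h0 (φ := φ.toMultilinearMap) S h (X := X) hX v
  have hout := fun X hX v => sum_out hε h0 (φ := φ.toMultilinearMap) S h (X := X) hX v
  by_cases hS : Even S.card
  · have hS' : Even (Sᶜ).card := by
      rw [Finset.card_compl]
      exact Even.tsub hκ hS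
    intro v
    rw [← Finset.sum_add_sum_compl S]
    have h1 : ∑ k ∈ S, prt ε φ.toMultilinearMap S (update v k (Z (v k))) = 0 := by
      refine kills_slot (fun v => ?_) v
      refine hB S hS _ (fun w i j hij hw => slot_alt (fun v i hi j hj hij hv =>
        prt_alt φ S hij (by simp [hi, hj]) hv) v w i j hij hw)
        (fun w k x => ?_) (fun X hX => slot_kills (fun v => hin X hX v) v) Z hZ
      rw [slot_up]
      exact prt_zero_in hε _ k.2 _ _
    have h2 : ∑ k ∈ Sᶜ, prt ε φ.toMultilinearMap S (update v k (Z (v k))) = 0 := by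
      refine kills_slot (fun v => ?_) v
      refine c_part hI hIV hr hε h0 (by rw [Fintype.card_coe]; exact hS')
        (fun w i j hij hw => slot_alt (fun v i hi j hj hij hv =>
        prt_alt φ S hij (by
          rw [Finset.mem_compl] at hi hj
          simp [hi, hj]) hv) v w i j hij hw)
        (fun w k x => ?_) (fun X hX => slot_kills (fun v => hout X hX v) v) hZ
      rw [slot_up]
      exact prt_zero_out hε _ (Finset.mem_compl.1 k.2) _ _
    rw [h1, h2, add_zero]
  · rw [Nat.not_even_iff_odd] at hS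
    have h1 : prt ε φ.toMultilinearMap S = 0 := by
      refine zero_of_slot (T := S) fun v => ?_
      refine hodd S hS _ (fun w i j hij hw => slot_alt (fun v i hi j hj hij hv =>
        prt_alt φ S hij (by simp [hi, hj]) hv) v w i j hij hw)
        (fun w k x => ?_) (fun X hX => slot_kills (fun v => hin X hX v) v)
      rw [slot_up]
      exact prt_zero_in hε _ k.2 _ _
    rw [h1]
    intro v
    simp

end Split

end Pool.Agent.H86.CM6
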