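import Pool.Agent.H86.CM6.E4
import Pool.Agent.H86.CMLib9.W5h25.AS.AV

/-!
# The part without factors of type IV of an abelian variety
-/

set_option autoImplicit false
set_option linter.unusedSectionVars false

open Module Function TensorProduct Matrix

noncomputable section

namespace Pool.Agent.H86.CM6

open Pool.Agent.R912 Pool.Agent.Y102 Pool.Agent.W516.DR Pool.Agent.H204R3.GP Pool.Agent.W516.KC
  Pool.Agent.H204R3.SP

variable {g : ℕ} {A : AbVar g}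

/-! ## The symmetric elements of the centre -/

/-- adjoints of central endomorphisms -/
theorem adj_central {P : Module.End ℚ A.H1} (hP : P ∈ ZC A) :
    ∃ P' ∈ ZC A, (∀ u v, A.om (P u) v = A.om u (P' v)) ∧ ∀ u v, A.om (P' u) v = A.om u (P v) := by
  obtain ⟨P', hP', hadj⟩ := A.endAlg.adj P hP.1
  have hadj' : ∀ u v, A.om (P' u) v = A.om u (P v) := by
    intro u v
    rw [A.om_anti, ← hadj, A.om_anti, neg_neg]
  refine ⟨P', ⟨hP', fun Q hQ => ?_⟩, hadj, hadj'⟩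
  obtain ⟨Q', hQ', hQadj⟩ := A.endAlg.adj Q hQ
  have h1 := hP.2 Q' hQ'
  refine LinearMap.ext fun v => ?_
  rw [← sub_eq_zero]
  apply A.om_nondeg
  intro u
  have h2 : P (Q' u) = Q' (P u) := LinearMap.congr_fun h1 u
  rw [map_sub, LinearMap.sub_apply, Module.End.mul_apply, Module.End.mul_apply, sub_eq_zero,
    hadj', hQadj, hQadj, hadj', h2]

/-- the symmetric elements of the centre -/
def ZS (A : AbVar g) : Submodule ℚ (Module.End ℚ A.H1) where
  carrier := {P | P ∈ ZC A ∧ ∀ u v, A.om (P u) v = A.om u (P v)}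
  zero_mem' := ⟨(ZC A).zero_mem, fun u v => by simp⟩
  add_mem' := fun {P Q} hP hQ => ⟨(ZC A).add_mem hP.1 hQ.1, fun u v => by
    rw [LinearMap.add_apply, LinearMap.add_apply, map_add, map_add, LinearMap.add_apply, hP.2,
      hQ.2]⟩
  smul_mem' := fun c P hP => ⟨(ZC A).smul_mem c hP.1, fun u v => by
    rw [LinearMap.smul_apply, LinearMap.smul_apply, map_smul, map_smul, LinearMap.smul_apply,
      hP.2]⟩

theorem ZS_mul {P Q : Module.End ℚ A.H1} (hP : P ∈ ZS A) (hQ : Q ∈ ZS A) : P * Q ∈ ZS A :=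
  ⟨ZC_mul hP.1 hQ.1, fun u v => by
    have h1 : P (Q v) = Q (P v) := LinearMap.congr_fun (ZC_comm hP.1 hQ.1) v
    rw [Module.End.mul_apply, Module.End.mul_apply, hP.2, hQ.2, h1]⟩

theorem ZS_one : (1 : Module.End ℚ A.H1) ∈ ZS A := ⟨ZC_one, fun _ _ => rfl⟩

theorem ZC_split {P : Module.End ℚ A.H1} (hP : P ∈ ZC A) :
    ∃ S ∈ ZS A, ∃ R ∈ A.ZA, P = S + R := by
  obtain ⟨P', hP', h1, h2⟩ := adj_central hP
  refine ⟨(1 / 2 : ℚ) • (P + P'), (ZS A).smul_mem _ ⟨(ZC A).add_mem hP hP', fun u v => ?_⟩,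
    (1 / 2 : ℚ) • (P - P'), A.ZA.smul_mem _ ⟨?_, ?_, ?_⟩, ?_⟩
  · rw [LinearMap.add_apply, LinearMap.add_apply, map_add, map_add, LinearMap.add_apply, h1, h2,
      add_comm]
  · exact A.EA.sub_mem hP.1 hP'.1
  · intro u v
    rw [LinearMap.sub_apply, LinearMap.sub_apply, map_sub, map_sub, LinearMap.sub_apply, h1, h2]
    ring
  · intro Q hQ
    rw [sub_mul, mul_sub, hP.2 Q hQ, hP'.2 Q hQ]
  · rw [← smul_add, show P + P' + (P - P') = (2 : ℚ) • P by rw [two_smul]; abel, smul_smul]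
    norm_num

/-- The trace form is nondegenerate on the symmetric elements of the centre. -/
theorem ZS_trace {Z : Module.End ℂ (ℂ ⊗[ℚ] A.H1)} (h : Z ∈ cx (ZS A))
    (h0 : ∀ Y ∈ cx (ZS A), LinearMap.trace ℂ _ (Z * Y) = 0) : Z = 0 := by
  apply eq_zero_of_cmpE
  intro lam
  have h1 := cmp_of_ext (ZS A) h lam
  obtain ⟨M, hM⟩ := A.hodge_end (A.mem_EA.1 h1.1.1)
  refine trace_sym hM h1.2 ?_
  rw [← cmpE_mul_bc, trace_cmpE, h0 _ (bc_mem h1), map_zero]

theorem ZS_sym : ∀ X ∈ cx (ZS A), ∀ u v, omC A (X u) v = omC A u (X v) := by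
  intro X hX
  induction hX using Submodule.span_induction with
  | mem X hX =>
    obtain ⟨P, hP, rfl⟩ := hX
    exact omC_adj hP.2
  | zero => intro u v; simp
  | add a b _ _ ha hb =>
    intro u v
    rw [LinearMap.add_apply, LinearMap.add_apply, map_add, map_add, LinearMap.add_apply, ha, hb]
  | smul c a _ ha =>
    intro u v
    rw [LinearMap.smul_apply, LinearMap.smul_apply, map_smul, map_smul, LinearMap.smul_apply, ha]

/-! ## The part without factors of type IV -/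

variable {ε : Module.End ℚ A.H1}

theorem idem_sym (hε : A.Idem ε) (u v : ℂ ⊗[ℚ] A.H1) :
    omC A (ε.baseChange ℂ u) v = omC A u (ε.baseChange ℂ v) := omC_adj (fun u v => hε.sym u v) u v

theorem idem_cx (hε : A.Idem ε) {X : Module.End ℂ (ℂ ⊗[ℚ] A.H1)} (hX : X ∈ cx A.LA) :
    X * ε.baseChange ℂ = ε.baseChange ℂ * X :=
  cx_commutes A (S := A.LA) (T := A.EA) (fun X hX _ hY => hY X hX) X hX _ (bc_mem hε.mem)

theorem idem_cxE (hε : A.Idem ε) {X : Module.End ℂ (ℂ ⊗[ℚ] A.H1)} (hX : X ∈ cx A.EA) :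
    X * ε.baseChange ℂ = ε.baseChange ℂ * X := by
  have h1 := cx_commutes A (S := A.EA) (T := Submodule.span ℚ {ε}) (fun X hX _ hY => by
    obtain ⟨c, rfl⟩ := Submodule.mem_span_singleton.1 hY
    rw [mul_smul_comm, smul_mul_assoc, hε.cen X hX]) X hX _
    (bc_mem (Submodule.mem_span_singleton_self ε))
  exact h1

/-- Stable subspaces of the part without factors of type IV meet their orthogonal trivially. -/
theorem abs' (hε : A.Idem ε) (h0 : ∀ R ∈ A.ZA, R * ε = 0) (P : Submodule ℂ (ℂ ⊗[ℚ] A.H1))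
    (hPε : ∀ u ∈ P, ε.baseChange ℂ u = u)
    (hP1 : ∀ x ∈ cx A.LA, ∀ u ∈ P, x u ∈ P) (hP2 : ∀ x ∈ cx A.EA, ∀ u ∈ P, x u ∈ P) :
    ∀ u ∈ P, (∀ v ∈ P, omC A v u = 0) → u = 0 := by
  by_contra hcon
  push Not at hcon
  obtain ⟨u, hu, hu', hu0⟩ := hcon
  let Q : Submodule ℂ (ℂ ⊗[ℚ] A.H1) := P ⊓ oP (omC A) P
  have hQL : ∀ x ∈ cx A.LA, ∀ u ∈ Q, x u ∈ Q := by
    rintro x hx u ⟨h1, h2⟩
    refine ⟨hP1 x hx u h1, fun v hv => ?_⟩
    have h3 := omC_skew A (fun X hX => A.LA_skew hX) x hx v u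
    rw [h2 _ (hP1 x hx v hv), zero_add] at h3
    exact h3
  have hQE : ∀ x ∈ cx A.EA, ∀ u ∈ Q, x u ∈ Q := by
    rintro x hx u ⟨h1, h2⟩
    refine ⟨hP2 x hx u h1, fun v hv => ?_⟩
    obtain ⟨x', hx', hadj⟩ := cx_adj x hx
    rw [omC_anti, hadj, omC_anti, h2 _ (hP2 x' hx' v hv)]
    simp
  have hQ0 : Q ≠ ⊥ := by
    intro hb
    have h1 : u ∈ Q := ⟨hu, hu'⟩
    rw [hb, Submodule.mem_bot] at h1
    exact hu0 h1
  have hle : cx (ZS A) ≤ cx A.EA := cx_mono fun X hX => hX.1.1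
  have hcomm := cx_commutes A (S := ZS A) (T := ZS A) fun X hX Y hY => ZC_comm hX.1 hY.1
  let ι : cx (ZS A) →ₗ[ℂ] Module.End ℂ (ℂ ⊗[ℚ] A.H1) := (cx (ZS A)).subtype
  have hι : ∀ t, ι t = t.1 := fun _ => rfl
  obtain ⟨χ, q, hq, hq0, hχ⟩ := Pool.Agent.Y102.SP.kil_eig ι
    (fun (s t : cx (ZS A)) => hcomm s.1 s.2 t.1 t.2) _ Q le_rfl hQ0
    (fun (t : cx (ZS A)) u hu => hQE _ (hle t.2) u hu)
  have hχ' : ∀ z (hz : z ∈ cx (ZS A)), z q = χ ⟨z, hz⟩ • q := fun z hz => hχ ⟨z, hz⟩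
  obtain ⟨π, hπ, c, hc, hπq, hzπ⟩ := exists_proj (cx (ZS A)) hcomm
    (cx_mul (A := A) (S := ZS A) fun X hX Y hY => ZS_mul hX hY) (cx_one (A := A) ZS_one)
    (fun Z hZ' h0 => ZS_trace hZ' h0) χ hq0 hχ'
  -- the vector
  obtain ⟨v0, hv0⟩ : ∃ v, omC A q v ≠ 0 := by
    by_contra hcon
    push Not at hcon
    exact hq0 (nondeg_ext A.om (omC A) (omC_tmul A) (fun u hu => A.om_nondeg hu) q hcon)
  obtain ⟨w, hw⟩ : ∃ w, w = π (ε.baseChange ℂ v0) := ⟨_, rfl⟩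
  have hεε : ∀ u : ℂ ⊗[ℚ] A.H1, ε.baseChange ℂ (ε.baseChange ℂ u) = ε.baseChange ℂ u := by
    intro u
    rw [← bc_mul_apply, hε.idem]
  have hεw : ε.baseChange ℂ w = w := by
    have h1 := LinearMap.congr_fun (idem_cxE hε (hle hπ)) (ε.baseChange ℂ v0)
    rw [Module.End.mul_apply, Module.End.mul_apply, hεε] at h1
    rw [hw, ← h1]
  have hqv : omC A q w ≠ 0 := by
    rw [hw, ← ZS_sym _ hπ, hπq, map_smul, LinearMap.smul_apply, smul_eq_mul, ← idem_sym hε,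
      hPε q hq.1]
    exact mul_ne_zero hc hv0
  have hzv : ∀ z (hz : z ∈ cx (ZS A)), z w = χ ⟨z, hz⟩ • w := fun z hz => by
    rw [hw]
    exact LinearMap.congr_fun (hzπ z hz) (ε.baseChange ℂ v0)
  let T : Module.End ℂ (ℂ ⊗[ℚ] A.H1) := ((omC A).flip w).smulRight w
  have hT : ∀ u, T u = omC A u w • w := fun u => rfl
  have h1 := stab_of_comm hQL hQE (T := T) (fun Y hY => by
    obtain ⟨S, hS, R, hR, rfl⟩ := ZC_split hY
    have hRw : R.baseChange ℂ w = 0 := by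
      rw [← hεw, ← bc_mul_apply, h0 R hR, LinearMap.baseChange_zero, LinearMap.zero_apply]
    refine LinearMap.ext fun u => ?_
    have hRu : omC A (R.baseChange ℂ u) w = 0 := by
      have h2 := skew_ext A.om (omC A) (omC_tmul A) hR.2.1 u w
      rw [hRw, map_zero, add_zero] at h2
      exact h2
    rw [Module.End.mul_apply, Module.End.mul_apply, hT, hT, LinearMap.baseChange_add,
      LinearMap.add_apply, LinearMap.add_apply, map_add, LinearMap.add_apply, hRu, add_zero,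
      map_smul, map_smul, hRw, smul_zero, add_zero, ZS_sym _ (bc_mem hS), hzv _ (bc_mem hS),
      map_smul, smul_eq_mul, smul_smul, mul_comm (omC A u w)]) q hq
  rw [hT] at h1
  have h2 : w ∈ Q := by
    have h3 := Q.smul_mem (omC A q w)⁻¹ h1
    rwa [smul_smul, inv_mul_cancel₀ hqv, one_smul] at h3
  exact hqv (h2.2 q hq.1)

/-- the space of the part without factors of type IV -/
abbrev UB (ε : Module.End ℚ A.H1) : Submodule ℂ (ℂ ⊗[ℚ] A.H1) :=
  LinearMap.range (ε.baseChange ℂ)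

theorem UB_fix (hε : A.Idem ε) (u : UB ε) : ε.baseChange ℂ (u : ℂ ⊗[ℚ] A.H1) = u := by
  obtain ⟨_, v, rfl⟩ := u
  change ε.baseChange ℂ (ε.baseChange ℂ v) = ε.baseChange ℂ v
  rw [← bc_mul_apply, hε.idem]

theorem UB_stab {X : Module.End ℂ (ℂ ⊗[ℚ] A.H1)} (hX : X * ε.baseChange ℂ = ε.baseChange ℂ * X)
    (u : UB ε) : X u ∈ UB ε := by
  obtain ⟨_, v, rfl⟩ := u
  exact ⟨X v, (LinearMap.congr_fun hX v).symm⟩

/-- the restriction of an operator -/
def rs (X : Module.End ℂ (ℂ ⊗[ℚ] A.H1)) (hX : X * ε.baseChange ℂ = ε.baseChange ℂ * X) :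
    Module.End ℂ (UB ε) := (X ∘ₗ (UB ε).subtype).codRestrict (UB ε) (UB_stab hX)

theorem rs_coe (X : Module.End ℂ (ℂ ⊗[ℚ] A.H1)) (hX : X * ε.baseChange ℂ = ε.baseChange ℂ * X)
    (u : UB ε) : ((rs X hX u : UB ε) : ℂ ⊗[ℚ] A.H1) = X u := rfl

/-- the restricted Lie algebra -/
def LB (A : AbVar g) (ε : Module.End ℚ A.H1) : Submodule ℂ (Module.End ℂ (UB ε)) where
  carrier := {x | ∃ X ∈ cx A.LA, ∀ u : UB ε, ((x u : UB ε) : ℂ ⊗[ℚ] A.H1) = X u}
  zero_mem' := ⟨0, Submodule.zero_mem _, fun u => rfl⟩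
  add_mem' := by
    rintro x y ⟨X, hX, h1⟩ ⟨Y, hY, h2⟩
    refine ⟨X + Y, Submodule.add_mem _ hX hY, fun u => ?_⟩
    rw [LinearMap.add_apply, Submodule.coe_add, h1, h2, LinearMap.add_apply]
  smul_mem' := by
    rintro c x ⟨X, hX, h1⟩
    refine ⟨c • X, Submodule.smul_mem _ c hX, fun u => ?_⟩
    rw [LinearMap.smul_apply, Submodule.coe_smul, h1, LinearMap.smul_apply]

theorem rs_mem (hε : A.Idem ε) {X : Module.End ℂ (ℂ ⊗[ℚ] A.H1)} (hX : X ∈ cx A.LA) :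
    rs X (idem_cx hε hX) ∈ LB A ε := ⟨X, hX, fun _ => rfl⟩

/-- the form -/
def omB (A : AbVar g) (ε : Module.End ℚ A.H1) : UB ε →ₗ[ℂ] UB ε →ₗ[ℂ] ℂ :=
  (omC A).compl₁₂ (UB ε).subtype (UB ε).subtype

theorem omB_apply (u v : UB ε) : omB A ε u v = omC A u v := rfl

/-- a subspace which is stable under the restricted Lie algebra -/
theorem map_stab (hε : A.Idem ε) {P : Submodule ℂ (UB ε)} (hP : ∀ x ∈ LB A ε, ∀ u ∈ P, x u ∈ P) :
    ∀ x ∈ cx A.LA, ∀ u ∈ P.map (UB ε).subtype, x u ∈ P.map (UB ε).subtype := by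
  rintro x hx _ ⟨u, hu, rfl⟩
  exact ⟨_, hP _ (rs_mem hε hx) u hu, rfl⟩

/-- the extension of an operator by zero commutes with the Lie algebra -/
theorem ext_comm (hε : A.Idem ε) {k : Module.End ℂ (UB ε)} (hk : k ∈ comL (LB A ε)) :
    ∀ y ∈ cx A.LA, y * ((UB ε).subtype ∘ₗ k ∘ₗ (ε.baseChange ℂ).rangeRestrict) =
      ((UB ε).subtype ∘ₗ k ∘ₗ (ε.baseChange ℂ).rangeRestrict) * y := by
  intro y hy
  refine LinearMap.ext fun v => ?_
  have h1 := LinearMap.congr_fun (hk _ (rs_mem hε hy)) ((ε.baseChange ℂ).rangeRestrict v)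
  rw [Module.End.mul_apply, Module.End.mul_apply] at h1
  have h2 : rs y (idem_cx hε hy) ((ε.baseChange ℂ).rangeRestrict v) =
      (ε.baseChange ℂ).rangeRestrict (y v) := by
    apply Subtype.ext
    exact LinearMap.congr_fun (idem_cx hε hy) v
  rw [h2] at h1
  have h3 := congrArg (fun w : UB ε => (w : ℂ ⊗[ℚ] A.H1)) h1
  exact h3

theorem thyp0' (hε : A.Idem ε) (h0 : ∀ R ∈ A.ZA, R * ε = 0) : THyp0 (LB A ε) (omB A ε) where
  br := by
    rintro x ⟨X, hX, h1⟩ y ⟨Y, hY, h2⟩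
    refine ⟨X * Y - Y * X, ?_, fun u => ?_⟩
    · exact cx_br (fun X hX Y hY => by
        rw [← bc_br]
        exact bc_mem (A.LA_bracket hX hY)) X hX Y hY
    · rw [LinearMap.sub_apply, Submodule.coe_sub, Module.End.mul_apply, Module.End.mul_apply, h1,
        h2, h2, h1, LinearMap.sub_apply, Module.End.mul_apply, Module.End.mul_apply]
  skew := by
    rintro x ⟨X, hX, h1⟩ u v
    rw [omB_apply, omB_apply, h1, h1]
    exact omC_skew A (fun X hX => A.LA_skew hX) X hX _ _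
  alt := fun u v => by rw [omB_apply, omB_apply, omC_anti]
  nd := fun u hu => by
    apply Subtype.ext
    refine nondeg_ext A.om (omC A) (omC_tmul A) (fun u hu => A.om_nondeg hu) _ fun z => ?_
    have h1 := hu ⟨ε.baseChange ℂ z, z, rfl⟩
    rw [omB_apply] at h1
    change omC A (ε.baseChange ℂ z) u = 0 at h1
    rw [idem_sym hε, UB_fix hε] at h1
    rw [omC_anti, h1, neg_zero]
  abs := fun P h1 h2 u hu h3 => by
    apply Subtype.ext
    refine abs' hε h0 (P.map (UB ε).subtype) ?_ (map_stab hε h1) ?_ u.1 ⟨u, hu, rfl⟩ ?_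
    · rintro _ ⟨u, -, rfl⟩
      exact UB_fix hε u
    · rintro x hx _ ⟨u, hu, rfl⟩
      refine ⟨rs x (idem_cxE hε hx) u, h2 _ ?_ u hu, rfl⟩
      rintro y ⟨Y, hY, hy⟩
      refine LinearMap.ext fun v => Subtype.ext ?_
      rw [Module.End.mul_apply, Module.End.mul_apply, hy, rs_coe, rs_coe, hy]
      have h4 := cx_commutes A (S := A.LA) (T := A.EA) (fun X hX Y hY => hY X hX) Y hY x hx
      exact LinearMap.congr_fun h4 _
    · rintro _ ⟨v, hv, rfl⟩
      exact h3 v hv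

theorem thyp' (hε : A.Idem ε) (h0 : ∀ R ∈ A.ZA, R * ε = 0) : THyp (LB A ε) (omB A ε) where
  toTHyp0 := thyp0' hε h0
  even' := fun N hN => by
    refine (thyp0' hε h0).even_of_J ?_ hN
    obtain ⟨J, hJ, hJJ⟩ := exists_J A
    have h1 : J ∈ Algebra.adjoin ℂ (cx A.LA : Set (Module.End ℂ (ℂ ⊗[ℚ] A.H1))) :=
      A.cx_adjoin J (cx_mono A.MA_le_NA hJ)
    have hJε : J * ε.baseChange ℂ = ε.baseChange ℂ * J :=
      adj_comL h1 _ fun y hy => idem_cx hε hy
    refine ⟨rs J hJε, ?_, ?_, ?_, ?_⟩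
    · refine LinearMap.ext fun u => Subtype.ext ?_
      rw [Module.End.mul_apply, rs_coe, rs_coe]
      exact LinearMap.congr_fun hJJ _
    · intro u v
      rw [omB_apply, omB_apply, rs_coe, rs_coe]
      exact omC_skew A (fun X hX => A.MA_skew hX) J hJ _ _
    · intro P hP u hu
      have h2 := Pool.Agent.Y102.SP.kil_adj _ _ (map_stab hε hP) _ h1 u.1 ⟨u, hu, rfl⟩
      obtain ⟨w, hw, hw'⟩ := h2
      have h3 : rs J hJε u = w := Subtype.ext hw'.symm
      rw [h3]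
      exact hw
    · intro k hk
      have h2 := adj_comL h1 _ (ext_comm hε hk)
      refine LinearMap.ext fun u => Subtype.ext ?_
      have h3 := LinearMap.congr_fun h2 (u : ℂ ⊗[ℚ] A.H1)
      have h4 : (ε.baseChange ℂ).rangeRestrict (u : ℂ ⊗[ℚ] A.H1) = u := Subtype.ext (UB_fix hε u)
      have h5 : (ε.baseChange ℂ).rangeRestrict (J (u : ℂ ⊗[ℚ] A.H1)) = rs J hJε u := by
        apply Subtype.ext
        rw [rs_coe]
        exact UB_fix hε ⟨J u, UB_stab hJε u⟩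
      simp only [Module.End.mul_apply, LinearMap.comp_apply, h4, h5] at h3
      exact h3

end Pool.Agent.H86.CM6
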