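import Pool.Agent.H86.CM6.E3
import Pool.Agent.H86.CM6.E5

/-!
# The forms on the part without factors of type IV
-/

set_option autoImplicit false
set_option linter.unusedSectionVars false

open Module Function TensorProduct Matrix

noncomputable section

namespace Pool.Agent.H86.CM6

open Pool.Agent.R912 Pool.Agent.Y102 Pool.Agent.W516.DR Pool.Agent.H204R3.GP Pool.Agent.W516.KC
  Pool.Agent.H204R3.SP Pool.Agent.W5h25.AS

variable {g : ℕ} {A : AbVar g} {ε : Module.End ℚ A.H1}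

/-! ## The restriction of the forms -/

section Res

variable {κ : Type} [Fintype κ] [DecidableEq κ]

theorem prt_self {N : MultilinearMap ℚ (fun _ : κ => A.H1) ℚ}
    (hN : ∀ v k w, N (update v k ((1 - ε) w)) = 0) (v : κ → A.H1) :
    N v = N (fun k => ε (v k)) := by
  rw [sum_prt (ε := ε) N v, Finset.sum_eq_single Finset.univ]
  · rw [prt_apply]
    simp only [Finset.mem_univ, if_true]
  · intro S _ hS
    obtain ⟨k, hk⟩ : ∃ k, k ∉ S := by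
      by_contra hcon
      push Not at hcon
      exact hS (Finset.eq_univ_iff_forall.2 hcon)
    rw [prt_apply]
    have h1 : (fun k => (if k ∈ S then ε else 1 - ε) (v k)) =
        update (fun k => (if k ∈ S then ε else 1 - ε) (v k)) k ((1 - ε) (v k)) := by
      conv_lhs => rw [← update_eq_self k (fun k => (if k ∈ S then ε else 1 - ε) (v k))]
      rw [if_neg hk]
    rw [h1, hN]
  · intro h
    exact absurd (Finset.mem_univ _) h

/-- the form on the part without factors of type IV -/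
def psB (ε : Module.End ℚ A.H1) (N : MultilinearMap ℚ (fun _ : κ => A.H1) ℚ) :
    MultilinearMap ℂ (fun _ : κ => UB ε) ℂ :=
  (bcm (Ω := ℂ) (Module.finBasis ℚ A.H1) N).compLinearMap (fun _ => (UB ε).subtype)

theorem psB_apply (N : MultilinearMap ℚ (fun _ : κ => A.H1) ℚ) (v : κ → UB ε) :
    psB ε N v = bcm (Ω := ℂ) (Module.finBasis ℚ A.H1) N (fun k => (v k : ℂ ⊗[ℚ] A.H1)) := rfl

theorem psB_up (N : MultilinearMap ℚ (fun _ : κ => A.H1) ℚ) {x : Module.End ℂ (UB ε)}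
    {X : Module.End ℂ (ℂ ⊗[ℚ] A.H1)} (h : ∀ u, ((x u : UB ε) : ℂ ⊗[ℚ] A.H1) = X u) (v : κ → UB ε)
    (k : κ) : psB ε N (update v k (x (v k))) =
      bcm (Ω := ℂ) (Module.finBasis ℚ A.H1) N (update (fun k => (v k : ℂ ⊗[ℚ] A.H1)) k
        (X (v k))) := by
  rw [psB_apply]
  congr 1
  funext l
  by_cases hl : l = k
  · rw [hl, update_self, update_self, h]
  · rw [update_of_ne hl, update_of_ne hl]

theorem psB_kills {N : MultilinearMap ℚ (fun _ : κ => A.H1) ℚ} (h : ∀ X ∈ A.LA, Kills X N) :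
    ∀ x ∈ LB A ε, Kills x (psB ε N) := by
  rintro x ⟨X, hX, h1⟩ v
  simp only [psB_up N h1]
  have h2 : Kills X (bcm (Ω := ℂ) (Module.finBasis ℚ A.H1) N) :=
    (kills_bcm_iff _ _ _).2 fun lam => h _ (cmp_of_ext A.LA hX lam)
  exact h2 _

theorem psB_alt {N : MultilinearMap ℚ (fun _ : κ => A.H1) ℚ}
    (hNa : ∀ v i j, i ≠ j → v i = v j → N v = 0) : IsAlt (psB ε N) := by
  intro v i j hij hv
  rw [psB_apply]
  let N' : A.H1 [⋀^κ]→ₗ[ℚ] ℚ :=
    { N with map_eq_zero_of_eq' := fun v i j hv hij => hNa v i j hij hv }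
  have h1 := isAlt_bcm (Module.finBasis ℚ A.H1) N'
  exact h1 _ i j hij (congrArg Subtype.val hv)

/-- the restriction of a Lefschetz element -/
theorem zcomm (hε : A.Idem ε) {Z : Module.End ℚ A.H1} (hZ : Lf A Z) :
    Z.baseChange ℂ * ε.baseChange ℂ = ε.baseChange ℂ * Z.baseChange ℂ := by
  rw [← bc_mul, ← bc_mul, hZ.2 ε hε.mem]

theorem z_adj {Z : Module.End ℚ A.H1} (hZ : Lf A Z) :
    (Z.baseChange ℂ : Module.End ℂ (ℂ ⊗[ℚ] A.H1)) ∈
      Algebra.adjoin ℂ (cx A.LA : Set (Module.End ℂ (ℂ ⊗[ℚ] A.H1))) :=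
  bc_adjoin (mem_adjoin_of_comm A.semi_LA fun P hP => hZ.2 P hP)

theorem z_stab (hε : A.Idem ε) {Z : Module.End ℚ A.H1} (hZ : Lf A Z) (P : Submodule ℂ (UB ε))
    (hP : ∀ x ∈ LB A ε, ∀ u ∈ P, x u ∈ P) : ∀ u ∈ P, rs (Z.baseChange ℂ) (zcomm hε hZ) u ∈ P := by
  intro u hu
  have h2 := Pool.Agent.Y102.SP.kil_adj _ _ (map_stab hε hP) _ (z_adj hZ) u.1 ⟨u, hu, rfl⟩
  obtain ⟨w, hw, hw'⟩ := h2
  have h3 : rs (Z.baseChange ℂ) (zcomm hε hZ) u = w := Subtype.ext hw'.symm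
  rw [h3]
  exact hw

theorem z_comm (hε : A.Idem ε) {Z : Module.End ℚ A.H1} (hZ : Lf A Z) (k : Module.End ℂ (UB ε))
    (hk : ∀ x ∈ LB A ε, x * k = k * x) :
    rs (Z.baseChange ℂ) (zcomm hε hZ) * k = k * rs (Z.baseChange ℂ) (zcomm hε hZ) := by
  have h2 := adj_comL (z_adj hZ) _ (ext_comm hε hk)
  refine LinearMap.ext fun u => Subtype.ext ?_
  have h3 := LinearMap.congr_fun h2 (u : ℂ ⊗[ℚ] A.H1)
  have h4 : (ε.baseChange ℂ).rangeRestrict (u : ℂ ⊗[ℚ] A.H1) = u := Subtype.ext (UB_fix hε u)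
  have h5 : (ε.baseChange ℂ).rangeRestrict (Z.baseChange ℂ (u : ℂ ⊗[ℚ] A.H1)) =
      rs (Z.baseChange ℂ) (zcomm hε hZ) u := by
    apply Subtype.ext
    rw [rs_coe]
    exact UB_fix hε ⟨Z.baseChange ℂ u, UB_stab (zcomm hε hZ) u⟩
  simp only [Module.End.mul_apply, LinearMap.comp_apply, h4, h5] at h3
  exact h3

theorem z_skew (hε : A.Idem ε) {Z : Module.End ℚ A.H1} (hZ : Lf A Z) (u v : UB ε) :
    omB A ε (rs (Z.baseChange ℂ) (zcomm hε hZ) u) v +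
      omB A ε u (rs (Z.baseChange ℂ) (zcomm hε hZ) v) = 0 := by
  rw [omB_apply, omB_apply, rs_coe, rs_coe]
  exact skew_ext A.om (omC A) (omC_tmul A) hZ.1 _ _

theorem kills_of_psB (hε : A.Idem ε) {N : MultilinearMap ℚ (fun _ : κ => A.H1) ℚ}
    (hN : ∀ v k w, N (update v k ((1 - ε) w)) = 0) {Z : Module.End ℚ A.H1} (hZ : Lf A Z)
    (h : Kills (rs (Z.baseChange ℂ) (zcomm hε hZ)) (psB ε N)) : Kills Z N := by
  intro v
  have h1 := h (fun k => ⟨(1 : ℂ) ⊗ₜ[ℚ] ε (v k), (1 : ℂ) ⊗ₜ[ℚ] v k, by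
    rw [LinearMap.baseChange_tmul]⟩)
  have h2 : ∀ k, psB ε N (update (fun k => (⟨(1 : ℂ) ⊗ₜ[ℚ] ε (v k), (1 : ℂ) ⊗ₜ[ℚ] v k, by
      rw [LinearMap.baseChange_tmul]⟩ : UB ε)) k (rs (Z.baseChange ℂ) (zcomm hε hZ)
        (⟨(1 : ℂ) ⊗ₜ[ℚ] ε (v k), (1 : ℂ) ⊗ₜ[ℚ] v k, by
          rw [LinearMap.baseChange_tmul]⟩ : UB ε))) =
      algebraMap ℚ ℂ (N (update v k (Z (v k)))) := by
    intro k
    rw [psB_up N (fun u => rs_coe _ (zcomm hε hZ) u)
      (fun k => (⟨(1 : ℂ) ⊗ₜ[ℚ] ε (v k), (1 : ℂ) ⊗ₜ[ℚ] v k, by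
        rw [LinearMap.baseChange_tmul]⟩ : UB ε)) k]
    rw [prt_self hN (update v k (Z (v k)))]
    have h3 : (update (fun k => (1 : ℂ) ⊗ₜ[ℚ] ε (v k)) k
        (Z.baseChange ℂ ((1 : ℂ) ⊗ₜ[ℚ] ε (v k))) : κ → ℂ ⊗[ℚ] A.H1) =
        fun l => (1 : ℂ) ⊗ₜ[ℚ] ε (update v k (Z (v k)) l) := by
      funext l
      by_cases hl : l = k
      · rw [hl, update_self, update_self, LinearMap.baseChange_tmul]
        congr 1
        exact LinearMap.congr_fun (hZ.2 ε hε.mem) (v k)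
      · rw [update_of_ne hl, update_of_ne hl]
    change bcm (Ω := ℂ) (Module.finBasis ℚ A.H1) N (update (fun k => (1 : ℂ) ⊗ₜ[ℚ] ε (v k)) k
        (Z.baseChange ℂ ((1 : ℂ) ⊗ₜ[ℚ] ε (v k)))) = _
    rw [h3]
    exact bcm_one _ _ _
  rw [Finset.sum_congr rfl fun k _ => h2 k, ← map_sum] at h1
  exact (map_eq_zero_iff _ (algebraMap ℚ ℂ).injective).1 h1

end Res

end Pool.Agent.H86.CM6
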