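import Pool.Agent.H86.CM6.E6

/-!
# The main theorems
-/

set_option autoImplicit false
set_option linter.unusedSectionVars false

open Module Function TensorProduct Matrix

noncomputable section

namespace Pool.Agent.H86.CM6

open Pool.Agent.R912 Pool.Agent.Y102 Pool.Agent.W516.DR Pool.Agent.H204R3.GP Pool.Agent.W516.KC
  Pool.Agent.H204R3.SP Pool.Agent.W5h25.AS

variable {g : ℕ} {A : AbVar g} {ε : Module.End ℚ A.H1}

/-! ## Dimension four -/

theorem alt4_of {U : Type} [AddCommGroup U] [Module ℂ U]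
    {Ψ : MultilinearMap ℂ (fun _ : Fin 2 × Fin 2 => U) ℂ} (h : IsAlt Ψ) : Alt4 (toQ4 Ψ) := by
  have key : ∀ i j : Fin 2 × Fin 2, i ≠ j → ∀ v : Fin 2 × Fin 2 → U,
      Ψ (v ∘ Equiv.swap i j) = -Ψ v := by
    intro i j hij v
    let Ψ' : U [⋀^Fin 2 × Fin 2]→ₗ[ℂ] ℂ :=
      { Ψ with map_eq_zero_of_eq' := fun v i j hv hij => h v i j hij hv }
    exact Ψ'.map_swap v hij
  refine ⟨fun a b c d => ?_, fun a b c d => ?_, fun a b c d => ?_⟩
  · rw [toQ4_apply, toQ4_apply, ← key (0, 0) (0, 1) (by simp)]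
    congr 1
    funext l
    revert l
    refine forall4 ?_ ?_ ?_ ?_ <;> simp [Equiv.swap_apply_def]
  · rw [toQ4_apply, toQ4_apply, ← key (0, 1) (1, 0) (by simp)]
    congr 1
    funext l
    revert l
    refine forall4 ?_ ?_ ?_ ?_ <;> simp [Equiv.swap_apply_def]
  · rw [toQ4_apply, toQ4_apply, ← key (1, 0) (1, 1) (by simp)]
    congr 1
    funext l
    revert l
    refine forall4 ?_ ?_ ?_ ?_ <;> simp [Equiv.swap_apply_def]

theorem finrank_UB : finrank ℂ (UB ε) = finrank ℚ (LinearMap.range ε) := by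
  have h1 : LinearMap.range (ε.baseChange ℂ) =
      LinearMap.range ((LinearMap.range ε).subtype.baseChange ℂ) := by
    have h2 : ε = (LinearMap.range ε).subtype ∘ₗ ε.rangeRestrict := rfl
    conv_lhs => rw [h2, LinearMap.baseChange_comp]
    refine LinearMap.range_comp_of_range_eq_top _ ?_
    rw [LinearMap.range_eq_top]
    exact LinearMap.lTensor_surjective ℂ ε.surjective_rangeRestrict
  have h2 : Function.Injective ((LinearMap.range ε).subtype.baseChange ℂ) :=
    Module.Flat.lTensor_preserves_injective_linearMap (M := ℂ) (LinearMap.range ε).subtype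
      (Submodule.subtype_injective _)
  change finrank ℂ (LinearMap.range (ε.baseChange ℂ)) = _
  rw [h1, LinearMap.finrank_range_of_inj h2, finrank_baseChange]

theorem univ_eight (hε : A.Idem ε) (h0 : ∀ R ∈ A.ZA, R * ε = 0)
    (hdim : finrank ℚ (LinearMap.range ε) = 8)
    {N : MultilinearMap ℚ (fun _ : Fin 2 × Fin 2 => A.H1) ℚ}
    (hNa : ∀ v i j, i ≠ j → v i = v j → N v = 0)
    (hN : ∀ v k w, N (update v k ((1 - ε) w)) = 0) (h : ∀ X ∈ A.LA, Kills X N)
    {Z : Module.End ℚ A.H1} (hZ : Lf A Z) : Kills Z N := by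
  refine kills_of_psB hε hN hZ ?_
  rw [kills_iff_kill4]
  have hU : finrank ℂ (UB ε) = 8 := by rw [finrank_UB, hdim]
  have hnt : Nontrivial (UB ε) := by
    apply Module.nontrivial_of_finrank_pos (R := ℂ)
    rw [hU]
    norm_num
  refine (thyp' hε h0).main hU (alt4_of (psB_alt hNa)) (fun x hx => ?_) (z_stab hε hZ)
    (z_comm hε hZ) (z_skew hε hZ)
  rw [← kills_iff_kill4]
  exact psB_kills h x hx

/-! ## Small eigenspaces -/

theorem hyp4' (hε : A.Idem ε) (h0 : ∀ R ∈ A.ZA, R * ε = 0)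
    (hE : ∀ c : Module.End ℚ A.H1 → ℂ, (∀ R ∈ A.ZA, c R = 0) → finrank ℂ (ceig A c) ≤ 4) :
    Hyp4 (LB A ε) (omB A ε) where
  toTHyp := thyp' hε h0
  pk := fun N hN => by
    have hN' : IrrSub (cx A.LA) (N.map (UB ε).subtype) := by
      refine ⟨fun h => hN.ne ?_, map_stab hε hN.stab, fun P hP hPs hP0 => ?_⟩
      · exact Submodule.map_injective_of_injective (Submodule.subtype_injective (UB ε))
          (h.trans (Submodule.map_bot _).symm)
      · obtain ⟨P', hP'⟩ : ∃ P' : Submodule ℂ (UB ε), P'.map (UB ε).subtype = P :=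
          ⟨P.comap (UB ε).subtype, by
            rw [Submodule.map_comap_eq, Submodule.range_subtype, inf_eq_right]
            exact hP.trans (Submodule.map_subtype_le _ _)⟩
        rw [← hP'] at hP hPs hP0 ⊢
        have h1 : P' ≤ N := by
          intro u hu
          obtain ⟨w, hw, hw'⟩ := hP ⟨u, hu, rfl⟩
          have h2 : w = u := Subtype.ext hw'
          exact h2 ▸ hw
        rw [hN.irr P' h1 (fun x hx u hu => ?_) (fun h => hP0 (by rw [h, Submodule.map_bot]))]
        obtain ⟨X, hX, h2⟩ := hx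
        obtain ⟨w, hw, hw'⟩ := hPs X hX u ⟨u, hu, rfl⟩
        have h3 : x u = w := Subtype.ext ((h2 u).trans hw'.symm)
        rw [h3]
        exact hw
    obtain ⟨c, hc⟩ := pk_le_ceig hN'
    have hcR : ∀ R ∈ A.ZA, c R = 0 := by
      intro R hR
      obtain ⟨u, hu, hu0⟩ := Submodule.exists_mem_ne_zero_of_ne_bot hN.ne
      have h1 := hc (le_PK ⟨u, hu, rfl⟩) R ⟨hR.1, hR.2.2⟩
      have h2 : R.baseChange ℂ (u : ℂ ⊗[ℚ] A.H1) = 0 := by
        rw [← UB_fix hε u, ← bc_mul_apply, h0 R hR, LinearMap.baseChange_zero,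
          LinearMap.zero_apply]
      have h3 : c R • (u : ℂ ⊗[ℚ] A.H1) = 0 := by
        rw [← h2]
        exact h1.symm
      exact (smul_eq_zero.1 h3).resolve_right fun h4 => hu0 (Subtype.ext h4)
    have h5 : (PK (LB A ε) N).map (UB ε).subtype ≤ PK (cx A.LA) (N.map (UB ε).subtype) := by
      unfold PK
      rw [Submodule.map_span, Submodule.span_le]
      rintro _ ⟨_, ⟨k, hk, u, hu, rfl⟩, rfl⟩
      refine Submodule.subset_span ⟨_, ext_comm hε hk, (u : ℂ ⊗[ℚ] A.H1), ⟨u, hu, rfl⟩, ?_⟩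
      have h4 : (ε.baseChange ℂ).rangeRestrict (u : ℂ ⊗[ℚ] A.H1) = u := Subtype.ext (UB_fix hε u)
      simp only [LinearMap.comp_apply, h4]
    have h6 : finrank ℂ (PK (LB A ε) N) = finrank ℂ ((PK (LB A ε) N).map (UB ε).subtype) :=
      (LinearEquiv.finrank_eq (Submodule.equivMapOfInjective _ (Submodule.subtype_injective _) _))
    rw [h6]
    exact ((Submodule.finrank_mono (h5.trans hc))).trans (hE c hcR)

theorem kb_of_small (hε : A.Idem ε) (h0 : ∀ R ∈ A.ZA, R * ε = 0)
    (hE : ∀ c : Module.End ℚ A.H1 → ℂ, (∀ R ∈ A.ZA, c R = 0) → finrank ℂ (ceig A c) ≤ 4)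
    (κ : Type) [Fintype κ] [DecidableEq κ] : KB A ε κ := by
  intro N hNa hN h Z hZ
  refine kills_of_psB hε hN hZ ?_
  rw [← mem_KL]
  refine main' (hyp4' hε h0 hE) (psB_alt hNa) (fun x hx => ?_) (z_stab hε hZ)
    (z_comm hε hZ) (z_skew hε hZ)
  exact psB_kills h x hx

/-- There are no forms of odd degree which are killed by the complex structure. -/
theorem odd_zero {κ : Type} [Fintype κ] [DecidableEq κ] (hκ : Odd (Fintype.card κ))
    {N : MultilinearMap ℚ (fun _ : κ => A.H1) ℚ} (h : ∀ Z, Lf A Z → Kills Z N) : N = 0 := by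
  obtain ⟨J, hJ, hJJ⟩ := exists_J A
  obtain ⟨Ψ, hΨ⟩ : ∃ Ψ, Ψ = bcm (Ω := ℂ) (Module.finBasis ℚ A.H1) N := ⟨_, rfl⟩
  have hk : Kills J Ψ := by
    rw [hΨ]
    refine (kills_bcm_iff _ _ _).2 fun lam => h _ ?_
    have h1 := cmp_of_ext A.MA hJ lam
    exact ⟨A.NA_skew (A.MA_le_NA h1), fun Q hQ => A.NA_comm (A.MA_le_NA h1) hQ⟩
  have hJ2 : ∀ u, J (J u) = -u := fun u => by
    have := LinearMap.congr_fun hJJ u
    exact this
  -- the eigenvectors
  let p : ℂ ⊗[ℚ] A.H1 → ℂ ⊗[ℚ] A.H1 := fun u => (1 / 2 : ℂ) • (u - Complex.I • J u)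
  let q : ℂ ⊗[ℚ] A.H1 → ℂ ⊗[ℚ] A.H1 := fun u => (1 / 2 : ℂ) • (u + Complex.I • J u)
  have hp : ∀ u, J (p u) = Complex.I • p u := by
    intro u
    change J ((1 / 2 : ℂ) • (u - Complex.I • J u)) = Complex.I • ((1 / 2 : ℂ) • (u - Complex.I • J u))
    rw [map_smul, map_sub, map_smul, hJ2, smul_comm Complex.I, smul_sub Complex.I, smul_smul,
      Complex.I_mul_I]
    congr 1
    simp only [smul_neg, neg_smul, one_smul, sub_neg_eq_add]
    abel
  have hq : ∀ u, J (q u) = (-Complex.I) • q u := by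
    intro u
    change J ((1 / 2 : ℂ) • (u + Complex.I • J u)) =
      (-Complex.I) • ((1 / 2 : ℂ) • (u + Complex.I • J u))
    rw [map_smul, map_add, map_smul, hJ2, smul_comm (-Complex.I), smul_add (-Complex.I), smul_smul,
      neg_mul, Complex.I_mul_I, neg_neg]
    congr 1
    simp only [smul_neg, neg_smul, one_smul]
    abel
  have hpq : ∀ u, u = p u + q u := by
    intro u
    change u = (1 / 2 : ℂ) • (u - Complex.I • J u) + (1 / 2 : ℂ) • (u + Complex.I • J u)
    rw [← smul_add, sub_add_add_cancel, ← two_smul ℂ u, smul_smul]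
    norm_num
  have hΨ0 : ∀ v, Ψ v = 0 := by
    intro v
    have h1 : v = (fun k => p (v k)) + fun k => q (v k) := funext fun k => hpq (v k)
    rw [h1, MultilinearMap.map_add_univ]
    refine Finset.sum_eq_zero fun S _ => ?_
    obtain ⟨w, hw⟩ : ∃ w : κ → ℂ ⊗[ℚ] A.H1, w = S.piecewise (fun k => p (v k)) (fun k => q (v k)) :=
      ⟨_, rfl⟩
    rw [← hw]
    have hwk : ∀ k, J (w k) = (if k ∈ S then Complex.I else -Complex.I) • w k := by
      intro k
      rw [hw]
      by_cases hk : k ∈ S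
      · rw [Finset.piecewise_eq_of_mem _ _ _ hk, if_pos hk, hp]
      · rw [Finset.piecewise_eq_of_notMem _ _ _ hk, if_neg hk, hq]
    have h2 := hk w
    have h3 : ∀ k, Ψ (update w k (J (w k))) = (if k ∈ S then Complex.I else -Complex.I) * Ψ w := by
      intro k
      rw [hwk, MultilinearMap.map_update_smul, smul_eq_mul, update_eq_self]
    simp only [h3] at h2
    rw [← Finset.sum_mul] at h2
    refine (mul_eq_zero.1 h2).resolve_left fun h4 => ?_
    have h5 : ∑ k : κ, (if k ∈ S then Complex.I else -Complex.I) =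
        Complex.I * ((S.card : ℂ) - (Sᶜ).card) := by
      rw [← Finset.sum_add_sum_compl S, Finset.sum_congr rfl (g := fun _ => Complex.I)
        (fun k hk => if_pos hk), Finset.sum_congr (s₁ := Sᶜ) rfl (g := fun _ => -Complex.I)
        (fun k hk => if_neg (Finset.mem_compl.1 hk)), Finset.sum_const, Finset.sum_const,
        nsmul_eq_mul, nsmul_eq_mul]
      ring
    rw [h5] at h4
    have h6 := (mul_eq_zero.1 h4).resolve_left Complex.I_ne_zero
    rw [sub_eq_zero] at h6
    have h7 : S.card = (Sᶜ).card := by exact_mod_cast h6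
    have h8 := Finset.card_add_card_compl S
    obtain ⟨m, hm⟩ := hκ
    omega
  refine MultilinearMap.ext fun v => ?_
  have h1 := hΨ0 (fun k => (1 : ℂ) ⊗ₜ[ℚ] v k)
  rw [hΨ, bcm_one] at h1
  exact (map_eq_zero_iff _ (algebraMap ℚ ℂ).injective).1 h1

end Pool.Agent.H86.CM6
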