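import Pool.Agent.H86.CM6.E7

/-!
# The main theorems
-/

set_option autoImplicit false
set_option linter.unusedSectionVars false

open Module Function TensorProduct Matrix

noncomputable section

namespace Pool.Agent.H86.CM6

open Pool.Agent.R912 Pool.Agent.Y102 Pool.Agent.W516.DR Pool.Agent.H204R3.GP Pool.Agent.W516.KC
  Pool.Agent.H204R3.SP Pool.Agent.W5h25.AS

variable {g : ℕ} {A : AbVar g} {ε : Module.End ℚ A.H1}

/-- **Classes of degree four.** -/
theorem kills_four (hIV : CMIV A)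
    (hI : ∀ D ∈ A.ZA, ∀ c : ℚ, D * D * D = c • D → finrank ℚ (LinearMap.range D) < 8)
    (hr : ∀ R ∈ A.ZA, finrank ℚ (LinearMap.range R) ≤ 10)
    (hd : ∃ R ∈ A.ZA, 2 * g ≤ finrank ℚ (LinearMap.range R) + 8)
    (φ : A.H1 [⋀^Fin 2 × Fin 2]→ₗ[ℚ] ℚ)
    (hφ : IsDeRhamBettiForm QBar A.dR Pool.Agent.Y102.tau 2 φ.toMultilinearMap)
    {Z : Module.End ℚ A.H1} (hZ : Lf A Z) : Kills Z φ.toMultilinearMap := by
  classical
  obtain ⟨R, hR, hd⟩ := hd
  obtain ⟨ε, hε, h0⟩ := exists_idem' hIV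
  have hker : LinearMap.range ε ≤ LinearMap.ker R := by
    rintro _ ⟨u, rfl⟩
    rw [LinearMap.mem_ker, ← Module.End.mul_apply, h0 R hR, LinearMap.zero_apply]
  have h1 := Submodule.finrank_mono hker
  have h2 := LinearMap.finrank_range_add_finrank_ker R
  have h3 : finrank ℚ A.H1 = 2 * g := by
    change finrank ℚ (Fin (2 * g) → ℚ) = _
    rw [Module.finrank_fin_fun]
  have hdim : finrank ℚ (LinearMap.range ε) ≤ 8 := by omega
  have h : ∀ X ∈ A.LA, Kills X φ.toMultilinearMap := fun X hX => A.kills_of_mem hφ hX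
  refine kills_of_prt (ε := ε) fun S => ?_
  by_cases hS0 : S.card = 0
  · rw [Finset.card_eq_zero] at hS0
    subst hS0
    refine c_part hI hIV hr hε h0 (by simp; decide)
      (fun v i j hij hv => prt_alt φ ∅ hij (by simp) hv)
      (fun v k w => prt_zero_out hε _ (Finset.notMem_empty k) _ _)
      (fun X hX => kills_prt ∅ (hε.mem X hX) (h X hX)) hZ
  by_cases hS4 : S.card = 4
  · have : S = Finset.univ := by
      rw [← Finset.card_eq_iff_eq_univ, hS4]
      simp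
    subst this
    by_cases h7 : finrank ℚ (LinearMap.range ε) ≤ 7
    · exact kills_univ hε h7 φ h hZ
    · exact univ_eight hε h0 (by omega)
        (fun v i j hij hv => prt_alt φ Finset.univ hij (by simp) hv)
        (fun v k w => prt_zero_in hε _ (Finset.mem_univ k) _ _)
        (fun X hX => kills_prt _ (hε.mem X hX) (h X hX)) hZ
  · exact kills_mid hε h0 (by simp) S hS0 hS4 h hZ

/-- **Classes of every degree.** -/
theorem kills_even (hIV : CMIV A)
    (hI : ∀ D ∈ A.ZA, ∀ c : ℚ, D * D * D = c • D → finrank ℚ (LinearMap.range D) < 8)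
    (hr : ∀ R ∈ A.ZA, finrank ℚ (LinearMap.range R) ≤ 10)
    (hE : ∀ c : Module.End ℚ A.H1 → ℂ, (∀ R ∈ A.ZA, c R = 0) → finrank ℂ (ceig A c) ≤ 4)
    {k : ℕ} (φ : A.H1 [⋀^Fin k × Fin 2]→ₗ[ℚ] ℚ)
    (hφ : IsDeRhamBettiForm QBar A.dR Pool.Agent.Y102.tau k φ.toMultilinearMap)
    {Z : Module.End ℚ A.H1} (hZ : Lf A Z) : Kills Z φ.toMultilinearMap := by
  classical
  obtain ⟨ε, hε, h0⟩ := exists_idem' hIV
  refine kills_split hε h0 ?_ hI hIV hr (fun S _ => kb_of_small hε h0 hE _) (fun S hS => ?_) φ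
    (fun X hX => A.kills_of_mem hφ hX) hZ
  · rw [Fintype.card_prod, Fintype.card_fin, Fintype.card_fin, mul_comm]
    exact even_two_mul k
  · intro N hNa hN hLA
    refine odd_zero (by rw [Fintype.card_coe]; exact hS) fun Z hZ => ?_
    exact kb_of_small hε h0 hE _ N hNa hN hLA Z hZ

theorem hodge_of_lf {κ : ℕ} {φ : MultilinearMap ℚ (fun _ : Fin κ × Fin 2 => A.H1) ℚ}
    (h : ∀ Z, Lf A Z → Kills Z φ) : IsHodgeTensor (A.per : A.H1 →+ (Fin g → ℂ)) φ :=
  hodge_of_kills _ A.isRationalStructure _ fun _ hZ =>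
    h _ ⟨A.NA_skew (A.MA_le_NA hZ), fun _ hQ => A.NA_comm (A.MA_le_NA hZ) hQ⟩

end Pool.Agent.H86.CM6
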